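import Pool.Agent.N980.WP.Ex4

/-!
Local existence of smooth solutions.
-/

open MeasureTheory Set Filter Topology
open scoped ContDiff

set_option linter.unusedVariables false

namespace Pool.Agent.N980.WP

open Pool.Agent.N980.NU
open Pool.Agent.N980.CB (ti_nonneg tc_ti' ti_smooth' RV dv_fs)
open Pool.Agent.H356R3.NS (K C3 E3 R3 ex SN Sym RD TT SF SFam Fam cf' at' nk pw fj dS Bf dt dU cvv PF Ph Dm')

variable {R : ℕ} {ℓ : ℕ → ℝ} {ι : Type} [Fintype ι] (Tt : ι → Tr R ℓ) {ν c T : ℝ} {a : K → C3} {u : Fam}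

theorem KSol.rd (h : KSol Tt c T a u) (t : ℝ) (i : Fin 3) : RD (cst fun k => u k t i) := by
  intro m
  obtain ⟨b, b0, hb, hub⟩ := h.dom m
  refine ⟨_, hb, fun k s => ?_⟩
  have := (norm_le_pi_norm (u k t) i).trans (hub k t)
  exact mul_le_mul_of_nonneg_left this (pow_pos (H356R3.NS.pw_pos k) m).le

theorem KSol.sn (h : KSol Tt c T a u) (t : ℝ) : SN (at' u t) := by
  obtain ⟨b, b0, hb, hub⟩ := h.dom 0
  refine hb.of_nonneg_of_le (fun _ => norm_nonneg _) fun k => ?_
  rw [pow_zero, one_mul]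
  exact hub k t

theorem KSol.real (h : KSol Tt c T a u) (t : ℝ) (i : Fin 3) (x : V) :
    ((UU u t x i : ℝ) : ℂ) = fs (fun k => u k t i) x := by
  have h1 : (fs (fun k => u k t i) x).im = 0 := by
    rw [fs_SF]
    exact H356R3.NS.SF_real (c := cst fun k => u k t i) (fun k s => h.sym t k i) _
  apply Complex.ext
  · rfl
  · rw [h1]; simp

theorem KSol.fco (h : KSol Tt c T a u) (t : ℝ) : NU.fco (UU u t) = at' u t := by
  funext k i
  exact fco_fs (a := at' u t) (h.sn Tt t) (h.sym t) k i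

theorem KSol.spv (h : KSol Tt c T a u) (t : ℝ) : SPV (UU u t) := by
  refine ⟨contDiff_pi.2 fun i => fs_smooth (h.rd Tt t i), fun x j => ?_⟩
  funext i
  unfold UU
  rw [fs_per]

theorem KSol.KK (h : KSol Tt c T a u) (w : Wd R ℓ) (t : ℝ) (x : V) (i : Fin 3) :
    KQ Tt (UU u t) (UU u t) x i = (fs (fun k => KT Tt (at' u t) (at' u t) k i) x).re := by
  rw [KQ_fd Tt w (h.spv Tt t) (h.spv Tt t), h.fco Tt t]
  rfl

/-- Joint smoothness up to the initial time. -/
theorem KSol.smooth_on (h : KSol Tt c T a u) (w : Wd R ℓ) (hT : 0 < T) :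
    (ContDiffOn ℝ ∞ (fun z : ℝ × V => UU u z.1 z.2) (Ico 0 T ×ˢ univ)) ∧
      ContDiffOn ℝ ∞ (fun z : ℝ × V => PP u z.1 z.2) (Ico 0 T ×ˢ univ) := by
  have key : ∀ (F : ℝ × V → ℂ) (g : ℝ × V → ℝ), ContDiffOn ℝ ∞ F (Ici 0 ×ˢ univ) →
      (∀ t ∈ Ico 0 T, ∀ x, g (t, x) = (F (ti 0 T t, x)).re) → ContDiffOn ℝ ∞ g (Ico 0 T ×ˢ univ) := by
    intro F g hF hg
    have hcomp : ContDiffOn ℝ ∞ (fun z : ℝ × V => (F (ti 0 T z.1, z.2)).re) (Ico 0 T ×ˢ univ) := by
      refine Complex.reCLM.contDiff.comp_contDiffOn (hF.comp (t := Ici 0 ×ˢ univ)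
        (ContDiffOn.prodMk ?_ contDiff_snd.contDiffOn) fun z hz => ⟨ti_nonneg hz.1.1 hz.1.2, mem_univ _⟩)
      exact (ti_smooth' hT).comp contDiff_fst.contDiffOn fun z hz => hz.1
    exact hcomp.congr fun z hz => hg z.1 hz.1 z.2
  constructor
  · rw [contDiffOn_pi]
    intro i
    refine key (SF (cf' (CC 0 T u) i)) (fun z => UU u z.1 z.2 i)
      (H356R3.NS.SF_contDiffOn fun n => h.CC_TT Tt w hT n i) fun t ht x => ?_
    show (fs (fun k => u k t i) x).re = (∑' k, u k (tc 0 T (ti 0 T t)) i * ex k x).re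
    rw [tc_ti' ht.1 ht.2]; rfl
  · refine key (SF (PF (CC 0 T u))) (fun z => PP u z.1 z.2)
      (H356R3.NS.SF_contDiffOn fun n => H356R3.NS.TT_PF fun i => h.CC_TT Tt w hT n i) fun t ht x => ?_
    show (fs (fun k => PF u k t) x).re = (∑' k, PF u k (tc 0 T (ti 0 T t)) * ex k x).re
    rw [tc_ti' ht.1 ht.2]; rfl

/-- The time derivative. -/
theorem KSol.time_deriv (h : KSol Tt c T a u) (w : Wd R ℓ) {t : ℝ} (ht : t ∈ Ioo 0 T)
    (x : V) (i : Fin 3) : HasDerivAt (fun s => UU u s x i)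
      (fs (fun k => RK Tt c (at' u t) k i) x).re t := by
  have hT : 0 < T := ht.1.trans ht.2
  set C := CC 0 T u with hC
  set τ := ti 0 T t with hτ
  have hτ0 : 0 < τ := ti_pos ht.1 ht.2
  have hTT := h.CC_TT Tt w hT
  set c' : SFam := fun k τ => ((T - 0 : ℝ) : ℂ) * ((ed τ : ℂ) * RKf Tt c C i k τ) with hc'
  have hTT' : TT 0 c' :=
    TT.mul (p := fun _ => ((T - 0 : ℝ) : ℂ)) (C := |T - 0|) (r := 0)
      (fun k => by rw [Complex.norm_real, Real.norm_eq_abs]; simp) (TT.ed (TT_RKf Tt w c (hTT 0) i))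
  have hF := H356R3.NS.SF_hasFDerivAt (c := cf' C i) (c' := c') (hTT 0 i).rd hTT'.rd
    (fun k s hs => h.CC_deriv Tt hT i k hs) (p := (τ, x)) ⟨hτ0, mem_univ _⟩
  have hcurve : HasDerivAt (fun s : ℝ => ((ti 0 T s, x) : ℝ × V)) (1 / (T - t), 0) t :=
    (ti_deriv ht.1 ht.2).prodMk (hasDerivAt_const t x)
  have h3 := HasFDerivAt.comp_hasDerivAt t hF hcurve
  have h4 := Complex.reCLM.hasFDerivAt.comp_hasDerivAt t h3
  have h5 : HasDerivAt (fun s => UU u s x i) (Complex.reCLM ((Ph (SF c' (τ, x)) fun j =>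
      SF (dS j (cf' C i)) (τ, x)) (1 / (T - t), 0))) t := by
    refine h4.congr_of_eventuallyEq ?_
    filter_upwards [Ioo_mem_nhds ht.1 ht.2] with s hs
    show (fs (fun k => u k s i) x).re = (∑' k, u k (tc 0 T (ti 0 T s)) i * ex k x).re
    rw [tc_ti hs.1 hs.2]; rfl
  refine h5.congr_deriv ?_
  rw [H356R3.NS.Ph_apply]
  have hSF : SF c' (τ, x) = (((T - 0) * ed τ : ℝ) : ℂ) * fs (fun k => RK Tt c (at' u t) k i) x := by
    unfold SF fs
    rw [← tsum_mul_left]
    refine tsum_congr fun k => ?_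
    simp only [hc', RKf_eq]
    have : at' C τ = at' u t := by
      funext k
      show u k (tc 0 T (ti 0 T t)) = u k t
      rw [tc_ti ht.1 ht.2]
    rw [this]
    push_cast
    ring
  rw [hSF, hτ, ed_ti ht.1 ht.2]
  have h6 : (T - 0) * ((T - t) / (T - 0)) * (1 / (T - t)) = 1 := by
    have : T - 0 ≠ 0 := by linarith
    have : T - t ≠ 0 := by linarith [ht.2]
    field_simp
  simp only [Pi.zero_apply, Complex.ofReal_zero, mul_zero, Finset.sum_const_zero, add_zero,
    Complex.reCLM_apply]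
  rw [mul_comm (((((T - 0) * ((T - t) / (T - 0)) : ℝ)) : ℂ)) _, mul_assoc, ← Complex.ofReal_mul, h6]
  simp

/-- The momentum equation. -/
theorem KSol.momentum (h : KSol Tt (4 * Real.pi ^ 2 * ν) T a u) (w : Wd R ℓ) {t : ℝ}
    (ht : t ∈ Ioo 0 T) (x : V) (i : Fin 3) :
    deriv (fun s => UU u s x i) t + ∑ j, UU u t x j * pd j (fun y => UU u t y i) x
      = ν * lap (UU u t) x i - pd i (PP u t) x + KQ Tt (UU u t) (UU u t) x i := by
  set c := 4 * Real.pi ^ 2 * ν with hcd
  rw [(h.time_deriv Tt w ht x i).deriv]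
  set A : Fam := fun k _ => u k t with hA
  have hAr : ∀ i, RD (cf' A i) := fun i => h.rd Tt t i
  have hAT : ∀ n i, TT n (cf' A i) := fun n i => TT_cst (h.rd Tt t i) n
  have hdiv : ∀ k s, dt k (A k s) = 0 := fun k s => h.div k t
  have hPF : RD (cst fun k => PF u k t) := by
    have : TT 0 (PF A) := H356R3.NS.TT_PF (hAT 0)
    intro m
    obtain ⟨b, hb, hbd⟩ := this.rd m
    exact ⟨b, hb, fun k s => hbd k 0⟩
  have e1 : ∀ j, pd j (fun y => UU u t y i) = fun x => (fs (fun k => fj k j * u k t i) x).re := fun j =>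
    funext fun x => pd_fs (h.rd Tt t i) j x
  have e2 : lap (UU u t) x i = (fs (fun k => ∑ j, fj k j * (fj k j * u k t i)) x).re := by
    unfold NU.lap
    simp only [e1]
    simp only [pd_fs (RD_fj (h.rd Tt t i) _)]
    rw [← Complex.re_sum, ← fs_finsum Finset.univ (a := fun j k => fj k j * (fj k j * u k t i))
      (fun j _ => RD_summ (RD_fj (RD_fj (h.rd Tt t i) j) j))]
  have e3 : pd i (PP u t) x = (fs (fun k => fj k i * PF u k t) x).re := pd_fs hPF i x
  have e4 := h.KK Tt w t x i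
  rw [e2, e3, e4]
  simp only [e1]
  have hdS : ∀ j, RD (dS j (cf' A i)) := fun j => (hAr i).mul fun k => H356R3.NS.norm_fj_le k j
  have hcv : ∀ j, RD (cvv (cf' A j) (dS j (cf' A i))) := fun j => (hAr j).conv (hdS j)
  have m1 : ∀ j, fs (fun k => u k t j) x * fs (fun k => fj k j * u k t i) x
      = fs (fun k => cvv (cf' A j) (dS j (cf' A i)) k 0) x := by
    intro j
    exact H356R3.NS.SF_mul (c := cf' A j) (d := dS j (cf' A i)) (hAr j) (hdS j) (0, x)
  have hreal1 : ∀ j, ((UU u t x j : ℝ) : ℂ) = fs (fun k => u k t j) x := fun j => h.real Tt t j x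
  have m2 : ∀ j, UU u t x j * (fs (fun k => fj k j * u k t i) x).re
      = (fs (fun k => cvv (cf' A j) (dS j (cf' A i)) k 0) x).re := by
    intro j
    rw [← m1 j, ← hreal1 j, Complex.re_ofReal_mul]
  simp only [m2]
  rw [← Complex.re_sum, ← fs_finsum Finset.univ (a := fun j k => cvv (cf' A j) (dS j (cf' A i)) k 0)
    (fun j _ => (by
      obtain ⟨b, hb, hbd⟩ := (hcv j).summ
      exact hb.of_nonneg_of_le (fun _ => norm_nonneg _) fun k => hbd k 0))]
  have s1 : Summable fun k => ‖RK Tt c (at' u t) k i‖ := by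
    have h1 : TT 0 (RKf Tt c A i) := TT_RKf Tt w c (hAT 0) i
    obtain ⟨b, hb, hbd⟩ := h1.rd.summ
    refine hb.of_nonneg_of_le (fun _ => norm_nonneg _) fun k => ?_
    have := hbd k 0
    rwa [RKf_eq] at this
  have s2 : Summable fun k => ‖∑ j, cvv (cf' A j) (dS j (cf' A i)) k 0‖ := by
    refine (summable_sum fun j (_ : j ∈ Finset.univ) => ?_ : Summable fun k => ∑ j,
      ‖cvv (cf' A j) (dS j (cf' A i)) k 0‖).of_nonneg_of_le (fun _ => norm_nonneg _) fun k => norm_sum_le _ _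
    obtain ⟨b, hb, hbd⟩ := (hcv j).summ
    exact hb.of_nonneg_of_le (fun _ => norm_nonneg _) fun k => hbd k 0
  have s3 : Summable fun k => ‖∑ j, fj k j * (fj k j * u k t i)‖ := by
    refine (summable_sum fun j (_ : j ∈ Finset.univ) => ?_ : Summable fun k => ∑ j,
      ‖fj k j * (fj k j * u k t i)‖).of_nonneg_of_le (fun _ => norm_nonneg _) fun k => norm_sum_le _ _
    exact RD_summ (RD_fj (RD_fj (h.rd Tt t i) j) j)
  have s4 : Summable fun k => ‖fj k i * PF u k t‖ := RD_summ (RD_fj hPF i)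
  have s5 : Summable fun k => ‖KT Tt (at' u t) (at' u t) k i‖ := by
    have h1 := TT_KT Tt w (u := A) (hAT 0) i
    obtain ⟨b, hb, hbd⟩ := h1.rd.summ
    exact hb.of_nonneg_of_le (fun _ => norm_nonneg _) fun k => hbd k 0
  have key : fs (fun k => RK Tt c (at' u t) k i) x
      + fs (fun k => ∑ j, cvv (cf' A j) (dS j (cf' A i)) k 0) x
      = (ν : ℂ) * fs (fun k => ∑ j, fj k j * (fj k j * u k t i)) x
        + ((-1 : ℝ) : ℂ) * fs (fun k => fj k i * PF u k t) x
        + fs (fun k => KT Tt (at' u t) (at' u t) k i) x := by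
    rw [← fs_smul', ← fs_smul', ← fs_add' s1 s2, ← fs_add' (by
        simp only [norm_mul]; exact s3.mul_left _) (by simp only [norm_mul] at s4 ⊢; exact s4.mul_left _),
      ← fs_add' ?_ s5]
    · congr 1
      funext k
      have hf := H356R3.NS.fourier_eq (ν := ν) hAr hdiv i k 0
      have e5 : RK Tt c (at' u t) k i
          = dU (4 * Real.pi ^ 2 * ν) A i k 0 + KT Tt (at' u t) (at' u t) k i := by
        have h1 := RKf_eq Tt c A i k 0
        have h3 : at' A 0 = at' u t := rfl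
        rw [h3] at h1
        rw [← h1]
        unfold RKf
        rw [h3]
      rw [e5]
      have h4 : ∑ j, dS j (dS j (cf' A i)) k 0 = ∑ j, fj k j * (fj k j * u k t i) := rfl
      have h5 : dS i (PF A) k 0 = fj k i * PF u k t := rfl
      rw [h4, h5] at hf
      push_cast
      linear_combination hf
    · have s6 : Summable fun k => ‖(ν : ℂ) * ∑ j, fj k j * (fj k j * u k t i)‖ := by
        simp only [norm_mul]; exact s3.mul_left _
      have s7 : Summable fun k => ‖((-1 : ℝ) : ℂ) * (fj k i * PF u k t)‖ := by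
        simp only [norm_mul] at s4 ⊢; exact s4.mul_left _
      exact (s6.add s7).of_nonneg_of_le (fun _ => norm_nonneg _) fun k => norm_add_le _ _
  have keyre := congrArg Complex.re key
  rw [Complex.add_re, Complex.add_re, Complex.add_re, Complex.re_ofReal_mul, Complex.re_ofReal_mul] at keyre
  linarith

theorem KSol.smsol (h : KSol Tt (4 * Real.pi ^ 2 * ν) T a u) (w : Wd R ℓ) (hT : 0 < T) :
    Sol ν (KQ Tt) T (UU u) (PP u) where
  smooth_u := (h.smooth_on Tt w hT).1
  smooth_p := (h.smooth_on Tt w hT).2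
  per_u := fun t _ x j => (h.spv Tt t).2 x j
  per_p := fun t _ x j => by
    unfold PP
    rw [fs_per]
  divfree := fun t _ x => dv_fs (h.rd Tt t) (fun k => h.div k t) x
  momentum := fun t ht x i => h.momentum Tt w ht x i

/-- Local existence of smooth solutions. -/
theorem local_existence (w : Wd R ℓ) (hν : 0 < ν) {v : V → V} (hv : SPV v)
    (hdv : ∀ x, dv v x = 0) : ∃ T > 0, ∃ (u : ℝ → V → V) (p : ℝ → V → ℝ), u 0 = v ∧ Sol ν (KQ Tt) T u p := by
  have ha : RV (NU.fco v) := by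
    intro m
    have h1 : ∀ i, Summable fun k => pw k ^ m * ‖NU.fco v k i‖ := by
      intro i
      obtain ⟨b, hb, h⟩ := hv.rd i m
      exact hb.of_nonneg_of_le (fun k => mul_nonneg (pow_pos (H356R3.NS.pw_pos k) m).le (norm_nonneg _))
        fun k => h k 0
    refine (summable_sum fun i (_ : i ∈ Finset.univ) => h1 i).of_nonneg_of_le
      (fun k => mul_nonneg (pow_pos (H356R3.NS.pw_pos k) m).le (norm_nonneg _)) fun k => ?_
    rw [← Finset.mul_sum]
    refine mul_le_mul_of_nonneg_left ?_ (pow_pos (H356R3.NS.pw_pos k) m).le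
    rw [pi_norm_le_iff_of_nonneg (Finset.sum_nonneg fun _ _ => norm_nonneg _)]
    intro i
    exact Finset.single_le_sum (f := fun i => ‖NU.fco v k i‖) (fun _ _ => norm_nonneg _) (Finset.mem_univ i)
  have hd : ∀ k, dt k (NU.fco v k) = 0 := by
    intro k
    have h1 : H459R3.NS.fr (fun x => dv v x) k = 0 := by
      have : (fun x => dv v x) = fun _ => 0 := funext hdv
      rw [this]
      unfold H459R3.NS.fr H459R3.NS.fc
      simp
    have h2 : H459R3.NS.fr (fun x => dv v x) k = ∑ j, fj k j * NU.fco v k j := by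
      have h3 := fr_sum Finset.univ (f := fun j => pd j fun y => v y j) (fun j _ => sp_pd (hv.sp j) j) k
      have h4 : (fun x => dv v x) = fun x => ∑ j, pd j (fun y => v y j) x := rfl
      rw [h4, h3]
      refine Finset.sum_congr rfl fun j _ => ?_
      exact fr_pd' hv j j k
    rw [h2] at h1
    unfold H356R3.NS.dt
    unfold fj at h1
    have h5 : 2 * Real.pi * Complex.I * ∑ j, (k j : ℂ) * NU.fco v k j = 0 := by
      rw [Finset.mul_sum, ← h1]
      exact Finset.sum_congr rfl fun j _ => by ring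
    have h6 : (2 * (Real.pi : ℂ) * Complex.I) ≠ 0 := by
      simp [Real.pi_ne_zero]
    exact (mul_eq_zero.1 h5).resolve_left h6
  obtain ⟨T, hT, u, hu⟩ := ksol_exists Tt w (by positivity : 0 < 4 * Real.pi ^ 2 * ν) ha (fco_sym v) hd
  refine ⟨T, hT, UU u, PP u, ?_, hu.smsol Tt w hT⟩
  funext x i
  show (fs (fun k => u k 0 i) x).re = v x i
  have e : (fun k => u k 0 i) = fun k => NU.fco v k i := by
    funext k; rw [hu.init]
  rw [e, ← hv.inv x i, Complex.ofReal_re]

end Pool.Agent.N980.WP
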