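import Pool.Agent.N980.WP.Trm
import Pool.Agent.N980.CB.Uni

/-!
Bessel's inequality and the Sobolev bound of the trilinear form.
-/

open MeasureTheory Set Filter Topology
open scoped ContDiff

set_option linter.unusedVariables false

namespace Pool.Agent.N980.WP

open Pool.Agent.N980.NU
open Pool.Agent.N980.CB (Rap one_le_R R_pos summ_inv)
open Pool.Agent.H356R3.NS (K C3 E3 R3 ex SN Sym RD TT SF SFam Fam cf' at' nk pw fj dS Bf dt)

variable {R : ℕ} {ℓ : ℕ → ℝ} (X : Fm R ℓ) (w : Wd R ℓ)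

theorem k0_le_nk (k : K) : |(k 0 : ℝ)| ≤ nk k := by
  unfold nk H356R3.NS.sq
  apply Real.le_sqrt_of_sq_le
  rw [sq_abs, Fin.sum_univ_three]
  nlinarith [sq_nonneg (k 1 : ℝ), sq_nonneg (k 2 : ℝ)]

theorem g_nonneg (s : ℝ) (v : V → V) (k : K) : 0 ≤ (2 * Real.pi * nk k) ^ (2 * s) * e2 v k ^ 2 := by
  have := H356R3.NS.nk_nonneg k
  have := Real.pi_pos
  exact mul_nonneg (Real.rpow_nonneg (by positivity) _) (sq_nonneg _)

/-- The part of the Sobolev norm at the level `n`. -/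
noncomputable def Fm.hn (s : ℝ) (v : V → V) (n : ℕ) : ℝ :=
  ∑' k, if X.L k = n then (2 * Real.pi * nk k) ^ (2 * s) * e2 v k ^ 2 else 0

theorem Fm.hn_sum {s : ℝ} (hs0 : 0 ≤ s) {v : V → V} (hv : SPV v) : HasSum (X.hn s v) (hs s v ^ 2) := by
  have h1 := lvl_split (L := X.L) (g_nonneg s v) (hs_summ hs0 hv)
  have h3 : hs s v ^ 2 = ∑' k, (2 * Real.pi * nk k) ^ (2 * s) * e2 v k ^ 2 := by
    rw [hs_eq, Real.sq_sqrt (tsum_nonneg (g_nonneg s v))]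
  rw [h3]
  exact h1

theorem Fm.hn_nonneg (s : ℝ) (v : V → V) (n : ℕ) : 0 ≤ X.hn s v n := tsum_nonneg (ite_nn (g_nonneg s v) n)

/-- Cauchy-Schwarz at the level `n`. -/
theorem Fm.cs_sq (w : Wd R ℓ) {s : ℝ} (hs0 : 0 ≤ s) {v : V → V} (hv : SPV v)
    (n : ℕ) : ((R : ℝ) ^ n) ^ (2 * s) * X.cs v n ^ 2 ≤ X.c ^ 2 * X.hn s v n := by
  classical
  have hpi := Real.pi_gt_three
  have hR0 := R_pos w.hR n
  set S := (X.fin n).toFinset with hS
  have hmem : ∀ k, k ∉ S → X.ψ n k = 0 := by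
    intro k hk
    by_contra h0
    exact hk ((X.fin n).mem_toFinset.2 h0)
  set pe : K → ℝ := fun k => Real.sqrt (∑ i, ‖X.ψ n k i‖ ^ 2) with hpe
  have pe2 : ∀ k, pe k ^ 2 = ∑ i, ‖X.ψ n k i‖ ^ 2 := fun k => Real.sq_sqrt (by positivity)
  have pe1 : ∑ k ∈ S, pe k ^ 2 ≤ X.c ^ 2 := by
    refine le_trans (le_of_eq ?_) (X.l2 n)
    simp only [pe2]
    symm
    refine tsum_eq_sum fun k hk => ?_
    rw [hmem k hk]
    simp
  have hco : |X.cs v n| ≤ ∑ k ∈ S, e2 v k * pe k := by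
    rw [X.cs_eq hv.cont]
    unfold Fm.co
    rw [tsum_eq_sum (s := S) fun k hk => by rw [hmem k hk]; simp]
    refine (Complex.abs_re_le_norm _).trans ((norm_sum_le _ _).trans (Finset.sum_le_sum fun k _ => ?_))
    refine (norm_sum_le _ _).trans ?_
    have : ∀ i, ‖fco v k i * star (X.ψ n k i)‖ = ‖fco v k i‖ * ‖X.ψ n k i‖ := fun i => by
      rw [norm_mul, norm_star]
    simp only [this]
    exact Real.sum_mul_le_sqrt_mul_sqrt _ _ _
  have hw : ((R : ℝ) ^ n) ^ s * |X.cs v n| ≤ ∑ k ∈ S, ((2 * Real.pi * nk k) ^ s * e2 v k) * pe k := by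
    calc ((R : ℝ) ^ n) ^ s * |X.cs v n| ≤ ((R : ℝ) ^ n) ^ s * ∑ k ∈ S, e2 v k * pe k := by gcongr
      _ = ∑ k ∈ S, ((R : ℝ) ^ n) ^ s * (e2 v k * pe k) := by rw [Finset.mul_sum]
      _ ≤ _ := by
        refine Finset.sum_le_sum fun k hk => ?_
        have hk0 : X.ψ n k ≠ 0 := (X.fin n).mem_toFinset.1 hk
        obtain ⟨l1, l2, l3⟩ := X.lv n k hk0
        have h1 := k0_le_nk k
        have h2 : (R : ℝ) ^ n ≤ 2 * Real.pi * nk k := by
          have := abs_nonneg (k 0 : ℝ)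
          nlinarith
        have h3 := Real.rpow_le_rpow hR0.le h2 hs0
        have h4 := e2_nonneg v k
        have h5 : 0 ≤ pe k := Real.sqrt_nonneg _
        calc ((R : ℝ) ^ n) ^ s * (e2 v k * pe k) ≤ (2 * Real.pi * nk k) ^ s * (e2 v k * pe k) := by gcongr
          _ = _ := by ring
  have hlhs : ((R : ℝ) ^ n) ^ (2 * s) * X.cs v n ^ 2 = (((R : ℝ) ^ n) ^ s * |X.cs v n|) ^ 2 := by
    rw [mul_pow, sq_abs, ← Real.rpow_natCast (((R : ℝ) ^ n) ^ s) 2, ← Real.rpow_mul hR0.le, mul_comm s]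
    norm_num
  rw [hlhs]
  have hnn : 0 ≤ ((R : ℝ) ^ n) ^ s * |X.cs v n| := by positivity
  have hs2 : 0 ≤ ∑ k ∈ S, ((2 * Real.pi * nk k) ^ s * e2 v k) ^ 2 := Finset.sum_nonneg fun _ _ => sq_nonneg _
  calc (((R : ℝ) ^ n) ^ s * |X.cs v n|) ^ 2 ≤ (∑ k ∈ S, ((2 * Real.pi * nk k) ^ s * e2 v k) * pe k) ^ 2 := by
        gcongr
    _ ≤ (∑ k ∈ S, ((2 * Real.pi * nk k) ^ s * e2 v k) ^ 2) * ∑ k ∈ S, pe k ^ 2 :=
        Finset.sum_mul_sq_le_sq_mul_sq _ _ _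
    _ ≤ (∑ k ∈ S, ((2 * Real.pi * nk k) ^ s * e2 v k) ^ 2) * X.c ^ 2 := by gcongr
    _ = X.c ^ 2 * ∑ k ∈ S, (2 * Real.pi * nk k) ^ (2 * s) * e2 v k ^ 2 := by
        rw [mul_comm]
        congr 1
        refine Finset.sum_congr rfl fun k _ => ?_
        have : 0 ≤ 2 * Real.pi * nk k := by
          have := H356R3.NS.nk_nonneg k
          positivity
        rw [mul_pow, ← Real.rpow_natCast ((2 * Real.pi * nk k) ^ s) 2, ← Real.rpow_mul this, mul_comm s]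
        norm_num
    _ ≤ X.c ^ 2 * X.hn s v n := by
        refine mul_le_mul_of_nonneg_left ?_ (sq_nonneg _)
        refine le_trans (le_of_eq ?_) ((ite_summ (L := X.L) (g_nonneg s v) (hs_summ hs0 hv) n).sum_le_tsum S
          fun k _ => ite_nn (g_nonneg s v) n k)
        refine Finset.sum_congr rfl fun k hk => ?_
        rw [if_pos (X.lv n k ((X.fin n).mem_toFinset.1 hk)).1]

/-- The weighted coefficients. -/
noncomputable def Fm.ys (s : ℝ) (v : V → V) (n : ℕ) : ℝ := ((R : ℝ) ^ n) ^ s * |X.cs v n|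

theorem Fm.ys_nonneg (s : ℝ) (v : V → V) (n : ℕ) : 0 ≤ X.ys s v n := by
  unfold Fm.ys; positivity

theorem Fm.ys_sq (w : Wd R ℓ) (s : ℝ) (v : V → V) (n : ℕ) :
    X.ys s v n ^ 2 = ((R : ℝ) ^ n) ^ (2 * s) * X.cs v n ^ 2 := by
  have hR0 := R_pos w.hR n
  unfold Fm.ys
  rw [mul_pow, sq_abs, ← Real.rpow_natCast (((R : ℝ) ^ n) ^ s) 2, ← Real.rpow_mul hR0.le, mul_comm s]
  norm_num

theorem Fm.ys_sum (w : Wd R ℓ) {s : ℝ} (hs0 : 0 ≤ s) {v : V → V} (hv : SPV v)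
    (N : ℕ) : ∑ n ∈ Finset.range N, X.ys s v n ^ 2 ≤ X.c ^ 2 * hs s v ^ 2 := by
  have h1 : ∀ n, X.ys s v n ^ 2 ≤ X.c ^ 2 * X.hn s v n := fun n => by
    rw [X.ys_sq w]
    exact X.cs_sq w hs0 hv n
  refine (Finset.sum_le_sum fun n _ => h1 n).trans ?_
  rw [← Finset.mul_sum]
  exact mul_le_mul_of_nonneg_left (sum_le_hasSum _ (fun n _ => X.hn_nonneg s v n) (X.hn_sum hs0 hv)) (sq_nonneg _)

theorem Fm.ys_le (w : Wd R ℓ) {s : ℝ} (hs0 : 0 ≤ s) {v : V → V} (hv : SPV v)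
    (n : ℕ) : X.ys s v n ≤ X.c * hs s v := by
  have h1 := X.ys_sum w hs0 hv (n + 1)
  have h2 : X.ys s v n ^ 2 ≤ ∑ m ∈ Finset.range (n + 1), X.ys s v m ^ 2 :=
    Finset.single_le_sum (f := fun m => X.ys s v m ^ 2) (fun _ _ => sq_nonneg _)
      (Finset.mem_range.2 (Nat.lt_succ_self n))
  have h3 : 0 ≤ X.c * hs s v := mul_nonneg (X.c0 w) (hs_nonneg s v)
  refine (sq_le_sq₀ (X.ys_nonneg _ _ _) h3).1 (h2.trans (h1.trans (le_of_eq ?_)))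
  ring

/-- The Sobolev bound of a term. -/
theorem Tr.bound (t : Tr R ℓ) (w : Wd R ℓ) {C σ : ℝ} (hC : 0 ≤ C) (hκ : ∀ n, |t.κ n| ≤ C * ((R : ℝ) ^ n) ^ σ)
    {s1 s2 s3 : ℝ} (h1 : 0 ≤ s1) (h2 : 0 ≤ s2) (h3 : 0 ≤ s3) (hσ : σ ≤ s1 + s2 + s3) {u v z : V → V}
    (hu : SPV u) (hv : SPV v) (hz : SPV z) :
    |ip (t.E u v) z| ≤ C * (t.X.c * t.Y.c * t.Z.c) * (hs s1 u * hs s2 v * hs s3 z) := by
  have hA := mul_nonneg (t.X.c0 w) (hs_nonneg s1 u)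
  have hB := mul_nonneg (t.Y.c0 w) (hs_nonneg s2 v)
  have hCz := mul_nonneg (t.Z.c0 w) (hs_nonneg s3 z)
  have hterm : ∀ n, |t.κ n * t.X.cs u n * t.Y.cs v n * t.Z.cs z n|
      ≤ (C * (t.X.c * hs s1 u)) * (t.Y.ys s2 v n * t.Z.ys s3 z n) := by
    intro n
    have r1 := one_le_R w.hR n
    have r0 := R_pos w.hR n
    have e1 : ((R : ℝ) ^ n) ^ σ ≤ ((R : ℝ) ^ n) ^ s1 * (((R : ℝ) ^ n) ^ s2 * ((R : ℝ) ^ n) ^ s3) := by
      rw [← Real.rpow_add r0, ← Real.rpow_add r0]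
      exact Real.rpow_le_rpow_of_exponent_le r1 (by linarith)
    have y1 := t.X.ys_le w h1 hu n
    rw [abs_mul, abs_mul, abs_mul]
    calc |t.κ n| * |t.X.cs u n| * |t.Y.cs v n| * |t.Z.cs z n|
        ≤ (C * (((R : ℝ) ^ n) ^ s1 * (((R : ℝ) ^ n) ^ s2 * ((R : ℝ) ^ n) ^ s3))) * |t.X.cs u n| * |t.Y.cs v n|
          * |t.Z.cs z n| := by
          have := (hκ n).trans (mul_le_mul_of_nonneg_left e1 hC)
          gcongr
      _ = (C * t.X.ys s1 u n) * (t.Y.ys s2 v n * t.Z.ys s3 z n) := by unfold Fm.ys; ring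
      _ ≤ _ := by
          have := t.Y.ys_nonneg s2 v n
          have := t.Z.ys_nonneg s3 z n
          gcongr
  have hsum : ∀ N, |∑ n ∈ Finset.range N, t.κ n * t.X.cs u n * t.Y.cs v n * t.Z.cs z n|
      ≤ C * (t.X.c * t.Y.c * t.Z.c) * (hs s1 u * hs s2 v * hs s3 z) := by
    intro N
    have cv0 : √(∑ n ∈ Finset.range N, t.Y.ys s2 v n ^ 2) ≤ t.Y.c * hs s2 v :=
      Real.sqrt_le_iff.2 ⟨hB, (t.Y.ys_sum w h2 hv N).trans (le_of_eq (by ring))⟩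
    have cw0 : √(∑ n ∈ Finset.range N, t.Z.ys s3 z n ^ 2) ≤ t.Z.c * hs s3 z :=
      Real.sqrt_le_iff.2 ⟨hCz, (t.Z.ys_sum w h3 hz N).trans (le_of_eq (by ring))⟩
    have k1 : ∑ n ∈ Finset.range N, t.Y.ys s2 v n * t.Z.ys s3 z n ≤ (t.Y.c * hs s2 v) * (t.Z.c * hs s3 z) :=
      (Real.sum_mul_le_sqrt_mul_sqrt _ _ _).trans (mul_le_mul cv0 cw0 (Real.sqrt_nonneg _) hB)
    calc _ ≤ ∑ n ∈ Finset.range N, |t.κ n * t.X.cs u n * t.Y.cs v n * t.Z.cs z n| :=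
          Finset.abs_sum_le_sum_abs _ _
      _ ≤ ∑ n ∈ Finset.range N, (C * (t.X.c * hs s1 u)) * (t.Y.ys s2 v n * t.Z.ys s3 z n) :=
          Finset.sum_le_sum fun n _ => hterm n
      _ = (C * (t.X.c * hs s1 u)) * ∑ n ∈ Finset.range N, t.Y.ys s2 v n * t.Z.ys s3 z n := by
          rw [← Finset.mul_sum]
      _ ≤ (C * (t.X.c * hs s1 u)) * ((t.Y.c * hs s2 v) * (t.Z.c * hs s3 z)) := by gcongr
      _ = _ := by ring
  exact le_of_tendsto (t.ip_E w hu hv hz).tendsto_sum_nat.abs (Eventually.of_forall hsum)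

variable {ι : Type} [Fintype ι] (T : ι → Tr R ℓ)

/-- The Sobolev bound of the operator. -/
theorem KQ_bound (w : Wd R ℓ) {C σ : ℝ} (hC : 0 ≤ C) (hκ : ∀ t n, |(T t).κ n| ≤ C * ((R : ℝ) ^ n) ^ σ) :
    ∃ D : ℝ, 0 ≤ D ∧ ∀ s1 s2 s3 : ℝ, 0 ≤ s1 → 0 ≤ s2 → 0 ≤ s3 → σ ≤ s1 + s2 + s3 → ∀ u v z : V → V,
      SPV u → SPV v → SPV z → |ip (KQ T u v) z| ≤ D * (hs s1 u * hs s2 v * hs s3 z) := by
  refine ⟨∑ t, C * ((T t).X.c * (T t).Y.c * (T t).Z.c), Finset.sum_nonneg fun t _ => ?_, ?_⟩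
  · have := (T t).X.c0 w
    have := (T t).Y.c0 w
    have := (T t).Z.c0 w
    positivity
  · intro s1 s2 s3 h1 h2 h3 hσ u v z hu hv hz
    have e : ip (KQ T u v) z = ∑ t, ip ((T t).E u v) z := ip_sum (fun t _ => (T t).SPV_E w hu hv) hz.cont
    rw [e, Finset.sum_mul]
    exact (Finset.abs_sum_le_sum_abs _ _).trans (Finset.sum_le_sum fun t _ =>
      (T t).bound w hC (hκ t) h1 h2 h3 hσ hu hv hz)

/-! ### the term in the equation of the difference -/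

theorem Fm.bessel (w : Wd R ℓ) {v : V → V} (hv : SPV v) (N : ℕ) :
    ∑ n ∈ Finset.range N, X.cs v n ^ 2 ≤ X.c ^ 2 * energy v := by
  have h1 := X.ys_sum w le_rfl hv N
  rw [CB.hs_zero_sq hv] at h1
  refine le_trans (le_of_eq (Finset.sum_congr rfl fun n _ => ?_)) h1
  rw [X.ys_sq w, mul_zero, Real.rpow_zero, one_mul]

theorem Tr.w_bound (t : Tr R ℓ) (w : Wd R ℓ) {z u : V → V} (hz : SPV z) (hu : SPV u) {C : ℝ} (hC : 0 ≤ C)
    (h : ∀ n, |t.κ n * t.Y.cs u n| ≤ C) : |ip (t.E z u) z| ≤ C * (t.X.c * t.Z.c) * energy z := by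
  have hE := CB.energy_nonneg z
  have hX := t.X.c0 w
  have hZ := t.Z.c0 w
  have hsum : ∀ N, |∑ n ∈ Finset.range N, t.κ n * t.X.cs z n * t.Y.cs u n * t.Z.cs z n|
      ≤ C * (t.X.c * t.Z.c) * energy z := by
    intro N
    have cv0 : √(∑ n ∈ Finset.range N, |t.X.cs z n| ^ 2) ≤ t.X.c * √(energy z) := by
      refine Real.sqrt_le_iff.2 ⟨by positivity, ?_⟩
      rw [mul_pow, Real.sq_sqrt hE]
      simpa using t.X.bessel w hz N
    have cw0 : √(∑ n ∈ Finset.range N, |t.Z.cs z n| ^ 2) ≤ t.Z.c * √(energy z) := by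
      refine Real.sqrt_le_iff.2 ⟨by positivity, ?_⟩
      rw [mul_pow, Real.sq_sqrt hE]
      simpa using t.Z.bessel w hz N
    calc _ ≤ ∑ n ∈ Finset.range N, |t.κ n * t.X.cs z n * t.Y.cs u n * t.Z.cs z n| :=
          Finset.abs_sum_le_sum_abs _ _
      _ ≤ ∑ n ∈ Finset.range N, C * (|t.X.cs z n| * |t.Z.cs z n|) := by
          refine Finset.sum_le_sum fun n _ => ?_
          have h1 := h n
          have e1 : |t.κ n * t.X.cs z n * t.Y.cs u n * t.Z.cs z n|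
              = |t.κ n * t.Y.cs u n| * (|t.X.cs z n| * |t.Z.cs z n|) := by
            rw [abs_mul, abs_mul, abs_mul, abs_mul]; ring
          rw [e1]
          gcongr
      _ = C * ∑ n ∈ Finset.range N, |t.X.cs z n| * |t.Z.cs z n| := by rw [Finset.mul_sum]
      _ ≤ C * ((t.X.c * √(energy z)) * (t.Z.c * √(energy z))) := by
          refine mul_le_mul_of_nonneg_left ?_ hC
          exact (Real.sum_mul_le_sqrt_mul_sqrt _ _ _).trans
            (mul_le_mul cv0 cw0 (Real.sqrt_nonneg _) (by positivity))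
      _ = C * (t.X.c * t.Z.c) * (√(energy z) * √(energy z)) := by ring
      _ = _ := by rw [Real.mul_self_sqrt hE]
  exact le_of_tendsto (t.ip_E w hz hu hz).tendsto_sum_nat.abs (Eventually.of_forall hsum)

/-- The decay of the coefficients of a field with bounded fourth derivatives. -/
theorem Fm.cs_decay (w : Wd R ℓ) {v : V → V} (hv : SPV v) {m : ℕ} {D : ℝ}
    (hD : ∀ k i, |(k 0 : ℝ)| ^ m * ‖fco v k i‖ ≤ D) (n : ℕ) :
    |X.cs v n| * ((R : ℝ) ^ n) ^ m ≤ 3 * 2 ^ m * X.c * D * ℓ n := by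
  have hc := X.c0 w
  have hln := w.pos n
  have hs : Summable fun k => 3 * (‖fco v k‖ * ‖X.ψ n k‖) :=
    X.summ n (fun k v' => 3 * (‖fco v k‖ * ‖v'‖)) (by simp)
  have hD0 : 0 ≤ D := (by positivity : (0 : ℝ) ≤ |((0 : K) 0 : ℝ)| ^ m * ‖fco v 0 0‖).trans (hD 0 0)
  rw [X.cs_eq hv.cont]
  calc |X.co (fco v) n| * ((R : ℝ) ^ n) ^ m ≤ (∑' k, 3 * (‖fco v k‖ * ‖X.ψ n k‖)) * ((R : ℝ) ^ n) ^ m := by
        gcongr; exact X.co_abs _ n
    _ = ∑' k, 3 * (‖fco v k‖ * ‖X.ψ n k‖) * ((R : ℝ) ^ n) ^ m := by rw [tsum_mul_right]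
    _ ≤ ∑' k, 3 * 2 ^ m * D * ‖X.ψ n k‖ := by
        refine (hs.mul_right _).tsum_le_tsum (fun k => ?_) ((X.sn n).mul_left _)
        by_cases hk : X.ψ n k = 0
        · rw [hk]; simp
        · obtain ⟨l1, l2, l3⟩ := X.lv n k hk
          have h4 : ((R : ℝ) ^ n) ^ m ≤ 2 ^ m * |(k 0 : ℝ)| ^ m := by
            rw [← mul_pow]; gcongr
          have h5 : |(k 0 : ℝ)| ^ m * ‖fco v k‖ ≤ D := by
            obtain ⟨i, hi⟩ : ∃ i, ‖fco v k‖ = ‖fco v k i‖ := by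
              have h6 := Finite.exists_max fun i => ‖fco v k i‖
              obtain ⟨i, hi⟩ := h6
              exact ⟨i, le_antisymm ((pi_norm_le_iff_of_nonneg (norm_nonneg _)).2 hi) (norm_le_pi_norm _ i)⟩
            rw [hi]; exact hD k i
          calc 3 * (‖fco v k‖ * ‖X.ψ n k‖) * ((R : ℝ) ^ n) ^ m
              ≤ 3 * (‖fco v k‖ * ‖X.ψ n k‖) * (2 ^ m * |(k 0 : ℝ)| ^ m) := by gcongr
            _ = 3 * 2 ^ m * (|(k 0 : ℝ)| ^ m * ‖fco v k‖) * ‖X.ψ n k‖ := by ring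
            _ ≤ 3 * 2 ^ m * D * ‖X.ψ n k‖ := by gcongr
    _ = 3 * 2 ^ m * D * ∑' k, ‖X.ψ n k‖ := by rw [tsum_mul_left]
    _ ≤ 3 * 2 ^ m * D * (X.c * ℓ n) := by
        have := X.l1 n
        gcongr
    _ = _ := by ring

end Pool.Agent.N980.WP
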