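import Pool.Agent.N980.WP.Lb

/-!
The data.
-/

open MeasureTheory Set Filter Topology
open scoped ContDiff

set_option linter.unusedVariables false

namespace Pool.Agent.N980.WP

open Pool.Agent.N980.NU
open Pool.Agent.N980.CB (gG Par zz qq qq_pos Rap ev_pow)

variable {R : ℕ} {σ κ G ν : ℝ}

/-- Closeness of the coefficients. -/
theorem PC.close (h : PC R σ κ) (hk : κ ≤ 1 / 2) {v w : V → V} (hv : Continuous v) (hw : Continuous w) {r : ℝ}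
    (hr : ∀ x i, |v x i - w x i| ≤ r) (m : ℕ) :
    |ip v (pF (R ^ m) (Lw R κ m)) - ip w (pF (R ^ m) (Lw R κ m))| ≤ 6 * r / ((R : ℝ) ^ κ) ^ m := by
  have hr0 : 0 ≤ r := (abs_nonneg _).trans (hr 0 0)
  have e1 : ∀ z : V → V, ip z (pF (R ^ m) (Lw R κ m)) = ∫ x in cube, z x 2 * pf (R ^ m) (Lw R κ m) x := by
    intro z
    unfold ip
    congr 1
    funext x
    rw [Fin.sum_univ_three]
    show z x 0 * 0 + z x 1 * 0 + z x 2 * pf (R ^ m) (Lw R κ m) x = _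
    ring
  have hpc := pf_cont (R ^ m) (Lw R κ m)
  have i1 : ∀ {z : V → V}, Continuous z → IntegrableOn (fun x => z x 2 * pf (R ^ m) (Lw R κ m) x) cube := fun hz =>
    int_on_cube (((continuous_apply 2).comp hz).mul hpc)
  rw [e1, e1, ← integral_sub (i1 hv) (i1 hw)]
  have h1 : ‖∫ x in cube, (v x 2 * pf (R ^ m) (Lw R κ m) x - w x 2 * pf (R ^ m) (Lw R κ m) x)‖
      ≤ ∫ x in cube, r * |pf (R ^ m) (Lw R κ m) x| := by
    have hb : IntegrableOn (fun x => r * |pf (R ^ m) (Lw R κ m) x|) cube := int_on_cube (hpc.abs.const_mul _)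
    refine norm_integral_le_of_norm_le hb (Eventually.of_forall fun x => ?_)
    rw [← sub_mul, norm_mul, Real.norm_eq_abs, Real.norm_eq_abs]
    have := hr x 2
    gcongr
  rw [integral_const_mul] at h1
  have h2 := pf_l1 (R ^ m) (Lw R κ m)
  have h3 := h.wd_ge m
  have hR0 := h.R0
  have hW0 : 0 < ((R : ℝ) ^ (1 - κ)) ^ m := by positivity
  have h4 : 3 / ((Lw R κ m : ℝ) + 1) ≤ 6 / ((R : ℝ) ^ (1 - κ)) ^ m := by
    have h5 : ((R : ℝ) ^ (1 - κ)) ^ m / 2 ≤ (Lw R κ m : ℝ) + 1 := h3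
    rw [div_le_div_iff₀ (by positivity) hW0]
    linarith
  have h6 : 6 / ((R : ℝ) ^ (1 - κ)) ^ m ≤ 6 / ((R : ℝ) ^ κ) ^ m := by
    have h7 : (R : ℝ) ^ κ ≤ (R : ℝ) ^ (1 - κ) := Real.rpow_le_rpow_of_exponent_le h.R1.le (by linarith)
    have h8 : ((R : ℝ) ^ κ) ^ m ≤ ((R : ℝ) ^ (1 - κ)) ^ m := pow_le_pow_left₀ (by positivity) h7 m
    have h9 : 0 < ((R : ℝ) ^ κ) ^ m := by positivity
    gcongr
  calc _ ≤ r * ∫ x in cube, |pf (R ^ m) (Lw R κ m) x| := h1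
    _ ≤ r * (6 / ((R : ℝ) ^ κ) ^ m) := by
      refine mul_le_mul_of_nonneg_left (h2.trans (h4.trans h6)) hr0
    _ = _ := by ring

/-- The conditions on the first scale. -/
structure Good (R P Q Λ z G ℓ β b a T : ℝ) (y : ℕ → ℝ) (n : ℕ) : Prop where
  c1 : ∀ m, n ≤ m → |y m| ≤ z ^ 16 * qq * a / 40
  c2 : ∀ m, n ≤ m → |y m| * Q ^ m ≤ 1 / 2
  c3 : ∀ m, m < n → |y m| ≤ 10000 ^ (n - m) * a / 4
  c4 : 1000 * ℓ * (R ^ (n + 2)) ^ 2 ≤ gG G Λ n * (a / 2)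
  c5 : β * P ^ (n + 3) ≤ z ^ 40 * (gG G Λ n * (a / 2) ^ 2)
  c6 : b / Q ^ (n + 3) ≤ z ^ 40 * (a / 2)
  c7 : ∀ k ≥ n, 64 * gG G Λ k * b ≤ ℓ * ((R ^ k) ^ 2 * Q ^ k)
  c8 : 10 / (gG G Λ n * (a / 2)) < T

theorem good_ev (h : PC R σ κ) {ℓ β b a T : ℝ} (hG : 0 < G) (hℓ : 0 < ℓ) (hb : 0 < b) (ha : 0 < a) (hT : 0 < T)
    {y : ℕ → ℝ} (hy : Rap R y) :
    ∀ᶠ n in atTop, Good R ((R : ℝ) ^ (2 - κ)) ((R : ℝ) ^ κ) ((R : ℝ) ^ σ) (zz ((R : ℝ) ^ σ)) G ℓ β b a T y n := by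
  set Λ := (R : ℝ) ^ σ with hΛd
  set P := (R : ℝ) ^ (2 - κ) with hPd
  set Q := (R : ℝ) ^ κ with hQd
  set z := zz Λ with hzd
  have hpar : Par Λ z := h.par
  have hz := hpar.hz
  have hΛ0 := hpar.hΛ0
  have hqq := qq_pos
  have hR0 := h.R0
  have hR1 := h.R1
  have hQ5 : 10 ^ 5 ≤ Q := h.RQ
  have hQ1 : 1 < Q := by linarith [show (1 : ℝ) < 10 ^ 5 by norm_num]
  have hQ0 : 0 < Q := by linarith
  have hQR : Q ≤ R := by
    have := Real.rpow_le_rpow_of_exponent_le hR1.le h.k1.le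
    rwa [Real.rpow_one] at this
  have hP0 : 0 < P := by positivity
  have hPR : P ≤ (R : ℝ) ^ 2 := by
    rw [← Real.rpow_natCast (R : ℝ) 2]
    exact Real.rpow_le_rpow_of_exponent_le hR1.le (by push_cast; linarith [h.k0])
  have hRΛ : 10 ^ 4 * (R : ℝ) ^ 2 ≤ Λ := h.RΛ
  obtain ⟨C, hC⟩ := hy 2
  have hC0 : 0 ≤ C := le_trans (by positivity) (hC 0)
  -- elementary form of the conditions
  have f1 := ev_pow (c := z ^ 16 * qq * a / 40) hR1 (by positivity) C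
  have f2 := ev_pow (c := 1 / 2) hR1 (by norm_num) C
  have f3 := ev_pow (ρ := 10000) (c := a / 4) (by norm_num) (by positivity) C
  have f4 := ev_pow (ρ := 10 ^ 4) (c := G * (a / 2)) (by norm_num) (by positivity) (1000 * ℓ * (R : ℝ) ^ 4)
  have f5 := ev_pow (ρ := 10 ^ 4) (c := z ^ 40 * (G * (a / 2) ^ 2)) (by norm_num) (by positivity) (|β| * P ^ 3)
  have f6 := ev_pow (c := z ^ 40 * (a / 2)) hQ1 (by positivity) b
  have hr3 : 1 < (R : ℝ) ^ 2 * Q / Λ := by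
    rw [one_lt_div hΛ0, hΛd, hQd, ← Real.rpow_natCast (R : ℝ) 2, ← Real.rpow_add hR0]
    exact Real.rpow_lt_rpow_of_exponent_lt hR1 (by push_cast; exact h.sk)
  have f7 := ev_pow hr3 hℓ (64 * G * b)
  have f8 := ev_pow (ρ := Λ) (c := G * (a / 2)) (by have := h.hΛ; linarith [show (1 : ℝ) < 10 ^ 14 by norm_num]) (by positivity) (10 / T + 1)
  obtain ⟨n1, hn1⟩ := f1.exists_forall_of_atTop
  obtain ⟨n2, hn2⟩ := f2.exists_forall_of_atTop
  obtain ⟨n7, hn7⟩ := f7.exists_forall_of_atTop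
  filter_upwards [f3, f4, f5, f6, f8, eventually_ge_atTop n1, eventually_ge_atTop n2, eventually_ge_atTop n7] with
    n g3 g4 g5 g6 g8 k1 k2 k7
  have hpR : ∀ m : ℕ, (0 : ℝ) < (R : ℝ) ^ m := fun m => pow_pos hR0 m
  have hpR1 : ∀ m : ℕ, (1 : ℝ) ≤ (R : ℝ) ^ m := fun m => one_le_pow₀ hR1.le
  refine ⟨?_, ?_, ?_, ?_, ?_, ?_, ?_, ?_⟩
  · intro m hm
    have h1 := hC m
    have h2 := hn1 m (k1.trans hm)
    have h3 : |y m| * (R : ℝ) ^ m ≤ z ^ 16 * qq * a / 40 * (R : ℝ) ^ m := by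
      refine le_trans ?_ h2
      refine le_trans ?_ h1
      have : (R : ℝ) ^ m ≤ ((R : ℝ) ^ m) ^ 2 := by nlinarith [hpR1 m]
      gcongr
    exact le_of_mul_le_mul_right h3 (hpR m)
  · intro m hm
    have h1 := hC m
    have h2 := hn2 m (k2.trans hm)
    have hQm : Q ^ m ≤ (R : ℝ) ^ m := pow_le_pow_left₀ hQ0.le hQR m
    have h3 : (|y m| * Q ^ m) * (R : ℝ) ^ m ≤ 1 / 2 * (R : ℝ) ^ m := by
      calc (|y m| * Q ^ m) * (R : ℝ) ^ m ≤ (|y m| * (R : ℝ) ^ m) * (R : ℝ) ^ m := by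
            have := hpR m
            gcongr
        _ = |y m| * ((R : ℝ) ^ m) ^ 2 := by ring
        _ ≤ C := h1
        _ ≤ _ := h2
    exact le_of_mul_le_mul_right h3 (hpR m)
  · intro m hm
    have h1 := hC m
    have h2 : (10000 : ℝ) ^ m ≤ ((R : ℝ) ^ m) ^ 2 := by
      have e1 : (10000 : ℝ) ≤ R := by linarith [show (10000 : ℝ) ≤ 10 ^ 5 by norm_num]
      have e2 : (10000 : ℝ) ^ m ≤ (R : ℝ) ^ m := by gcongr
      nlinarith [hpR1 m]
    have h3 : |y m| * 10000 ^ m ≤ (10000 ^ (n - m) * a / 4) * 10000 ^ m := by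
      calc |y m| * 10000 ^ m ≤ |y m| * ((R : ℝ) ^ m) ^ 2 := by gcongr
        _ ≤ C := h1
        _ ≤ a / 4 * 10000 ^ n := g3
        _ = (10000 ^ (n - m) * a / 4) * 10000 ^ m := by
          have : (10000 : ℝ) ^ n = 10000 ^ (n - m) * 10000 ^ m := by
            rw [← pow_add, Nat.sub_add_cancel hm.le]
          rw [this]; ring
    exact le_of_mul_le_mul_right h3 (by positivity)
  · have h1 : (10 ^ 4 : ℝ) ^ n * ((R : ℝ) ^ n) ^ 2 ≤ Λ ^ n := by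
      calc (10 ^ 4 : ℝ) ^ n * ((R : ℝ) ^ n) ^ 2 = (10 ^ 4 * (R : ℝ) ^ 2) ^ n := by
            rw [mul_pow, ← pow_mul, ← pow_mul (R : ℝ) n 2, mul_comm n 2, pow_mul (R : ℝ) 2 n, pow_mul]
        _ ≤ Λ ^ n := by gcongr
    unfold gG
    calc 1000 * ℓ * ((R : ℝ) ^ (n + 2)) ^ 2 = (1000 * ℓ * (R : ℝ) ^ 4) * ((R : ℝ) ^ n) ^ 2 := by
          rw [pow_add, mul_pow]; ring
      _ ≤ (G * (a / 2) * (10 ^ 4) ^ n) * ((R : ℝ) ^ n) ^ 2 := by gcongr
      _ = G * (a / 2) * ((10 ^ 4) ^ n * ((R : ℝ) ^ n) ^ 2) := by ring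
      _ ≤ G * (a / 2) * Λ ^ n := by gcongr
      _ = G * Λ ^ n * (a / 2) := by ring
  · have h1 : (10 ^ 4 : ℝ) ^ n * P ^ n ≤ Λ ^ n := by
      calc (10 ^ 4 : ℝ) ^ n * P ^ n = (10 ^ 4 * P) ^ n := by rw [mul_pow]
        _ ≤ Λ ^ n := by
          have : 10 ^ 4 * P ≤ Λ := le_trans (by gcongr) hRΛ
          gcongr
    unfold gG
    calc β * P ^ (n + 3) ≤ |β| * P ^ (n + 3) := by
          have := le_abs_self β
          gcongr
      _ = (|β| * P ^ 3) * P ^ n := by rw [pow_add]; ring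
      _ ≤ (z ^ 40 * (G * (a / 2) ^ 2) * (10 ^ 4) ^ n) * P ^ n := by gcongr
      _ = z ^ 40 * (G * (a / 2) ^ 2) * ((10 ^ 4) ^ n * P ^ n) := by ring
      _ ≤ z ^ 40 * (G * (a / 2) ^ 2) * Λ ^ n := by gcongr
      _ = z ^ 40 * (G * Λ ^ n * (a / 2) ^ 2) := by ring
  · rw [div_le_iff₀ (pow_pos hQ0 _)]
    refine g6.trans ?_
    have : Q ^ n ≤ Q ^ (n + 3) := pow_le_pow_right₀ hQ1.le (by omega)
    gcongr
  · intro k hk
    have h1 := hn7 k (k7.trans hk)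
    unfold gG
    have h2 : (64 * G * b) * Λ ^ k ≤ (ℓ * ((R : ℝ) ^ 2 * Q / Λ) ^ k) * Λ ^ k := by gcongr
    calc 64 * (G * Λ ^ k) * b = (64 * G * b) * Λ ^ k := by ring
      _ ≤ (ℓ * ((R : ℝ) ^ 2 * Q / Λ) ^ k) * Λ ^ k := h2
      _ = ℓ * (((R : ℝ) ^ k) ^ 2 * Q ^ k) := by
        rw [mul_assoc, ← mul_pow, div_mul_cancel₀ _ hΛ0.ne', mul_pow, ← pow_mul, ← pow_mul, mul_comm 2 k]
  · have h0 : 0 < gG G Λ n * (a / 2) := by unfold gG; positivity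
    rw [div_lt_iff₀ h0]
    have h1 : 10 / T + 1 ≤ gG G Λ n * (a / 2) := by
      refine g8.trans (le_of_eq ?_)
      unfold gG; ring
    calc (10 : ℝ) = T * (10 / T) := by field_simp
      _ < T * (10 / T + 1) := by nlinarith
      _ ≤ T * (gG G Λ n * (a / 2)) := by gcongr

/-- The state of the data. -/
theorem Good.st {R P Q Λ z ℓ β b a T r : ℝ} {n : ℕ} {y x0 : ℕ → ℝ} (hpar : Par Λ z) (hQ5 : (10 : ℝ) ^ 5 ≤ Q)
    (h : Good R P Q Λ z G ℓ β b a T y n) (hG : 0 < G) (ha : 0 < a) (hb : 1 ≤ b) (hr : 0 < r) (hr1 : r ≤ 1 / 2)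
    (hr2 : r ≤ z ^ 16 * qq * a / 40)
    (hn0 : |x0 n - a| ≤ r) (hn1 : |x0 (n + 1) - qq * a| ≤ r)
    (hm : ∀ m, m ≠ n → m ≠ n + 1 → |x0 m - y m| ≤ r / Q ^ m) :
    a / 2 ≤ x0 n ∧ (∀ x : ℕ → ℝ → ℝ, (∀ m, x m 0 = x0 m) → St Q z b x n 0 (x0 n)) ∧
      Cond R P Q Λ z G ℓ β b n (x0 n) ∧ 10 / (gG G Λ n * x0 n) < T := by
  have hqq := qq_pos
  have hqv : qq = 1 / 5000 := rfl
  have hz := hpar.hz
  have hz1 := hpar.z1
  have hΛ0 := hpar.hΛ0
  have hQ0 : (0 : ℝ) < Q := by linarith [show (0 : ℝ) < 10 ^ 5 by norm_num]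
  have hQ1 : (1 : ℝ) < Q := by linarith [show (1 : ℝ) < 10 ^ 5 by norm_num]
  have hpR : ∀ m : ℕ, (0 : ℝ) < Q ^ m := fun m => pow_pos hQ0 m
  have hpR1 : ∀ m : ℕ, (1 : ℝ) ≤ Q ^ m := fun m => one_le_pow₀ hQ1.le
  have hz16 : 0 < z ^ 16 := pow_pos hz 16
  have hz16' : z ^ 16 ≤ 1 := pow_le_one₀ hz.le hz1
  have hra : r ≤ qq * a / 40 := by
    refine hr2.trans ?_
    have : z ^ 16 * qq * a ≤ 1 * qq * a := by gcongr
    linarith
  have hra' : r ≤ a / 1000 := by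
    rw [hqv] at hra; linarith
  have hrm : ∀ m : ℕ, r / Q ^ m ≤ r := fun m => div_le_self hr.le (hpR1 m)
  obtain ⟨a1, a2⟩ := abs_le.1 hn0
  obtain ⟨b1, b2⟩ := abs_le.1 hn1
  set A := x0 n with hA
  have hA1 : a / 2 ≤ A := by linarith
  have hA0 : 0 < A := by linarith
  have hA2 : A ≤ a + r := by linarith
  have hA3 : a - r ≤ A := by linarith
  have hg0 : 0 < gG G Λ n := by unfold gG; positivity
  refine ⟨hA1, fun x hx => ⟨hA0, le_rfl, hx n, ?_, ?_, ?_, ?_, ?_, ?_⟩, ⟨?_, ?_, ?_, h.c7⟩, ?_⟩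
  · rw [hx]
    rw [hqv] at hra b1 ⊢
    linarith
  · rw [hx]
    rw [hqv] at hra b2 ⊢
    linarith
  · rw [hx]
    have h1 := hm (n + 2) (by omega) (by omega)
    have h2 := h.c1 (n + 2) (by omega)
    have h3 := hrm (n + 2)
    obtain ⟨d1, d2⟩ := abs_le.1 h1
    obtain ⟨e1, e2⟩ := abs_le.1 h2
    have h4 : z ^ 16 * qq * a / 20 ≤ z ^ 16 * qq / 10 * A := by
      calc z ^ 16 * qq * a / 20 = z ^ 16 * qq / 10 * (a / 2) := by ring
        _ ≤ _ := by gcongr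
    linarith
  · rw [hx]
    have h1 := hm (n + 2) (by omega) (by omega)
    have h2 := h.c1 (n + 2) (by omega)
    have h3 := hrm (n + 2)
    obtain ⟨d1, d2⟩ := abs_le.1 h1
    obtain ⟨e1, e2⟩ := abs_le.1 h2
    have h4 : z ^ 16 * qq * a / 20 ≤ z ^ 10 * A := by
      have h5 : z ^ 16 ≤ z ^ 10 := hpar.zpow_le (by norm_num)
      have h6 : z ^ 16 * qq / 10 ≤ z ^ 10 := by
        rw [hqv]; linarith
      calc z ^ 16 * qq * a / 20 = z ^ 16 * qq / 10 * (a / 2) := by ring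
        _ ≤ z ^ 10 * A := by
          apply mul_le_mul h6 hA1 (by positivity) (by positivity)
    linarith
  · intro j
    rw [hx]
    set m := n + 3 + j with hmd
    have h1 := hm m (by omega) (by omega)
    have h2 := h.c2 m (by omega)
    have h3 : |y m| ≤ 1 / 2 / Q ^ m := by
      rw [le_div_iff₀ (hpR m)]; exact h2
    have h4 : |x0 m| ≤ |y m| + |x0 m - y m| := by
      have := abs_add_le (y m) (x0 m - y m)
      simpa using this
    have h5 : |x0 m| ≤ 1 / Q ^ m := by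
      calc |x0 m| ≤ |y m| + |x0 m - y m| := h4
        _ ≤ 1 / 2 / Q ^ m + r / Q ^ m := add_le_add h3 h1
        _ = (1 / 2 + r) / Q ^ m := by ring
        _ ≤ 1 / Q ^ m := by
          have : 1 / 2 + r ≤ 1 := by linarith
          have := hpR m
          gcongr
    have h6 : 1 / Q ^ m ≤ b / Q ^ m := by
      have := hpR m
      gcongr
    have h7 : (0 : ℝ) ≤ (1 / 2) ^ (j + 1) := by positivity
    have h8 : 0 ≤ b / Q ^ m := by have := hpR m; positivity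
    have h9 : 0 ≤ z ^ (24 + 14 * j) * A := by positivity
    nlinarith [mul_nonneg h7 h8]
  · intro m hmn
    rw [hx]
    have h1 := hm m (by omega) (by omega)
    have h2 := h.c3 m hmn
    have h3 := hrm m
    have h4 : |x0 m| ≤ |y m| + |x0 m - y m| := by
      have := abs_add_le (y m) (x0 m - y m)
      simpa using this
    have h5 : (1 : ℝ) ≤ 10000 ^ (n - m) := one_le_pow₀ (by norm_num)
    calc |x0 m| ≤ 10000 ^ (n - m) * a / 4 + r := by linarith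
      _ ≤ 10000 ^ (n - m) * a / 4 + 10000 ^ (n - m) * (a / 1000) := by nlinarith
      _ ≤ 10000 ^ (n - m) * (a / 2) := by nlinarith [mul_pos (lt_of_lt_of_le one_pos h5) ha]
      _ ≤ 10000 ^ (n - m) * A := by gcongr
  · exact h.c4.trans (by gcongr)
  · exact h.c5.trans (by gcongr)
  · exact h.c6.trans (by gcongr)
  · refine lt_of_le_of_lt ?_ h.c8
    gcongr

end Pool.Agent.N980.WP
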