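import Pool.Agent.N980.WP.Un

/-!
Decay of the coefficients of smooth solutions, uniformly on compact time intervals.
-/

open MeasureTheory Set Filter Topology
open scoped ContDiff

set_option linter.unusedVariables false

namespace Pool.Agent.N980.WP

open Pool.Agent.N980.NU
open Pool.Agent.N980.CB (Rap one_le_R R_pos energy_nonneg)
open Pool.Agent.H356R3.NS (K C3 SN Sym nk pw)

variable {ν T : ℝ} {Kf : (V → V) → (V → V) → V → V} {u : ℝ → V → V} {p : ℝ → V → ℝ}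
variable {R : ℕ} {ℓ : ℕ → ℝ}

theorem fco_iter {v : V → V} (hv : SPV v) (j : Fin 3) (m : ℕ) {C : ℝ}
    (hC : ∀ x ∈ H459R3.NS.cube, ∀ i, |(H459R3.NS.pd j)^[m] (fun y => v y i) x| ≤ C) (k : K) (i : Fin 3) :
    |(k j : ℝ)| ^ m * ‖fco v k i‖ ≤ C := by
  have h1 := H459R3.NS.fr_iter (hv.sp i) j m k
  have h2 : ‖H459R3.NS.fr ((H459R3.NS.pd j)^[m] fun y => v y i) k‖ ≤ C := by
    unfold H459R3.NS.fr H459R3.NS.fc
    have h3 : ‖∫ x in H459R3.NS.cube, H459R3.NS.ee (-k) x * (((H459R3.NS.pd j)^[m] (fun y => v y i) x : ℝ) : ℂ)‖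
        ≤ C * volume.real H459R3.NS.cube := by
      refine norm_setIntegral_le_of_norm_le_const ?_ fun x hx => ?_
      · rw [H459R3.NS.volume_cube]; exact ENNReal.one_lt_top
      · rw [norm_mul, H459R3.NS.norm_ee, one_mul, Complex.norm_real, Real.norm_eq_abs]
        exact hC x hx i
    have h4 : volume.real H459R3.NS.cube = 1 := by
      rw [Measure.real, H459R3.NS.volume_cube]; simp
    rwa [h4, mul_one] at h3
  rw [h1, norm_mul, norm_pow] at h2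
  rw [fco_fr]
  refine le_trans ?_ h2
  gcongr
  rw [norm_mul, norm_mul, norm_mul, Complex.norm_I, mul_one, Complex.norm_real,
    Real.norm_eq_abs, abs_of_pos Real.pi_pos, Complex.norm_ofNat, Complex.norm_intCast]
  have h0 : 0 ≤ |(k j : ℝ)| := abs_nonneg _
  have := Real.pi_gt_three
  nlinarith

theorem contDiffOn_iter {f : ℝ → V → ℝ} (hf : ContDiffOn ℝ ∞ (fun z : ℝ × V => f z.1 z.2) (Ico 0 T ×ˢ univ))
    (j : Fin 3) (m : ℕ) : ContDiffOn ℝ ∞ (fun z : ℝ × V => (H459R3.NS.pd j)^[m] (f z.1) z.2) (Ico 0 T ×ˢ univ) := by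
  induction m with
  | zero => exact hf
  | succ m ih =>
    have h1 := H459R3.NS.contDiffOn_pd (f := fun s => (H459R3.NS.pd j)^[m] (f s)) ih j
    have e : (fun z : ℝ × V => (H459R3.NS.pd j)^[m + 1] (f z.1) z.2)
        = fun z : ℝ × V => H459R3.NS.pd j ((H459R3.NS.pd j)^[m] (f z.1)) z.2 := by
      funext z
      rw [Function.iterate_succ_apply']
    rw [e]
    exact h1

/-- Decay of the Fourier coefficients, uniformly on compact time intervals. -/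
theorem Sol.fdecay (h : Sol ν Kf T u p) {T1 : ℝ} (hT1 : T1 < T) (m : ℕ) :
    ∃ D, 0 ≤ D ∧ ∀ t ∈ Icc 0 T1, ∀ (k : K) i, |(k 0 : ℝ)| ^ m * ‖fco (u t) k i‖ ≤ D := by
  have hK : IsCompact (Icc 0 T1 ×ˢ H459R3.NS.cube) := isCompact_Icc.prod isCompact_Icc
  have hsub : Icc 0 T1 ×ˢ H459R3.NS.cube ⊆ Ico 0 T ×ˢ (univ : Set V) :=
    prod_mono (fun s hs => ⟨hs.1, hs.2.trans_lt hT1⟩) (subset_univ _)
  have h1 : ∀ i, ∃ C, ∀ z ∈ Icc 0 T1 ×ˢ H459R3.NS.cube, ‖(H459R3.NS.pd 0)^[m] (fun y => u z.1 y i) z.2‖ ≤ C := by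
    intro i
    have hc := (contDiffOn_iter (f := fun s y => u s y i) (h.sm i) 0 m).continuousOn
    exact hK.exists_bound_of_continuousOn (hc.mono hsub)
  choose C hC using h1
  refine ⟨∑ i, |C i|, Finset.sum_nonneg fun _ _ => abs_nonneg _, fun t ht k i => ?_⟩
  refine fco_iter (h.spv ⟨ht.1, ht.2.trans_lt hT1⟩) 0 m (fun x hx i => ?_) k i
  have h2 := hC i (t, x) ⟨ht, hx⟩
  rw [Real.norm_eq_abs] at h2
  exact (h2.trans (le_abs_self _)).trans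
    (Finset.single_le_sum (f := fun i => |C i|) (fun _ _ => abs_nonneg _) (Finset.mem_univ i))

/-- Decay of the coefficients on the packets. -/
theorem Sol.cs_dec (h : Sol ν Kf T u p) (X : Fm R ℓ) (w : Wd R ℓ) {T1 : ℝ} (hT1 : T1 < T) (m : ℕ) :
    ∃ D, 0 ≤ D ∧ ∀ t ∈ Icc 0 T1, ∀ n, |X.cs (u t) n| * ((R : ℝ) ^ n) ^ m ≤ D := by
  obtain ⟨D, hD0, hD⟩ := h.fdecay hT1 (m + 1)
  have hc := X.c0 w
  refine ⟨3 * 2 ^ (m + 1) * X.c * D, by positivity, fun t ht n => ?_⟩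
  have h1 := X.cs_decay w (h.spv ⟨ht.1, ht.2.trans_lt hT1⟩) (m := m + 1) (hD t ht) n
  have h2 := R_pos w.hR n
  have h3 := w.le n
  have h4 : |X.cs (u t) n| * ((R : ℝ) ^ n) ^ m * (R : ℝ) ^ n ≤ 3 * 2 ^ (m + 1) * X.c * D * (R : ℝ) ^ n := by
    calc |X.cs (u t) n| * ((R : ℝ) ^ n) ^ m * (R : ℝ) ^ n = |X.cs (u t) n| * ((R : ℝ) ^ n) ^ (m + 1) := by
          rw [pow_succ]; ring
      _ ≤ 3 * 2 ^ (m + 1) * X.c * D * ℓ n := h1
      _ ≤ _ := by gcongr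
  exact le_of_mul_le_mul_right h4 h2

variable {ι : Type} [Fintype ι] (Tt : ι → Tr R ℓ)

/-- The bound used for uniqueness. -/
theorem Sol.KQ_wb (h : Sol ν Kf T u p) (w : Wd R ℓ) : ∀ T1 < T, ∃ D, 0 ≤ D ∧ ∀ t ∈ Icc 0 T1, ∀ z, SPV z →
    |ip (KQ Tt z (u t)) z| ≤ D * energy z := by
  intro T1 hT1
  have h1 : ∀ s, ∃ D, 0 ≤ D ∧ ∀ t ∈ Icc 0 T1, ∀ n, |(Tt s).Y.cs (u t) n| * ((R : ℝ) ^ n) ^ 3 ≤ D :=
    fun s => h.cs_dec (Tt s).Y w hT1 3
  choose D hD0 hD using h1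
  refine ⟨∑ s, (Tt s).C * D s * ((Tt s).X.c * (Tt s).Z.c), Finset.sum_nonneg fun s _ => ?_, fun t ht z hz => ?_⟩
  · have := (Tt s).X.c0 w
    have := (Tt s).Z.c0 w
    have := (Tt s).C0
    have := hD0 s
    positivity
  · have hu := h.spv ⟨ht.1, ht.2.trans_lt hT1⟩
    have e : ip (KQ Tt z (u t)) z = ∑ s, ip ((Tt s).E z (u t)) z :=
      ip_sum (fun s _ => (Tt s).SPV_E w hz hu) hz.cont
    rw [e, Finset.sum_mul]
    refine (Finset.abs_sum_le_sum_abs _ _).trans (Finset.sum_le_sum fun s _ => ?_)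
    refine (Tt s).w_bound w hz hu (mul_nonneg (Tt s).C0 (hD0 s)) fun n => ?_
    have h2 := (Tt s).hκ n
    have h3 := hD s t ht n
    have h4 := (Tt s).C0
    rw [abs_mul]
    calc |(Tt s).κ n| * |(Tt s).Y.cs (u t) n| ≤ ((Tt s).C * ((R : ℝ) ^ n) ^ 3) * |(Tt s).Y.cs (u t) n| := by gcongr
      _ = (Tt s).C * (|(Tt s).Y.cs (u t) n| * ((R : ℝ) ^ n) ^ 3) := by ring
      _ ≤ (Tt s).C * D s := by gcongr

/-- The operator has the algebraic properties. -/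
theorem KQ_bil (w : Wd R ℓ) (hs : ∀ u v, SPV u → SPV v → ip (KQ Tt u v) v = 0) : Bil (KQ Tt) where
  spv := fun _ _ hu hv => SPV_KQ Tt w hu hv
  add_left := fun _ _ _ hu hu' hv => KQ_add_left Tt w hu hu' hv
  add_right := fun _ _ _ hu hv hv' => KQ_add_right Tt w hu hv hv'
  smul_left := fun r _ _ hu hv => KQ_smul_left Tt w r hu hv
  smul_right := fun r _ _ hu hv => KQ_smul_right Tt w r hu hv
  skew := hs

end Pool.Agent.N980.WP
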