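import Pool.Agent.N980.WP.Ex5

/-!
The equation of a coefficient of a smooth solution.
-/

open MeasureTheory Set Filter Topology
open scoped ContDiff

set_option linter.unusedVariables false

namespace Pool.Agent.N980.WP

open Pool.Agent.N980.NU
open Pool.Agent.N980.CB (Rap one_le_R R_pos energy_nonneg parseval)
open Pool.Agent.H356R3.NS (K C3 E3 R3 ex SN Sym RD TT SF SFam Fam cf' at' nk pw fj dS Bf dt)

variable {ν T : ℝ} {Kf : (V → V) → (V → V) → V → V} {u : ℝ → V → V} {p : ℝ → V → ℝ}
variable {R : ℕ} {ℓ : ℕ → ℝ}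

/-- The convection term tested against a field. -/
noncomputable def cvt (v F : V → V) : ℝ :=
  ∫ x in cube, ∑ i, ∑ j, v x i * (v x j * pd j (fun y => F y i) x)

/-- The equation of a coefficient. -/
theorem Sol.ip_deriv (h : Sol ν Kf T u p) (hO : Opr Kf) {F : V → V} (hF : SPV F) (hdF : ∀ x, dv F x = 0) {t : ℝ}
    (ht : t ∈ Ioo 0 T) : HasDerivAt (fun s => ip (u s) F)
      (ν * ip (u t) (lap F) + cvt (u t) F + ip (Kf (u t) (u t)) F) t := by
  have hI : t ∈ Ico 0 T := ⟨ht.1.le, ht.2⟩
  have hspv := h.spv hI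
  set v : Fin 3 → V → ℝ := fun i y => u t y i with hv
  set f : Fin 3 → V → ℝ := fun i y => F y i with hf
  have hsp : ∀ i, H459R3.NS.SP (v i) := fun i => hspv.sp i
  have hfp : ∀ i, H459R3.NS.SP (f i) := fun i => hF.sp i
  have hdiv : ∀ x, ∑ i, H459R3.NS.pd i (v i) x = 0 := fun x => h.divfree t hI x
  have hdf : ∀ x, ∑ i, H459R3.NS.pd i (f i) x = 0 := fun x => hdF x
  have hP := h.spp hI
  have hK : SPV (Kf (u t) (u t)) := hO.spv _ _ hspv hspv
  have hFF : ContDiffOn ℝ 1 (fun z : ℝ × V => ∑ i, u z.1 z.2 i * F z.2 i) (Ioo 0 T ×ˢ univ) := by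
    refine ContDiffOn.sum fun i _ => (H459R3.NS.mono_Ioo (f := fun s y => u s y i) (n := 1) (h.sm i)
      (by norm_cast)).mul ?_
    exact (((hfp i).smooth.of_le (by norm_cast)).comp contDiff_snd).contDiffOn
  have key := H459R3.NS.hasDerivAt_int (F := fun s x => ∑ i, u s x i * F x i) hFF ht
  refine key.congr_deriv ?_
  have h3 : ∀ x, deriv (fun s => ∑ i, u s x i * F x i) t
      = ν * (∑ i, H459R3.NS.lap (v i) x * f i x) - (∑ i, H459R3.NS.conv v i x * f i x)
        - (∑ i, f i x * H459R3.NS.pd i (p t) x) + ∑ i, Kf (u t) (u t) x i * f i x := by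
    intro x
    have h4 : HasDerivAt (fun s => ∑ i, u s x i * F x i)
        (∑ i, (ν * H459R3.NS.lap (v i) x - H459R3.NS.conv v i x - H459R3.NS.pd i (p t) x
          + Kf (u t) (u t) x i) * F x i) t :=
      HasDerivAt.fun_sum fun i _ => (h.hd ht x i).mul_const _
    rw [h4.deriv, Finset.mul_sum, ← Finset.sum_sub_distrib, ← Finset.sum_sub_distrib, ← Finset.sum_add_distrib]
    exact Finset.sum_congr rfl fun i _ => by simp only [hf]; ring
  simp_rw [h3]
  have i1 : ∀ i, IntegrableOn (fun x => H459R3.NS.lap (v i) x * f i x) H459R3.NS.cube := fun i =>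
    ((hsp i).lap.mul (hfp i)).int
  have i2 : ∀ i, IntegrableOn (fun x => H459R3.NS.conv v i x * f i x) H459R3.NS.cube := fun i =>
    ((H459R3.NS.sp_conv hsp i).mul (hfp i)).int
  have i3 : ∀ i, IntegrableOn (fun x => f i x * H459R3.NS.pd i (p t) x) H459R3.NS.cube := fun i =>
    ((hfp i).mul (hP.pd i)).int
  have i4 : ∀ i, IntegrableOn (fun x => Kf (u t) (u t) x i * f i x) H459R3.NS.cube := fun i =>
    ((hK.sp i).mul (hfp i)).int
  have s1 := (integrable_finsetSum Finset.univ fun i _ => i1 i).const_mul ν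
  have s2 := integrable_finsetSum Finset.univ fun i _ => i2 i
  have s3 := integrable_finsetSum Finset.univ fun i _ => i3 i
  have s4 := integrable_finsetSum Finset.univ fun i _ => i4 i
  have s12 : Integrable (fun x => ν * (∑ i, H459R3.NS.lap (v i) x * f i x)
      - (∑ i, H459R3.NS.conv v i x * f i x)) (volume.restrict H459R3.NS.cube) := s1.sub s2
  have s123 : Integrable (fun x => ν * (∑ i, H459R3.NS.lap (v i) x * f i x)
      - (∑ i, H459R3.NS.conv v i x * f i x) - (∑ i, f i x * H459R3.NS.pd i (p t) x))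
      (volume.restrict H459R3.NS.cube) := s12.sub s3
  rw [integral_add s123 s4, integral_sub s12 s3, integral_sub s1 s2, integral_const_mul,
    integral_finsetSum _ fun i _ => i1 i, integral_finsetSum _ fun i _ => i2 i,
    integral_finsetSum _ fun i _ => i3 i, H459R3.NS.int_press hfp hdf hP]
  -- the viscous term
  have v1 : ∑ i, ∫ x in H459R3.NS.cube, H459R3.NS.lap (v i) x * f i x = ip (u t) (lap F) := by
    have : ip (u t) (lap F) = ∫ x in H459R3.NS.cube, ∑ i, v i x * H459R3.NS.lap (f i) x := rfl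
    rw [this, integral_finsetSum _ fun i _ => ((hsp i).mul (hfp i).lap).int]
    exact Finset.sum_congr rfl fun i _ => H459R3.NS.int_lap_symm (hsp i) (hfp i)
  -- the convection
  have v4 : ∑ i, ∫ x in H459R3.NS.cube, H459R3.NS.conv v i x * f i x = -cvt (u t) F := by
    have c0 : cvt (u t) F = ∑ i, ∫ x in H459R3.NS.cube, ∑ j, v i x * (v j x * H459R3.NS.pd j (f i) x) := by
      unfold cvt
      rw [← integral_finsetSum _ fun i _ => integrable_finsetSum _ fun j _ =>
        ((hsp i).mul ((hsp j).mul ((hfp i).pd j))).int]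
      rfl
    rw [c0, ← Finset.sum_neg_distrib]
    refine Finset.sum_congr rfl fun i _ => ?_
    have c1 : ∀ x, H459R3.NS.conv v i x * f i x = ∑ j, H459R3.NS.pd j (v i) x * (v j x * f i x) := by
      intro x
      unfold H459R3.NS.conv
      rw [Finset.sum_mul]
      exact Finset.sum_congr rfl fun j _ => by ring
    simp_rw [c1]
    rw [integral_finsetSum _ fun j _ => (((hsp i).pd j).mul ((hsp j).mul (hfp i))).int]
    have c2 : ∀ j, ∫ x in H459R3.NS.cube, H459R3.NS.pd j (v i) x * (v j x * f i x)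
        = -∫ x in H459R3.NS.cube, v i x * (v j x * H459R3.NS.pd j (f i) x + H459R3.NS.pd j (v j) x * f i x) := by
      intro j
      rw [H459R3.NS.ibp (hsp i) ((hsp j).mul (hfp i)) j]
      congr 2
      funext x
      rw [H459R3.NS.pd_mul (hsp j) (hfp i)]
    simp_rw [c2]
    rw [Finset.sum_neg_distrib, ← integral_finsetSum _ fun j _ =>
      ((hsp i).mul (((hsp j).mul ((hfp i).pd j)).add (((hsp j).pd j).mul (hfp i)))).int]
    congr 2
    funext x
    have : ∑ j, v i x * (v j x * H459R3.NS.pd j (f i) x + H459R3.NS.pd j (v j) x * f i x)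
        = ∑ j, v i x * (v j x * H459R3.NS.pd j (f i) x) + v i x * f i x * ∑ j, H459R3.NS.pd j (v j) x := by
      rw [Finset.mul_sum, ← Finset.sum_add_distrib]
      exact Finset.sum_congr rfl fun j _ => by ring
    rw [this, hdiv, mul_zero, add_zero]
  have v3 : ∫ x in H459R3.NS.cube, ∑ i, Kf (u t) (u t) x i * f i x = ip (Kf (u t) (u t)) F := rfl
  rw [v1, v4, v3]
  ring

/-- Continuity of a coefficient up to the initial time. -/
theorem Sol.ip_cont (h : Sol ν Kf T u p) {F : V → V} (hF : SPV F) :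
    ContinuousOn (fun s => ip (u s) F) (Ico 0 T) := by
  refine H459R3.NS.continuousOn_int (F := fun s x => ∑ i, u s x i * F x i) ?_
  exact continuousOn_finsetSum _ fun i _ => (h.sm i).continuousOn.mul
    (((hF.sp i).cont.comp continuous_snd).continuousOn)

/-- Bound of the convection term. -/
theorem cvt_le {v F : V → V} (hv : SPV v) (hF : SPV F) {M : ℝ}
    (hM : ∀ x i j, |pd j (fun y => F y i) x| ≤ M) : |cvt v F| ≤ 3 * M * energy v := by
  have hsp := fun i => hv.sp i
  have hM0 : 0 ≤ M := (abs_nonneg _).trans (hM 0 0 0)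
  have i1 : IntegrableOn (fun x => ∑ i, v x i ^ 2) H459R3.NS.cube :=
    integrable_finsetSum _ fun i _ => by
      have := ((hsp i).mul (hsp i)).int
      simp only [sq]
      exact this
  have h1 : ∀ x, ‖∑ i, ∑ j, v x i * (v x j * pd j (fun y => F y i) x)‖ ≤ 3 * M * ∑ i, v x i ^ 2 := by
    intro x
    rw [Real.norm_eq_abs]
    calc |∑ i, ∑ j, v x i * (v x j * pd j (fun y => F y i) x)|
        ≤ ∑ i, ∑ j, M * (|v x i| * |v x j|) := by
          refine (Finset.abs_sum_le_sum_abs _ _).trans (Finset.sum_le_sum fun i _ => ?_)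
          refine (Finset.abs_sum_le_sum_abs _ _).trans (Finset.sum_le_sum fun j _ => ?_)
          have := hM x i j
          rw [abs_mul, abs_mul]
          calc |v x i| * (|v x j| * |pd j (fun y => F y i) x|) ≤ |v x i| * (|v x j| * M) := by gcongr
            _ = _ := by ring
      _ = M * (∑ i, |v x i|) ^ 2 := by
          rw [sq, Finset.sum_mul_sum, Finset.mul_sum]
          exact Finset.sum_congr rfl fun i _ => by rw [Finset.mul_sum]
      _ ≤ M * (3 * ∑ i, v x i ^ 2) := by
          refine mul_le_mul_of_nonneg_left ?_ hM0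
          simp only [Fin.sum_univ_three]
          rw [← sq_abs (v x 0), ← sq_abs (v x 1), ← sq_abs (v x 2)]
          nlinarith [sq_nonneg (|v x 0| - |v x 1|), sq_nonneg (|v x 1| - |v x 2|), sq_nonneg (|v x 0| - |v x 2|)]
      _ = _ := by ring
  unfold cvt
  calc |∫ x in cube, ∑ i, ∑ j, v x i * (v x j * pd j (fun y => F y i) x)|
      ≤ ∫ x in H459R3.NS.cube, 3 * M * ∑ i, v x i ^ 2 :=
        norm_integral_le_of_norm_le (i1.const_mul _) (Eventually.of_forall h1)
    _ = 3 * M * energy v := by rw [integral_const_mul]; rfl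

/-- The Cauchy-Schwarz inequality. -/
theorem ip_cs {v w : V → V} (hv : SPV v) (hw : SPV w) : |ip v w| ≤ Real.sqrt (energy v) * Real.sqrt (energy w) := by
  have hE := energy_nonneg v
  have hE' := energy_nonneg w
  have hq : ∀ s : ℝ, 0 ≤ energy v * (s * s) + 2 * ip v w * s + energy w := by
    intro s
    have h1 : energy (s • v + w) = energy v * (s * s) + 2 * ip v w * s + energy w := by
      have e1 : energy (s • v + w) = ∫ x in cube, (s ^ 2 * ∑ i, v x i ^ 2 + 2 * s * ∑ i, v x i * w x i + ∑ i, w x i ^ 2) := by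
        unfold energy
        congr 1
        funext x
        rw [Finset.mul_sum, Finset.mul_sum, ← Finset.sum_add_distrib, ← Finset.sum_add_distrib]
        refine Finset.sum_congr rfl fun i _ => ?_
        rw [Pi.add_apply, Pi.add_apply, Pi.smul_apply, Pi.smul_apply, smul_eq_mul]
        ring
      have j1 : ∀ {z : V → V}, SPV z → IntegrableOn (fun x => ∑ i, z x i ^ 2) cube := fun hz =>
        integrable_finsetSum _ fun i _ => by
          have := ((hz.sp i).mul (hz.sp i)).int
          simp only [sq]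
          exact this
      have j2 : IntegrableOn (fun x => ∑ i, v x i * w x i) cube :=
        integrable_finsetSum _ fun i _ => ((hv.sp i).mul (hw.sp i)).int
      have k1 := (j1 hv).const_mul (s ^ 2)
      have k2 := j2.const_mul (2 * s)
      have k12 : IntegrableOn (fun x => s ^ 2 * ∑ i, v x i ^ 2 + 2 * s * ∑ i, v x i * w x i) cube := k1.add k2
      rw [e1, integral_add k12 (j1 hw), integral_add k1 k2, integral_const_mul, integral_const_mul]
      unfold energy ip
      ring
    rw [← h1]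
    exact energy_nonneg _
  have hd := discrim_le_zero hq
  unfold discrim at hd
  rw [← Real.sqrt_mul hE]
  apply Real.abs_le_sqrt
  nlinarith

/-- The gradient of a packet. -/
theorem Fm.pd_le (X : Fm R ℓ) (w : Wd R ℓ) (n : ℕ) (x : V) (i j : Fin 3) :
    |pd j (fun y => X.F n y i) x| ≤ 7 * (X.c * (R : ℝ) ^ n) * (X.c * ℓ n) := by
  have h1 : pd j (fun y => X.F n y i) x = (fs (fun k => fj k j * X.ψ n k i) x).re := pd_fs (X.RD n i) j x
  have hc := X.c0 w
  have hR0 := R_pos w.hR n
  rw [h1]
  have hs : Summable fun k => 7 * (X.c * (R : ℝ) ^ n) * ‖X.ψ n k‖ := (X.sn n).mul_left _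
  have h2 : ‖fs (fun k => fj k j * X.ψ n k i) x‖ ≤ ∑' k, 7 * (X.c * (R : ℝ) ^ n) * ‖X.ψ n k‖ := by
    unfold fs
    refine tsum_of_norm_bounded hs.hasSum fun k => ?_
    rw [norm_mul, H356R3.NS.norm_ex, mul_one, norm_mul]
    by_cases hk : X.ψ n k = 0
    · rw [hk]; simp
    · have h3 := (X.lv n k hk).2.2
      have h4 : ‖fj k j‖ ≤ 7 * pw k := by
        have hpi : Real.pi < 3.15 := Real.pi_lt_d2
        unfold H356R3.NS.fj
        rw [norm_mul, norm_mul, norm_mul, Complex.norm_I, mul_one, Complex.norm_real,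
          Real.norm_eq_abs, abs_of_pos Real.pi_pos, Complex.norm_ofNat, Complex.norm_intCast]
        have h5 : |(k j : ℝ)| ≤ pw k := by
          simp only [pw, H356R3.NS.l1, Fin.sum_univ_three]
          have := abs_nonneg (k 0 : ℝ)
          have := abs_nonneg (k 1 : ℝ)
          have := abs_nonneg (k 2 : ℝ)
          fin_cases j <;> simp <;> linarith
        have h6 := (H356R3.NS.pw_pos k).le
        have h7 := Real.pi_pos
        calc 2 * Real.pi * |(k j : ℝ)| ≤ 2 * 3.15 * pw k := by gcongr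
          _ ≤ 7 * pw k := by nlinarith
      have h8 := norm_le_pi_norm (X.ψ n k) i
      have h10 := (H356R3.NS.pw_pos k).le
      calc ‖fj k j‖ * ‖X.ψ n k i‖ ≤ (7 * pw k) * ‖X.ψ n k‖ := by gcongr
        _ ≤ (7 * (X.c * (R : ℝ) ^ n)) * ‖X.ψ n k‖ := by gcongr
        _ = _ := by ring
  rw [tsum_mul_left] at h2
  have h9 := X.l1 n
  calc |(fs (fun k => fj k j * X.ψ n k i) x).re| ≤ ‖fs (fun k => fj k j * X.ψ n k i) x‖ := Complex.abs_re_le_norm _
    _ ≤ 7 * (X.c * (R : ℝ) ^ n) * ∑' k, ‖X.ψ n k‖ := h2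
    _ ≤ _ := by gcongr

end Pool.Agent.N980.WP
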