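import Pool.Agent.N980.WP.Dec

/-!
The operator on the Fourier side: bounds, continuity.
-/

open MeasureTheory Set Filter Topology
open scoped ContDiff

set_option linter.unusedVariables false

namespace Pool.Agent.N980.WP

open Pool.Agent.N980.NU
open Pool.Agent.N980.CB (Rap one_le_R R_pos summ_inv Sm Sm_nonneg le_Sm)
open Pool.Agent.H356R3.NS (K C3 E3 R3 ex SN Sym RD TT SF SFam Fam cf' at' nk pw fj dS Bf dt)

variable {R : ℕ} {ℓ : ℕ → ℝ} (X : Fm R ℓ) (w : Wd R ℓ)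

/-- The majorant of a coefficient. -/
noncomputable def Fm.cb (b : K → ℝ) (n : ℕ) : ℝ := ∑' k, 3 * (b k * ‖X.ψ n k‖)

theorem Fm.cb_nonneg {b : K → ℝ} (b0 : ∀ k, 0 ≤ b k) (n : ℕ) : 0 ≤ X.cb b n :=
  tsum_nonneg fun k => mul_nonneg (by norm_num) (mul_nonneg (b0 k) (norm_nonneg _))

theorem Fm.co_le_cb {x : K → C3} {b : K → ℝ} (hx : ∀ k, ‖x k‖ ≤ b k) (n : ℕ) : |X.co x n| ≤ X.cb b n := by
  refine (X.co_abs x n).trans ?_
  refine Summable.tsum_le_tsum (fun k => ?_) (X.summ n (fun k v => 3 * (‖x k‖ * ‖v‖)) (by simp))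
    (X.summ n (fun k v => 3 * (b k * ‖v‖)) (by simp))
  have := hx k
  gcongr

theorem Fm.cb_le (w : Wd R ℓ) {b : K → ℝ} (b0 : ∀ k, 0 ≤ b k) (m n : ℕ)
    (hb : Summable fun k => pw k ^ m * b k) :
    X.cb b n * ((R : ℝ) ^ n) ^ m
      ≤ 3 * 2 ^ m * (X.c / ℓ n) * ∑' k, (if X.L k = n then pw k ^ m * b k else 0) := by
  have hc := X.c0 w
  have hln := w.pos n
  have hA : 0 ≤ X.c / ℓ n := by positivity
  have hpw := H356R3.NS.pw_pos
  have hs : Summable fun k => 3 * (b k * ‖X.ψ n k‖) :=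
    X.summ n (fun k v => 3 * (b k * ‖v‖)) (by simp)
  have h0 : ∀ k, 0 ≤ pw k ^ m * b k := fun k => mul_nonneg (pow_pos (hpw k) m).le (b0 k)
  have hs2 := ite_summ (L := X.L) h0 hb n
  unfold Fm.cb
  calc (∑' k, 3 * (b k * ‖X.ψ n k‖)) * ((R : ℝ) ^ n) ^ m
      = ∑' k, 3 * (b k * ‖X.ψ n k‖) * ((R : ℝ) ^ n) ^ m := by rw [tsum_mul_right]
    _ ≤ ∑' k, 3 * 2 ^ m * (X.c / ℓ n) * (if X.L k = n then pw k ^ m * b k else 0) := by
        refine (hs.mul_right _).tsum_le_tsum (fun k => ?_) (hs2.mul_left _)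
        by_cases hk : X.ψ n k = 0
        · rw [hk]
          simp only [norm_zero, mul_zero, zero_mul]
          have := ite_nn (L := X.L) h0 n k
          positivity
        · obtain ⟨l1, l2, l3⟩ := X.lv n k hk
          rw [if_pos l1]
          have h1 := X.Rpw hk
          have h2 := X.sup n k
          have h4 : ((R : ℝ) ^ n) ^ m ≤ 2 ^ m * pw k ^ m := by
            rw [← mul_pow]; gcongr
          have := b0 k
          calc 3 * (b k * ‖X.ψ n k‖) * ((R : ℝ) ^ n) ^ m ≤ 3 * (b k * (X.c / ℓ n)) * (2 ^ m * pw k ^ m) := by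
                gcongr
            _ = _ := by ring
    _ = _ := by rw [tsum_mul_left]

variable (t : Tr R ℓ)

/-- The majorant of a term. -/
noncomputable def Tr.mj (S : ℝ) (b : K → ℝ) (k : K) : ℝ :=
  24 * t.C * t.X.c * S * (t.Y.cb b (t.Z.L k) / ℓ (t.Z.L k)) * ‖t.Z.ψ (t.Z.L k) k‖

/-- The constant of the term. -/
noncomputable def Tr.D (m : ℕ) : ℝ := 24 * t.C * t.X.c * (3 * 2 ^ m * t.Y.c) * t.Z.c ^ (m + 1)

theorem Tr.D0 (w : Wd R ℓ) (m : ℕ) : 0 ≤ t.D m := by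
  have := t.C0
  have := t.X.c0 w
  have := t.Y.c0 w
  have := t.Z.c0 w
  unfold Tr.D
  positivity

theorem Tr.mj_nonneg (w : Wd R ℓ) {S : ℝ} (hS : 0 ≤ S) {b : K → ℝ} (b0 : ∀ k, 0 ≤ b k) (k : K) : 0 ≤ t.mj S b k := by
  have := t.C0
  have := t.X.c0 w
  have := t.Y.cb_nonneg b0 (t.Z.L k)
  have := (w.pos (t.Z.L k)).le
  unfold Tr.mj
  positivity

theorem Tr.ET_le (w : Wd R ℓ) {x y : K → C3} {b b' : K → ℝ} (b0 : ∀ k, 0 ≤ b k)
    (hb : Summable fun k => pw k ^ 3 * b k) (hx : ∀ k, ‖x k‖ ≤ b k) (hy : ∀ k, ‖y k‖ ≤ b' k) (k : K) :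
    ‖t.ET x y k‖ ≤ t.mj (Sm 3 b) b' k := by
  have hC := t.C0
  have hX := t.X.c0 w
  have hS := Sm_nonneg 3 b0
  set n := t.Z.L k with hn
  have hln := w.pos n
  have r0 := R_pos w.hR n
  have h1 : |t.κ n * t.X.co x n| ≤ 24 * t.C * t.X.c * Sm 3 b / ℓ n := by
    have h2 := t.X.co_le w b0 hx 3 n hb
    have h3 := lvl_part_le (L := t.X.L) (fun k => mul_nonneg (pow_pos (H356R3.NS.pw_pos k) 3).le (b0 k)) hb n
    have h4 := t.hκ n
    rw [abs_mul]
    calc |t.κ n| * |t.X.co x n| ≤ (t.C * ((R : ℝ) ^ n) ^ 3) * |t.X.co x n| := by gcongr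
      _ = t.C * (|t.X.co x n| * ((R : ℝ) ^ n) ^ 3) := by ring
      _ ≤ t.C * (3 * 2 ^ 3 * (t.X.c / ℓ n) * Sm 3 b) := by
        refine mul_le_mul_of_nonneg_left (h2.trans ?_) hC
        exact mul_le_mul_of_nonneg_left h3 (by positivity)
      _ = _ := by ring
  have h5 := t.Y.co_le_cb hy n
  unfold Tr.ET Fm.ch Tr.sf Tr.mj
  rw [← hn, norm_smul, Real.norm_eq_abs, abs_mul]
  calc |t.κ n * t.X.co x n| * |t.Y.co y n| * ‖t.Z.ψ n k‖
      ≤ (24 * t.C * t.X.c * Sm 3 b / ℓ n) * t.Y.cb b' n * ‖t.Z.ψ n k‖ := by gcongr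
    _ = _ := by ring

theorem Tr.mj_summ (w : Wd R ℓ) {S : ℝ} (hS : 0 ≤ S) (m : ℕ) {b : K → ℝ} (b0 : ∀ k, 0 ≤ b k)
    (hb : Summable fun k => pw k ^ m * b k) :
    (Summable fun k => pw k ^ m * t.mj S b k) ∧ Sm m (t.mj S b) ≤ t.D m * S * Sm m b := by
  have hC := t.C0
  have hX := t.X.c0 w
  have hY := t.Y.c0 w
  have hZ := t.Z.c0 w
  have hpw := H356R3.NS.pw_pos
  have h0 : ∀ k, 0 ≤ pw k ^ m * b k := fun k => mul_nonneg (pow_pos (hpw k) m).le (b0 k)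
  have hl := lvl_split (L := t.Y.L) h0 hb
  set g : ℕ → ℝ := fun n => ∑' k, if t.Y.L k = n then pw k ^ m * b k else 0 with hg
  have g0 : ∀ n, 0 ≤ g n := fun n => tsum_nonneg (ite_nn h0 n)
  have key := lvl_sum_nn (L := t.Z.L)
    (F := fun n k => pw k ^ m * (24 * t.C * t.X.c * S * (t.Y.cb b n / ℓ n) * ‖t.Z.ψ n k‖))
    (C := fun n => t.D m * S * g n) (fun n k => ?_) (fun n k hk => ?_) (fun n => ?_) ?_ (fun n => ?_)
  · refine ⟨key.1, ?_⟩
    refine key.2.trans (le_of_eq ?_)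
    rw [tsum_mul_left, hl.tsum_eq]
    rfl
  · have := t.Y.cb_nonneg b0 n
    have := (w.pos n).le
    have := (hpw k).le
    positivity
  · refine (t.Z.lv n k ?_).1
    intro h
    apply hk
    simp [h]
  · exact t.Z.summ n (fun k v => pw k ^ m * (24 * t.C * t.X.c * S * (t.Y.cb b n / ℓ n) * ‖v‖)) (by simp)
  · exact hl.summable.mul_left _
  · have hln := w.pos n
    have r0 := R_pos w.hR n
    have cb0 := t.Y.cb_nonneg b0 n
    have e : ∑' k, pw k ^ m * (24 * t.C * t.X.c * S * (t.Y.cb b n / ℓ n) * ‖t.Z.ψ n k‖)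
        = 24 * t.C * t.X.c * S * (t.Y.cb b n / ℓ n) * ∑' k, pw k ^ m * ‖t.Z.ψ n k‖ := by
      rw [← tsum_mul_left]
      exact tsum_congr fun k => by ring
    rw [e]
    have h1 := t.Z.wsum w n m
    have h2 := t.Y.cb_le w b0 m n hb
    have h3 : 1 / ℓ n ≤ 1 := by rw [div_le_one hln]; exact w.one n
    have hgn := g0 n
    calc 24 * t.C * t.X.c * S * (t.Y.cb b n / ℓ n) * ∑' k, pw k ^ m * ‖t.Z.ψ n k‖
        ≤ 24 * t.C * t.X.c * S * (t.Y.cb b n / ℓ n) * ((t.Z.c * (R : ℝ) ^ n) ^ m * (t.Z.c * ℓ n)) := by gcongr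
      _ = 24 * t.C * t.X.c * S * t.Z.c ^ (m + 1) * (t.Y.cb b n * ((R : ℝ) ^ n) ^ m) := by
        rw [mul_pow, pow_succ t.Z.c m]; field_simp
      _ ≤ 24 * t.C * t.X.c * S * t.Z.c ^ (m + 1) * (3 * 2 ^ m * (t.Y.c / ℓ n) * g n) := by gcongr
      _ = 24 * t.C * t.X.c * S * t.Z.c ^ (m + 1) * (3 * 2 ^ m * t.Y.c * g n) * (1 / ℓ n) := by ring
      _ ≤ 24 * t.C * t.X.c * S * t.Z.c ^ (m + 1) * (3 * 2 ^ m * t.Y.c * g n) * 1 := by gcongr
      _ = t.D m * S * g n := by unfold Tr.D; ring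

variable {ι : Type} [Fintype ι] (T : ι → Tr R ℓ)

/-- The majorant of the operator. -/
noncomputable def KM (S : ℝ) (b : K → ℝ) (k : K) : ℝ := ∑ s, (T s).mj S b k

/-- The constant of the operator. -/
noncomputable def KD (m : ℕ) : ℝ := ∑ s, (T s).D m

theorem KD_nonneg (w : Wd R ℓ) (m : ℕ) : 0 ≤ KD T m := Finset.sum_nonneg fun s _ => (T s).D0 w m

theorem KM_nonneg (w : Wd R ℓ) {S : ℝ} (hS : 0 ≤ S) {b : K → ℝ} (b0 : ∀ k, 0 ≤ b k) (k : K) : 0 ≤ KM T S b k :=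
  Finset.sum_nonneg fun s _ => (T s).mj_nonneg w hS b0 k

theorem KT_le (w : Wd R ℓ) {x y : K → C3} {b b' : K → ℝ} (b0 : ∀ k, 0 ≤ b k)
    (hb : Summable fun k => pw k ^ 3 * b k) (hx : ∀ k, ‖x k‖ ≤ b k) (hy : ∀ k, ‖y k‖ ≤ b' k) (k : K) :
    ‖KT T x y k‖ ≤ KM T (Sm 3 b) b' k := by
  rw [KT_apply]
  exact (norm_sum_le _ _).trans (Finset.sum_le_sum fun s _ => (T s).ET_le w b0 hb hx hy k)

theorem KM_summ (w : Wd R ℓ) {S : ℝ} (hS : 0 ≤ S) (m : ℕ) {b : K → ℝ} (b0 : ∀ k, 0 ≤ b k)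
    (hb : Summable fun k => pw k ^ m * b k) :
    (Summable fun k => pw k ^ m * KM T S b k) ∧ Sm m (KM T S b) ≤ KD T m * S * Sm m b := by
  have h1 := fun s => (T s).mj_summ w hS m b0 hb
  have e : (fun k => pw k ^ m * KM T S b k) = fun k => ∑ s, pw k ^ m * (T s).mj S b k := by
    funext k
    unfold KM
    rw [Finset.mul_sum]
  constructor
  · rw [e]
    exact summable_sum fun s _ => (h1 s).1
  · unfold Sm
    rw [e, Summable.tsum_finsetSum fun s _ => (h1 s).1]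
    refine (Finset.sum_le_sum fun s _ => (h1 s).2).trans (le_of_eq ?_)
    rw [← Finset.sum_mul, ← Finset.sum_mul]
    rfl

/-! ### linearity and continuity -/

theorem Fm.co_sub (x y : K → C3) (n : ℕ) : X.co (x - y) n = X.co x n - X.co y n := by
  unfold Fm.co
  rw [← Complex.sub_re, ← (X.cot x n).tsum_sub (X.cot y n)]
  congr 1
  refine tsum_congr fun k => ?_
  rw [← Finset.sum_sub_distrib]
  refine Finset.sum_congr rfl fun i _ => ?_
  rw [Pi.sub_apply, Pi.sub_apply]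
  ring

theorem Tr.ET_diff (x y : K → C3) : t.ET x x - t.ET y y = t.ET (x - y) x + t.ET y (x - y) := by
  funext k
  rw [Pi.sub_apply, Pi.add_apply]
  unfold Tr.ET Fm.ch Tr.sf
  rw [← sub_smul, ← add_smul, t.X.co_sub, t.Y.co_sub]
  congr 1
  ring

theorem KT_diff (x y : K → C3) : KT T x x - KT T y y = KT T (x - y) x + KT T y (x - y) := by
  unfold KT
  rw [← Finset.sum_sub_distrib, ← Finset.sum_add_distrib]
  exact Finset.sum_congr rfl fun s _ => (T s).ET_diff x y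

theorem Fm.zero_freq (w : Wd R ℓ) (n : ℕ) : X.ψ n 0 = 0 := by
  by_contra h
  have h1 := (X.lv n 0 h).2.1
  have h2 := R_pos w.hR n
  simp at h1
  linarith

theorem KT_zero (w : Wd R ℓ) (x y : K → C3) : KT T x y 0 = 0 := by
  rw [KT_apply]
  refine Finset.sum_eq_zero fun s _ => ?_
  unfold Tr.ET Fm.ch
  rw [(T s).Z.zero_freq w, smul_zero]

theorem Fm.co_fin (x : K → C3) (n : ℕ) : X.co x n
    = (∑ k ∈ (X.fin n).toFinset, ∑ i, x k i * star (X.ψ n k i)).re := by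
  unfold Fm.co
  rw [tsum_eq_sum (s := (X.fin n).toFinset) fun k hk => ?_]
  have : X.ψ n k = 0 := by
    by_contra h0
    exact hk ((X.fin n).mem_toFinset.2 h0)
  rw [this]
  simp

theorem Fm.co_cont {u : Fam} (hu : H356R3.NS.CF u) (n : ℕ) : Continuous fun s => X.co (at' u s) n := by
  have e : (fun s => X.co (at' u s) n)
      = fun s => (∑ k ∈ (X.fin n).toFinset, ∑ i, at' u s k i * star (X.ψ n k i)).re := funext fun s => X.co_fin _ n
  rw [e]
  refine Complex.continuous_re.comp (continuous_finsetSum _ fun k _ => continuous_finsetSum _ fun i _ => ?_)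
  exact ((continuous_apply i).comp (hu k)).mul continuous_const

theorem Tr.ET_cont {u v : Fam} (hu : H356R3.NS.CF u) (hv : H356R3.NS.CF v) (k : K) :
    Continuous fun s => t.ET (at' u s) (at' v s) k := by
  unfold Tr.ET Fm.ch Tr.sf
  exact ((continuous_const.mul (t.X.co_cont hu _)).mul (t.Y.co_cont hv _)).smul continuous_const

theorem KT_cont {u v : Fam} (hu : H356R3.NS.CF u) (hv : H356R3.NS.CF v) :
    H356R3.NS.CF fun k s => KT T (at' u s) (at' v s) k := by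
  intro k
  have e : (fun s => KT T (at' u s) (at' v s) k) = fun s => ∑ r, (T r).ET (at' u s) (at' v s) k :=
    funext fun s => KT_apply T _ _ k
  show Continuous fun s => KT T (at' u s) (at' v s) k
  rw [e]
  exact continuous_finsetSum _ fun r _ => (T r).ET_cont hu hv k

end Pool.Agent.N980.WP
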