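import Pool.Agent.N980.WP.Ex1

/-!
The quadratic integral equation in a weighted space.
-/

open MeasureTheory Set Filter Topology
open scoped ContDiff

set_option linter.unusedVariables false

namespace Pool.Agent.N980.WP

open Pool.Agent.N980.NU
open Pool.Agent.N980.CB (WB WB_zero Sm Sm_nonneg cc_w summ_of_w dint Duh_norm_le)
open Pool.Agent.H356R3.NS (K C3 E3 R3 ex SN Sym RD TT SF SFam Fam cf' at' nk pw fj dS Bf dt Duh Dom C0)

variable {R : ℕ} {ℓ : ℕ → ℝ} {ι : Type} [Fintype ι] (Tt : ι → Tr R ℓ) {c T : ℝ}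

/-! ### the quadratic operator -/

/-- The nonlinear term. -/
noncomputable def NN (x y : Fam) : Fam := fun k t =>
  Bf (at' x t) (at' y t) k + KT Tt (at' x t) (at' y t) k

theorem NN_cf {x y : Fam} {M M' : ℝ} (hx : WB x M) (hy : WB y M') :
    H356R3.NS.CF (NN Tt x y) := fun k =>
  (H356R3.NS.BB_cont hx.1 hy.1 hx.dom hy.dom k).add (KT_cont Tt hx.1 hy.1 k)

theorem NN_diff {x y : Fam} {M M' : ℝ} (hx : WB x M) (hy : WB y M') :
    NN Tt x x - NN Tt y y = NN Tt (x - y) x + NN Tt y (x - y) := by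
  funext k t
  have h1 := congrFun (H356R3.NS.Bf_diff (hx.dom.sn t) (hy.dom.sn t)) k
  have h2 := congrFun (KT_diff Tt (at' x t) (at' y t)) k
  have e : at' (x - y) t = at' x t - at' y t := rfl
  simp only [Pi.sub_apply, Pi.add_apply] at h1 h2 ⊢
  unfold NN
  rw [e]
  calc _ = (Bf (at' x t) (at' x t) k - Bf (at' y t) (at' y t) k)
        + (KT Tt (at' x t) (at' x t) k - KT Tt (at' y t) (at' y t) k) := by abel
    _ = _ := by rw [h1, h2]; abel

/-- The integral operator. -/
noncomputable def Qo (c T : ℝ) (x y : Fam) : Fam := fun k t => Duh c (NN Tt x y) k (min t T)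

theorem Qo_diff {x y : Fam} {M M' : ℝ} (hx : WB x M) (hy : WB y M') :
    Qo Tt c T x x - Qo Tt c T y y = Qo Tt c T (x - y) x + Qo Tt c T y (x - y) := by
  have h1 := NN_diff Tt hx hy
  have h2 := H356R3.NS.Duh_sub (c := c) (NN_cf Tt hx hx) (NN_cf Tt hy hy)
  have h3 := H356R3.NS.Duh_add (c := c) (NN_cf Tt (hx.sub hy) hx)
    (NN_cf Tt hy (hx.sub hy))
  rw [h1, h3] at h2
  funext k t
  have := congrFun (congrFun h2 k) (min t T)
  simp only [Pi.sub_apply, Pi.add_apply] at this ⊢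
  unfold Qo
  rw [this]

/-- The constant of the quadratic operator. -/
noncomputable def gam (c T : ℝ) : ℝ := C0 * Real.sqrt (T / c) + KD Tt 3 * T

theorem gam_nonneg (w : Wd R ℓ) (hT : 0 ≤ T) : 0 ≤ gam Tt c T := by
  unfold gam
  have := H356R3.NS.C0_pos
  have := KD_nonneg Tt w 3
  positivity

theorem WQ (w : Wd R ℓ) (hc : 0 < c) (hT : 0 ≤ T) {x y : Fam} {M M' : ℝ} (hx : WB x M)
    (hy : WB y M') : WB (Qo Tt c T x y) (gam Tt c T * M * M') := by
  have hcf := NN_cf Tt hx hy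
  have hM := hx.M0
  have hM' := hy.M0
  have hxd := hx.dom
  have hyd := hy.dom
  obtain ⟨hcx, b, b0, hb, h1, hu⟩ := hx
  obtain ⟨hcy, b', b0', hb', h1', hu'⟩ := hy
  have hC0 := H356R3.NS.C0_pos
  have hS := Sm_nonneg 3 b0
  have hS' := Sm_nonneg 3 b0'
  set kb : K → ℝ := KM Tt (Sm 3 b) b' with hkb
  have kb0 : ∀ k, 0 ≤ kb k := KM_nonneg Tt w hS b0'
  obtain ⟨k1, k2⟩ := KM_summ Tt w hS 3 b0' hb'
  obtain ⟨w1, w2⟩ := cc_w b0 b0' hb hb'
  have ccn := cc_nonneg b0 b0'
  have hs0 := Real.sqrt_nonneg (T / c)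
  refine ⟨fun k => ?_, fun k => Real.sqrt (T / c) * (C0 * NU.cc b b' k) + T * kb k, fun k => ?_, ?_, ?_, ?_⟩
  · exact (H356R3.NS.Duh_cont hcf c k).comp (by fun_prop : Continuous fun t : ℝ => min t T)
  · have := ccn k
    have := kb0 k
    positivity
  · have := ((w1.mul_left (Real.sqrt (T / c) * C0)).add (k1.mul_left T))
    refine this.congr fun k => ?_
    rw [hkb]; ring
  · have e : Sm 3 (fun k => Real.sqrt (T / c) * (C0 * NU.cc b b' k) + T * kb k)
        = Real.sqrt (T / c) * C0 * Sm 3 (NU.cc b b') + T * Sm 3 kb := by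
      unfold Sm
      rw [← tsum_mul_left, ← tsum_mul_left, ← (w1.mul_left _).tsum_add (k1.mul_left _)]
      refine tsum_congr fun k => ?_
      rw [hkb]; ring
    rw [e]
    have hKD := KD_nonneg Tt w 3
    calc Real.sqrt (T / c) * C0 * Sm 3 (NU.cc b b') + T * Sm 3 kb
        ≤ Real.sqrt (T / c) * C0 * (Sm 3 b * Sm 3 b')
          + T * (KD Tt 3 * Sm 3 b * Sm 3 b') := by gcongr
      _ = gam Tt c T * (Sm 3 b * Sm 3 b') := by unfold gam; ring
      _ ≤ gam Tt c T * (M * M') := by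
        have := gam_nonneg (c := c) Tt w hT
        gcongr
      _ = _ := by ring
  · intro k t
    unfold Qo
    refine Duh_norm_le hc hT hcf k (mul_nonneg hC0.le (ccn k)) (kb0 k) (fun s => ?_) (min_le_right _ _)
    unfold NN
    have hxs : SN (at' x s) := hxd.sn s
    have hys : SN (at' y s) := hyd.sn s
    have e1 := norm_Bf_le hxs hys k
    have e2 := cc_mono (summ_of_w b0 hb) (summ_of_w b0' hb') (fun _ => norm_nonneg _) (fun _ => norm_nonneg _)
      (fun k => hu k s) (fun k => hu' k s) k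
    have e3 := KT_le Tt w b0 hb (fun k => hu k s) (fun k => hu' k s) k
    have hn := H356R3.NS.nk_nonneg k
    calc ‖Bf (at' x s) (at' y s) k + KT Tt (at' x s) (at' y s) k‖
        ≤ ‖Bf (at' x s) (at' y s) k‖ + ‖KT Tt (at' x s) (at' y s) k‖ := norm_add_le _ _
      _ ≤ C0 * nk k * NU.cc b b' k + kb k := by
        refine add_le_add (e1.trans ?_) e3
        exact mul_le_mul_of_nonneg_left e2 (mul_nonneg hC0.le hn)
      _ = nk k * (C0 * NU.cc b b' k) + kb k := by ring

/-! ### the fixed point -/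

/-- The iteration. -/
noncomputable def itr (c T : ℝ) (e : Fam) : ℕ → Fam
  | 0 => 0
  | n + 1 => e + Qo Tt c T (itr c T e n) (itr c T e n)

theorem fixp (w : Wd R ℓ) (hc : 0 < c) (hT : 0 ≤ T) {e : Fam} {M0 : ℝ} (he : WB e M0)
    (hγ : 8 * gam Tt c T * M0 ≤ 1) : ∃ u : Fam, WB u (2 * M0) ∧ u = e + Qo Tt c T u u ∧
      (∀ n, WB (itr Tt c T e n) (2 * M0)) ∧
      ∀ k t, Tendsto (fun n => itr Tt c T e n k t) atTop (𝓝 (u k t)) := by
  have hM0 := he.M0
  have hγ0 := gam_nonneg (c := c) Tt w hT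
  set γ := gam Tt c T with hγd
  set U := itr Tt c T e with hU
  have hP : ∀ n, WB (U n) (2 * M0) := by
    intro n
    induction n with
    | zero => exact WB_zero.mono (by positivity)
    | succ n ih =>
      have h1 := he.add (WQ Tt w hc hT ih ih)
      refine h1.mono ?_
      nlinarith
  have hstep : ∀ n, U (n + 1 + 1) - U (n + 1) = Qo Tt c T (U (n + 1) - U n) (U (n + 1))
      + Qo Tt c T (U n) (U (n + 1) - U n) := by
    intro n
    rw [← Qo_diff Tt (hP (n + 1)) (hP n)]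
    show (e + Qo Tt c T (U (n + 1)) (U (n + 1))) - (e + Qo Tt c T (U n) (U n)) = _
    abel
  have hD : ∀ n, WB (U (n + 1) - U n) (M0 * (1 / 2) ^ n) := by
    intro n
    induction n with
    | zero =>
      have h1 : U (0 + 1) - U 0 = e + Qo Tt c T 0 0 := by
        show (e + Qo Tt c T 0 0) - 0 = _
        rw [sub_zero]
      have h2 := WQ Tt w hc hT WB_zero WB_zero
      rw [h1]
      have h3 := he.add h2
      refine h3.mono ?_
      simp
    | succ n ih =>
      rw [hstep n]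
      have h1 := (WQ Tt w hc hT ih (hP (n + 1))).add (WQ Tt w hc hT (hP n) ih)
      refine h1.mono ?_
      have hp : (0 : ℝ) < (1 / 2) ^ n := by positivity
      rw [← hγd, pow_succ]
      have h2 : (8 * γ * M0) * (M0 * (1 / 2) ^ n) ≤ 1 * (M0 * (1 / 2) ^ n) := by gcongr
      nlinarith
  have hgs : Summable fun n : ℕ => M0 * (1 / 2 : ℝ) ^ n :=
    (summable_geometric_of_lt_one (by norm_num) (by norm_num)).mul_left _
  obtain ⟨hu, hus⟩ := WB.series hD hgs
  set u : Fam := fun k t => ∑' n, (U (n + 1) - U n) k t with hud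
  have hsum2 : ∑' n : ℕ, M0 * (1 / 2 : ℝ) ^ n = 2 * M0 := by
    rw [tsum_mul_left, tsum_geometric_two]; ring
  rw [hsum2] at hu
  -- the remainders
  have hrem : ∀ N, WB (u - U N) (2 * M0 * (1 / 2) ^ N) := by
    intro N
    have hgs' : Summable fun n : ℕ => M0 * (1 / 2 : ℝ) ^ (n + N) := (summable_nat_add_iff N).2 hgs
    obtain ⟨hv, -⟩ := WB.series (d := fun n => U (n + N + 1) - U (n + N)) (fun n => hD (n + N)) hgs'
    have e1 : (fun k t => ∑' n, (U (n + N + 1) - U (n + N)) k t) = u - U N := by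
      funext k t
      have h1 := (hus k t).sum_add_tsum_nat_add N
      have h2 : ∑ i ∈ Finset.range N, (U (i + 1) - U i) k t = U N k t := by
        have := Finset.sum_range_sub (fun i => U i k t) N
        simp only [Pi.sub_apply]
        rw [this]
        show U N k t - (0 : Fam) k t = _
        simp
      rw [h2] at h1
      show _ = u k t - U N k t
      rw [hud]
      simp only
      rw [← h1]
      simp
    have e2 : ∑' n : ℕ, M0 * (1 / 2 : ℝ) ^ (n + N) = 2 * M0 * (1 / 2) ^ N := by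
      have : (fun n : ℕ => M0 * (1 / 2 : ℝ) ^ (n + N)) = fun n => (M0 * (1 / 2) ^ N) * (1 / 2) ^ n := by
        funext n; rw [pow_add]; ring
      rw [this, tsum_mul_left, tsum_geometric_two]; ring
    rw [e1, e2] at hv
    exact hv
  -- the equation
  have hall : ∀ N, WB (u - (e + Qo Tt c T u u)) (4 * M0 * (1 / 2) ^ N) := by
    intro N
    have e1 : u - (e + Qo Tt c T u u) = (u - U (N + 1)) - (Qo Tt c T u u - Qo Tt c T (U N) (U N)) := by
      show _ = (u - (e + Qo Tt c T (U N) (U N))) - _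
      abel
    rw [e1, Qo_diff Tt hu (hP N)]
    have h1 := (WQ Tt w hc hT (hrem N) hu).add (WQ Tt w hc hT (hP N) (hrem N))
    refine ((hrem (N + 1)).sub h1).mono ?_
    have hp : (0 : ℝ) < (1 / 2) ^ N := by positivity
    rw [← hγd, pow_succ]
    have h2 : (8 * γ * M0) * (M0 * (1 / 2) ^ N) ≤ 1 * (M0 * (1 / 2) ^ N) := by gcongr
    nlinarith
  have hz : u - (e + Qo Tt c T u u) = 0 := by
    funext k t
    have h1 : Tendsto (fun N : ℕ => 4 * M0 * (1 / 2 : ℝ) ^ N) atTop (𝓝 (4 * M0 * 0)) :=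
      (tendsto_pow_atTop_nhds_zero_of_lt_one (by norm_num) (by norm_num)).const_mul _
    rw [mul_zero] at h1
    exact norm_le_zero_iff.1 (ge_of_tendsto' h1 fun N => (hall N).le k t)
  refine ⟨u, hu, sub_eq_zero.1 hz, hP, fun k t => ?_⟩
  rw [tendsto_iff_norm_sub_tendsto_zero]
  have h1 : Tendsto (fun N : ℕ => 2 * M0 * (1 / 2 : ℝ) ^ N) atTop (𝓝 (2 * M0 * 0)) :=
    (tendsto_pow_atTop_nhds_zero_of_lt_one (by norm_num) (by norm_num)).const_mul _
  rw [mul_zero] at h1
  refine squeeze_zero (fun _ => norm_nonneg _) (fun N => ?_) h1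
  rw [norm_sub_rev]
  exact (hrem N).le k t

end Pool.Agent.N980.WP
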