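import Pool.Agent.N980.WP.Ex2

/-!
Solutions on the Fourier side with rapid decay.
-/

open MeasureTheory Set Filter Topology
open scoped ContDiff

set_option linter.unusedVariables false

namespace Pool.Agent.N980.WP

open Pool.Agent.N980.NU
open Pool.Agent.N980.CB (WB Sm Sm_nonneg cc_w summ_of_w RV fe fe_le fe_WB dt_Duh fe_sym Duh_damp)
open Pool.Agent.H356R3.NS (K C3 E3 R3 ex SN Sym RD TT SF SFam Fam cf' at' nk pw fj dS Bf dt Duh Dom C0 SymF)

variable {R : ℕ} {ℓ : ℕ → ℝ} {ι : Type} [Fintype ι] (Tt : ι → Tr R ℓ) {c T : ℝ}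

/-- The right hand side. -/
noncomputable def RK (c : ℝ) (x : K → C3) (k : K) : C3 :=
  -(c * nk k ^ 2) • x k + Bf x x k + KT Tt x x k

/-- Solutions on the Fourier side. -/
structure KSol (c T : ℝ) (a : K → C3) (u : Fam) : Prop where
  init : ∀ k, u k 0 = a k
  cont : ∀ k, Continuous (u k)
  dom : ∀ m : ℕ, ∃ b : K → ℝ, (∀ k, 0 ≤ b k) ∧ (Summable fun k => pw k ^ m * b k) ∧ ∀ k t, ‖u k t‖ ≤ b k
  ode : ∀ k, ∀ t ∈ Ioo 0 T, HasDerivAt (u k) (RK Tt c (at' u t) k) t
  sym : ∀ t, Sym (at' u t)
  div : ∀ k t, dt k (u k t) = 0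

theorem NN_sym {x : Fam} (h : SymF x) : SymF (NN Tt x x) := by
  intro t
  have h1 := (H356R3.NS.Bf_sym (h t) (h t)).add (KT_Sym Tt (at' x t) (at' x t))
  exact h1

/-- Rapid decay of the fixed point. -/
theorem dom_all (w : Wd R ℓ) (hc : 0 < c) {a : K → C3} (ha : RV a) {u : Fam} {M : ℝ}
    (hu : WB u M) (he : u = fe c T a + Qo Tt c T u u) (m : ℕ) :
    ∃ b : K → ℝ, (∀ k, 0 ≤ b k) ∧ (Summable fun k => pw k ^ (m + 3) * b k) ∧ ∀ k t, ‖u k t‖ ≤ b k := by
  have hpw := H356R3.NS.pw_pos
  induction m with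
  | zero =>
    obtain ⟨_, b, b0, hb, _, hub⟩ := hu
    exact ⟨b, b0, hb, hub⟩
  | succ m ih =>
    obtain ⟨b, b0, hb, hub⟩ := ih
    have hb3 : Summable fun k => pw k ^ 3 * b k := by
      refine hb.of_nonneg_of_le (fun k => mul_nonneg (pow_pos (hpw k) 3).le (b0 k)) fun k => ?_
      have : pw k ^ 3 ≤ pw k ^ (m + 3) := pow_le_pow_right₀ (H356R3.NS.one_le_pw k) (by omega)
      have := b0 k
      gcongr
    have hC0 := H356R3.NS.C0_pos
    have hcf := NN_cf Tt hu hu
    have hS := Sm_nonneg 3 b0
    set kb : K → ℝ := KM Tt (Sm 3 b) b with hkb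
    have kb0 : ∀ k, 0 ≤ kb k := KM_nonneg Tt w hS b0
    obtain ⟨k1, -⟩ := KM_summ Tt w hS (m + 3) b0 hb
    obtain ⟨w1, -⟩ := cc_w b0 b0 hb hb
    have ccn := cc_nonneg b0 b0
    set b' : K → ℝ := fun k => ‖a k‖ + 4 / c * (C0 * NU.cc b b k + kb k) * (1 / pw k) with hb'
    have b0' : ∀ k, 0 ≤ b' k := fun k => by
      have := ccn k
      have := kb0 k
      have := hpw k
      simp only [hb']
      positivity
    refine ⟨b', b0', ?_, fun k t => ?_⟩
    · have h1 := ((w1.mul_left (4 / c * C0)).add (k1.mul_left (4 / c)))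
      refine ((ha (m + 1 + 3)).add h1).congr fun k => ?_
      have h2 := (hpw k).ne'
      simp only [hb', hkb]
      have e : pw k ^ (m + 1 + 3) = pw k ^ (m + 3) * pw k := by rw [← pow_succ]
      rw [e]
      field_simp
    · have hN : ∀ s, ‖NN Tt u u k s‖ ≤ C0 * nk k * NU.cc b b k + kb k := by
        intro s
        unfold NN
        have hxs : SN (at' u s) := hu.dom.sn s
        have e1 := norm_Bf_le hxs hxs k
        have e2 := cc_mono (summ_of_w b0 hb) (summ_of_w b0 hb) (fun _ => norm_nonneg _) (fun _ => norm_nonneg _)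
          (fun k => hub k s) (fun k => hub k s) k
        have e3 := KT_le Tt w b0 hb3 (fun k => hub k s) (fun k => hub k s) k
        have hn := H356R3.NS.nk_nonneg k
        calc ‖Bf (at' u s) (at' u s) k + KT Tt (at' u s) (at' u s) k‖
            ≤ ‖Bf (at' u s) (at' u s) k‖ + ‖KT Tt (at' u s) (at' u s) k‖ := norm_add_le _ _
          _ ≤ C0 * nk k * NU.cc b b k + kb k := by
            refine add_le_add (e1.trans ?_) e3
            exact mul_le_mul_of_nonneg_left e2 (mul_nonneg hC0.le hn)
      have h1 : u k t = fe c T a k t + Qo Tt c T u u k t := by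
        have := congrFun (congrFun he k) t
        exact this
      have h2 : ‖Qo Tt c T u u k t‖ ≤ 4 / c * (C0 * NU.cc b b k + kb k) * (1 / pw k) := by
        by_cases hk : k = 0
        · subst hk
          have e0 : NN Tt u u 0 = fun s => 0 := by
            funext s
            unfold NN
            rw [H356R3.NS.Bf_zero, KT_zero Tt w, add_zero]
          have e1 : Qo Tt c T u u 0 t = 0 := by
            unfold Qo H356R3.NS.Duh
            simp [e0]
          rw [e1, norm_zero]
          have := ccn 0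
          have := kb0 0
          have := hpw 0
          positivity
        · have h3 := Duh_damp hc hcf hk hN (min t T)
          refine h3.trans ?_
          have hn := H356R3.NS.one_le_nk hk
          have hn0 : 0 < nk k := by linarith
          have hp := pw_le_nk hk
          have hp0 := hpw k
          have h4 : C0 * nk k * NU.cc b b k + kb k ≤ nk k * (C0 * NU.cc b b k + kb k) := by
            have := kb0 k
            nlinarith
          have h5 : 0 ≤ C0 * NU.cc b b k + kb k := by
            have := ccn k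
            have := kb0 k
            positivity
          calc (C0 * nk k * NU.cc b b k + kb k) / (c * nk k ^ 2)
              ≤ nk k * (C0 * NU.cc b b k + kb k) / (c * nk k ^ 2) := by gcongr
            _ = (C0 * NU.cc b b k + kb k) / c * (1 / nk k) := by field_simp
            _ ≤ (C0 * NU.cc b b k + kb k) / c * (4 / pw k) := by
              have : 1 / nk k ≤ 4 / pw k := by
                rw [div_le_div_iff₀ hn0 hp0]; linarith
              gcongr
            _ = _ := by ring
      rw [h1]
      exact (norm_add_le _ _).trans (add_le_add (fe_le hc a k t) h2)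

/-- Existence on the Fourier side. -/
theorem ksol_exists (w : Wd R ℓ) (hc : 0 < c) {a : K → C3} (ha : RV a) (hs : Sym a)
    (hd : ∀ k, dt k (a k) = 0) : ∃ T > 0, ∃ u : Fam, KSol Tt c T a u := by
  set M0 := Sm 3 fun k => ‖a k‖ with hM0
  obtain ⟨T, hT, hγ⟩ : ∃ T > 0, 8 * gam Tt c T * M0 ≤ 1 := by
    have h1 : Continuous fun T : ℝ => 8 * gam Tt c T * M0 := by
      unfold gam
      fun_prop
    have h2 : Tendsto (fun T : ℝ => 8 * gam Tt c T * M0) (𝓝[>] 0) (𝓝 (8 * gam Tt c 0 * M0)) :=
      (h1.tendsto 0).mono_left nhdsWithin_le_nhds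
    have h3 : 8 * gam Tt c 0 * M0 = 0 := by unfold gam; simp
    rw [h3] at h2
    obtain ⟨T, h4, h5⟩ := ((h2.eventually (Iic_mem_nhds (by norm_num : (0 : ℝ) < 1))).and self_mem_nhdsWithin).exists
    exact ⟨T, h5, h4⟩
  have hT' : 0 < T := hT
  obtain ⟨u, hu, he, hit, hlim⟩ := fixp Tt w hc hT'.le (fe_WB (T := T) hc ha) hγ
  -- the iterates
  set U := itr Tt c T (fe c T a) with hU
  have hsymU : ∀ n, SymF (U n) := by
    intro n
    induction n with
    | zero => intro t k i; simp [hU, itr, at']
    | succ n ih =>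
      intro t
      have h1 : SymF (Duh c (NN Tt (U n) (U n))) :=
        H356R3.NS.Duh_sym (NN_sym Tt ih) (NN_cf Tt (hit n) (hit n))
      have h2 := (fe_sym (c := c) (T := T) hs t).add (h1 (min t T))
      exact h2
  have hdivU : ∀ n k t, dt k (U n k t) = 0 := by
    intro n
    induction n with
    | zero => intro k t; simp [hU, itr, H356R3.NS.dt]
    | succ n ih =>
      intro k t
      show dt k (fe c T a k t + Qo Tt c T (U n) (U n) k t) = 0
      rw [dt_add]
      have e1 : dt k (fe c T a k t) = 0 := by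
        unfold fe
        rw [dt_smul, hd, mul_zero]
      have e2 : dt k (Qo Tt c T (U n) (U n) k t) = 0 := by
        unfold Qo
        refine dt_Duh (NN_cf Tt (hit n) (hit n)) (fun k s => ?_) k _
        unfold NN
        rw [dt_add, KT_dt, add_zero]
        exact H356R3.NS.Bf_div _ _ k
      rw [e1, e2, add_zero]
  have hcf := NN_cf Tt hu hu
  refine ⟨T, hT', u, ?_, hu.1, ?_, ?_, ?_, ?_⟩
  · intro k
    have h1 : u k 0 = fe c T a k 0 + Qo Tt c T u u k 0 := congrFun (congrFun he k) 0
    rw [h1]
    unfold fe Qo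
    rw [min_eq_left hT'.le, H356R3.NS.Duh_at_zero]
    simp
  · intro m
    obtain ⟨b, b0, hb, hub⟩ := dom_all Tt w hc ha hu he m
    refine ⟨b, b0, ?_, hub⟩
    refine hb.of_nonneg_of_le (fun k => mul_nonneg (pow_pos (H356R3.NS.pw_pos k) m).le (b0 k)) fun k => ?_
    have : pw k ^ m ≤ pw k ^ (m + 3) := pow_le_pow_right₀ (H356R3.NS.one_le_pw k) (by omega)
    have := b0 k
    gcongr
  · intro k t ht
    have h1 : HasDerivAt (fun t => Real.exp (-(c * H356R3.NS.sq k * t)) • a k + Duh c (NN Tt u u) k t)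
        ((Real.exp (-(c * H356R3.NS.sq k * t)) * -(c * H356R3.NS.sq k)) • a k
          + (-(c * H356R3.NS.sq k) • Duh c (NN Tt u u) k t + NN Tt u u k t)) t := by
      have h2 : HasDerivAt (fun u => Real.exp (-(c * H356R3.NS.sq k * u)))
          (Real.exp (-(c * H356R3.NS.sq k * t)) * -(c * H356R3.NS.sq k)) t := by
        have : HasDerivAt (fun u : ℝ => -(c * H356R3.NS.sq k * u)) (-(c * H356R3.NS.sq k)) t := by
          simpa using ((hasDerivAt_id' t).const_mul (c * H356R3.NS.sq k)).fun_neg
        exact this.exp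
      exact (h2.smul_const (a k)).fun_add (H356R3.NS.Duh_hasDeriv hcf c k ht.1)
    have h3 : ∀ s ∈ Ioo 0 T, u k s = Real.exp (-(c * H356R3.NS.sq k * s)) • a k + Duh c (NN Tt u u) k s := by
      intro s hs
      have h4 : u k s = fe c T a k s + Qo Tt c T u u k s := congrFun (congrFun he k) s
      rw [h4]
      unfold fe Qo
      rw [min_eq_left hs.2.le, max_eq_left hs.1.le]
    have h5 : HasDerivAt (u k) ((Real.exp (-(c * H356R3.NS.sq k * t)) * -(c * H356R3.NS.sq k)) • a k
          + (-(c * H356R3.NS.sq k) • Duh c (NN Tt u u) k t + NN Tt u u k t)) t := by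
      refine h1.congr_of_eventuallyEq ?_
      filter_upwards [Ioo_mem_nhds ht.1 ht.2] with s hs
      exact h3 s hs
    refine h5.congr_deriv ?_
    unfold RK
    have e2 : at' u t k = u k t := rfl
    rw [e2, h3 t ht, H356R3.NS.nk_sq, smul_add, smul_smul, mul_comm (Real.exp _)]
    unfold NN
    abel
  · intro t k i
    have h1 : Tendsto (fun n => U n (-k) t i) atTop (𝓝 (u (-k) t i)) :=
      ((continuous_apply i).tendsto _).comp (hlim (-k) t)
    have h2 : Tendsto (fun n => star (U n k t i)) atTop (𝓝 (star (u k t i))) :=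
      (((continuous_apply i).star).tendsto _).comp (hlim k t)
    refine tendsto_nhds_unique h1 (h2.congr fun n => ?_)
    exact (hsymU n t k i).symm
  · intro k t
    have h1 : Tendsto (fun n => dt k (U n k t)) atTop (𝓝 (dt k (u k t))) := by
      have : Continuous (dt k) := by unfold H356R3.NS.dt; fun_prop
      exact (this.tendsto _).comp (hlim k t)
    have h2 : (fun n => dt k (U n k t)) = fun _ => 0 := funext fun n => hdivU n k t
    rw [h2] at h1
    exact tendsto_nhds_unique h1 tendsto_const_nhds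

end Pool.Agent.N980.WP
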