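import Pool.Agent.N980.WP.Ex3

/-!
Regularity in time of the operator on the Fourier side.
-/

open MeasureTheory Set Filter Topology
open scoped ContDiff

set_option linter.unusedVariables false

namespace Pool.Agent.N980.WP

open Pool.Agent.N980.NU
open Pool.Agent.N980.CB (Rap one_le_R R_pos summ_inv RTs TS)
open Pool.Agent.H356R3.NS (K C3 E3 R3 ex SN Sym RD TT SF SFam Fam cf' at' nk pw fj dS Bf dt dU TT_dU)

variable {R : ℕ} {ℓ : ℕ → ℝ} (X : Fm R ℓ) (w : Wd R ℓ) {ι : Type} [Fintype ι] (Tt : ι → Tr R ℓ) {c T : ℝ}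

/-- The pairing of a sequence with a component of a packet. -/
noncomputable def Fm.c1 (i : Fin 3) (d : K → ℂ) (n : ℕ) : ℝ :=
  (∑ k ∈ (X.fin n).toFinset, d k * star (X.ψ n k i)).re

theorem Fm.co_c1 (x : K → C3) (n : ℕ) : X.co x n = ∑ i, X.c1 i (fun k => x k i) n := by
  rw [X.co_fin, Finset.sum_comm, Complex.re_sum]
  rfl

theorem Fm.c1_RTs (w : Wd R ℓ) (i : Fin 3) {d : SFam} (hd : H356R3.NS.RD d) : RTs R fun n s => X.c1 i (fun k => d k s) n := by
  intro m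
  obtain ⟨b, hb, h⟩ := hd m
  have hb0 : ∀ k, 0 ≤ b k := fun k =>
    (mul_nonneg (pow_pos (H356R3.NS.pw_pos k) m).le (norm_nonneg _)).trans (h k 0)
  have hc := X.c0 w
  refine ⟨X.c * 2 ^ m * ∑' k, b k, fun n s => ?_⟩
  have hR0 := R_pos w.hR n
  calc |X.c1 i (fun k => d k s) n| * ((R : ℝ) ^ n) ^ m
      ≤ (∑ k ∈ (X.fin n).toFinset, ‖d k s‖ * ‖X.ψ n k i‖) * ((R : ℝ) ^ n) ^ m := by
        gcongr
        unfold Fm.c1
        refine (Complex.abs_re_le_norm _).trans ((norm_sum_le _ _).trans (le_of_eq ?_))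
        exact Finset.sum_congr rfl fun k _ => by rw [norm_mul, norm_star]
    _ = ∑ k ∈ (X.fin n).toFinset, ‖d k s‖ * ‖X.ψ n k i‖ * ((R : ℝ) ^ n) ^ m := by rw [Finset.sum_mul]
    _ ≤ ∑ k ∈ (X.fin n).toFinset, X.c * 2 ^ m * b k := by
        refine Finset.sum_le_sum fun k hk => ?_
        have hk0 : X.ψ n k ≠ 0 := (X.fin n).mem_toFinset.1 hk
        have h1 := X.Rpw hk0
        have h2 := (norm_le_pi_norm (X.ψ n k) i).trans (X.sup' w n k)
        have h3 := h k s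
        have h4 : ((R : ℝ) ^ n) ^ m ≤ 2 ^ m * pw k ^ m := by
          rw [← mul_pow]; gcongr
        calc ‖d k s‖ * ‖X.ψ n k i‖ * ((R : ℝ) ^ n) ^ m ≤ ‖d k s‖ * X.c * (2 ^ m * pw k ^ m) := by gcongr
          _ = X.c * 2 ^ m * (pw k ^ m * ‖d k s‖) := by ring
          _ ≤ _ := by gcongr
    _ = X.c * 2 ^ m * ∑ k ∈ (X.fin n).toFinset, b k := by rw [Finset.mul_sum]
    _ ≤ _ := by
        have := hb.sum_le_tsum (X.fin n).toFinset fun k _ => hb0 k
        gcongr

theorem Fm.c1_cont (i : Fin 3) {d : SFam} (hd : ∀ k, Continuous (d k)) (n : ℕ) :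
    Continuous fun s => X.c1 i (fun k => d k s) n := by
  unfold Fm.c1
  exact Complex.continuous_re.comp (continuous_finsetSum _ fun k _ => (hd k).mul continuous_const)

/-- From Fourier families to sequences. -/
theorem Fm.c1_TS (w : Wd R ℓ) (i : Fin 3) {n : ℕ} : ∀ {d : SFam}, TT n d →
    TS R n fun j s => X.c1 i (fun k => d k s) j := by
  induction n with
  | zero =>
    intro d hd
    exact ⟨X.c1_RTs w i hd.1, fun j => X.c1_cont i hd.2 j⟩
  | succ n ih =>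
    intro d hd
    obtain ⟨h1, h2, d', h3, h4⟩ := hd
    refine ⟨X.c1_RTs w i h1, fun j => X.c1_cont i h2 j, fun j s => X.c1 i (fun k => d' k s) j,
      fun j t ht => ?_, ih h4⟩
    have h5 : HasDerivAt (fun s => ∑ k ∈ (X.fin j).toFinset, d k s * star (X.ψ j k i))
        (∑ k ∈ (X.fin j).toFinset, d' k t * star (X.ψ j k i)) t :=
      HasDerivAt.fun_sum fun k _ => (h3 k t ht).mul_const _
    exact Complex.reCLM.hasFDerivAt.comp_hasDerivAt t h5

theorem TS_zero (n : ℕ) : TS R n fun _ _ => (0 : ℝ) := by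
  have h0 : RTs R fun _ _ => (0 : ℝ) := fun m => ⟨0, fun n t => by simp⟩
  induction n with
  | zero => exact ⟨h0, fun j => continuous_const⟩
  | succ n ih => exact ⟨h0, fun j => continuous_const, fun _ _ => 0, fun j t _ => hasDerivAt_const _ _, ih⟩

theorem TS_sum {n : ℕ} {κ : Type*} (s : Finset κ) {f : κ → ℕ → ℝ → ℝ} (h : ∀ i ∈ s, TS R n (f i)) :
    TS R n fun j t => ∑ i ∈ s, f i j t := by
  classical
  induction s using Finset.induction_on with
  | empty => simpa using TS_zero (R := R) n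
  | insert a s ha ih =>
    have h1 := (h a (Finset.mem_insert_self a s)).add (ih fun i hi => h i (Finset.mem_insert_of_mem hi))
    simpa only [Finset.sum_insert ha] using h1

theorem Fm.co_TS (w : Wd R ℓ) {n : ℕ} {u : Fam} (h : ∀ i, TT n (cf' u i)) : TS R n fun j s => X.co (at' u s) j := by
  have e : (fun j s => X.co (at' u s) j) = fun j s => ∑ i, X.c1 i (fun k => cf' u i k s) j := by
    funext j s
    exact X.co_c1 _ j
  rw [e]
  exact TS_sum _ fun i _ => X.c1_TS w i (h i)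

theorem Tr.sf_TS (t : Tr R ℓ) (w : Wd R ℓ) {n : ℕ} {u : Fam} (h : ∀ i, TT n (cf' u i)) :
    TS R n fun j s => t.sf (at' u s) (at' u s) j := by
  have h1 := (TS.cmul t.hκ (t.X.co_TS w h)).mul (t.Y.co_TS w h)
  exact h1

/-- From sequences to Fourier families. -/
theorem Fm.RD_ch (w : Wd R ℓ) {a : ℕ → ℝ → ℝ} (h : RTs R a) (i : Fin 3) :
    H356R3.NS.RD fun k s => X.ch (fun j => a j s) k i := by
  intro m
  obtain ⟨C, hC⟩ := h (m + 2)
  have hC0 : 0 ≤ C := le_trans (by positivity) (hC 0 0)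
  have hc := X.c0 w
  have key := lvl_sum_nn (L := X.L) (F := fun n k => pw k ^ m * (C / ((R : ℝ) ^ n) ^ (m + 2) * ‖X.ψ n k‖))
    (C := fun n => (C * X.c ^ (m + 1)) / (R : ℝ) ^ n) (fun n k => ?_) (fun n k hk => ?_) (fun n => ?_) ?_
    (fun n => ?_)
  · refine ⟨_, key.1, fun k s => ?_⟩
    show pw k ^ m * ‖(a (X.L k) s • X.ψ (X.L k) k) i‖ ≤ _
    have hpw := (H356R3.NS.pw_pos k).le
    rw [Pi.smul_apply, norm_smul, Real.norm_eq_abs]
    refine mul_le_mul_of_nonneg_left ?_ (pow_nonneg hpw m)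
    have h1 := hC (X.L k) s
    have h2 : 0 < ((R : ℝ) ^ X.L k) ^ (m + 2) := pow_pos (R_pos w.hR _) _
    rw [← le_div_iff₀ h2] at h1
    have h3 := norm_le_pi_norm (X.ψ (X.L k) k) i
    exact mul_le_mul h1 h3 (norm_nonneg _) (by positivity)
  · have := (H356R3.NS.pw_pos k).le
    have := (R_pos w.hR n).le
    positivity
  · refine (X.lv n k ?_).1
    intro h0
    apply hk
    simp [h0]
  · exact X.summ n (fun k v => pw k ^ m * (C / ((R : ℝ) ^ n) ^ (m + 2) * ‖v‖)) (by simp)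
  · exact summ_inv w.hR _
  · have e : ∑' k, pw k ^ m * (C / ((R : ℝ) ^ n) ^ (m + 2) * ‖X.ψ n k‖)
        = C / ((R : ℝ) ^ n) ^ (m + 2) * ∑' k, pw k ^ m * ‖X.ψ n k‖ := by
      rw [← tsum_mul_left]
      exact tsum_congr fun k => by ring
    rw [e]
    have h1 := X.wsum w n m
    have hR0 := R_pos w.hR n
    have h2 := w.le n
    calc C / ((R : ℝ) ^ n) ^ (m + 2) * ∑' k, pw k ^ m * ‖X.ψ n k‖
        ≤ C / ((R : ℝ) ^ n) ^ (m + 2) * ((X.c * (R : ℝ) ^ n) ^ m * (X.c * (R : ℝ) ^ n)) := by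
          refine mul_le_mul_of_nonneg_left (h1.trans ?_) (by positivity)
          gcongr
      _ = (C * X.c ^ (m + 1)) / (R : ℝ) ^ n := by
          rw [mul_pow, pow_succ X.c m, pow_add ((R : ℝ) ^ n) m 2]
          field_simp

theorem Fm.TT_ch (w : Wd R ℓ) (i : Fin 3) {n : ℕ} : ∀ {a : ℕ → ℝ → ℝ}, TS R n a →
    TT n fun k s => X.ch (fun j => a j s) k i := by
  have hct : ∀ {a : ℕ → ℝ → ℝ}, (∀ j, Continuous (a j)) → ∀ k, Continuous fun s => X.ch (fun j => a j s) k i := by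
    intro a ha k
    exact (continuous_apply i).comp ((ha (X.L k)).smul continuous_const)
  induction n with
  | zero => intro a ha; exact ⟨X.RD_ch w ha.1 i, hct ha.2⟩
  | succ n ih =>
    intro a ha
    obtain ⟨h1, h2, a', h3, h4⟩ := ha
    refine ⟨X.RD_ch w h1 i, hct h2, _, fun k t ht => ?_, ih h4⟩
    have h5 : HasDerivAt (fun s => a (X.L k) s • X.ψ (X.L k) k) (a' (X.L k) t • X.ψ (X.L k) k) t :=
      (h3 (X.L k) t ht).smul_const _
    exact hasDerivAt_pi.1 h5 i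

theorem TT_KT (w : Wd R ℓ) {u : Fam} {n : ℕ} (h : ∀ i, TT n (cf' u i)) (i : Fin 3) :
    TT n fun k s => KT Tt (at' u s) (at' u s) k i := by
  have h1 : TT n fun k s => ∑ r, (Tt r).ET (at' u s) (at' u s) k i :=
    TT.sum _ fun r _ => (Tt r).Z.TT_ch w i ((Tt r).sf_TS w h)
  have e : (fun k s => KT Tt (at' u s) (at' u s) k i) = fun k s => ∑ r, (Tt r).ET (at' u s) (at' u s) k i := by
    funext k s
    rw [KT_apply, Finset.sum_apply]
  rw [e]
  exact h1

/-- The right hand side as a family. -/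
noncomputable def RKf (c : ℝ) (u : Fam) (i : Fin 3) : SFam := fun k t =>
  dU c u i k t + KT Tt (at' u t) (at' u t) k i

theorem RKf_eq (c : ℝ) (u : Fam) (i : Fin 3) (k : K) (t : ℝ) :
    RKf Tt c u i k t = RK Tt c (at' u t) k i := by
  unfold RKf RK
  rw [Pi.add_apply, Pi.add_apply]
  congr 1
  unfold H356R3.NS.dU Bf H356R3.NS.cvv H356R3.NS.cv at'
  rw [Pi.smul_apply, Complex.real_smul, ← H356R3.NS.nk_sq]
  push_cast
  ring

theorem TT_RKf (w : Wd R ℓ) (c : ℝ) {u : Fam} {n : ℕ} (h : ∀ i, TT n (cf' u i)) (i : Fin 3) :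
    TT n (RKf Tt c u i) := (TT_dU h i).add (TT_KT Tt w h i)

variable {a : K → C3} {u : Fam}

theorem KSol.CC_deriv (h : KSol Tt c T a u) (hT : 0 < T) (i : Fin 3) (k : K) {τ : ℝ} (hτ : 0 < τ) :
    HasDerivAt (cf' (CC 0 T u) i k) (((T - 0 : ℝ) : ℂ) * ((ed τ : ℂ) * RKf Tt c (CC 0 T u) i k τ)) τ := by
  have hm := tc_mem' hT hτ
  have hd := h.ode k (tc 0 T τ) hm
  have hd2 := HasDerivAt.scomp τ hd (tc_deriv 0 T hτ)
  have hd3 := hasDerivAt_pi.1 hd2 i
  refine hd3.congr_deriv ?_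
  rw [RKf_eq, Pi.smul_apply, Complex.real_smul]
  push_cast
  rw [mul_assoc]
  rfl

theorem KSol.CC_TT (h : KSol Tt c T a u) (w : Wd R ℓ) (hT : 0 < T) (n : ℕ) :
    ∀ i, TT n (cf' (CC 0 T u) i) := by
  have hrd : ∀ i, RD (cf' (CC 0 T u) i) := by
    intro i m
    obtain ⟨b, b0, hb, hub⟩ := h.dom m
    refine ⟨_, hb, fun k τ => ?_⟩
    have := (norm_le_pi_norm (u k (tc 0 T τ)) i).trans (hub k (tc 0 T τ))
    exact mul_le_mul_of_nonneg_left this (pow_pos (H356R3.NS.pw_pos k) m).le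
  have hct : ∀ i k, Continuous (cf' (CC 0 T u) i k) := by
    intro i k
    exact (continuous_apply i).comp ((h.cont k).comp (tc_cont 0 T))
  induction n with
  | zero => intro i; exact ⟨hrd i, hct i⟩
  | succ n ih =>
    intro i
    refine ⟨hrd i, hct i, _, fun k τ hτ => h.CC_deriv Tt hT i k hτ, ?_⟩
    exact TT.mul (p := fun _ => ((T - 0 : ℝ) : ℂ)) (C := |T - 0|) (r := 0)
      (fun k => by rw [Complex.norm_real, Real.norm_eq_abs]; simp) (TT.ed (TT_RKf Tt w c ih i))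

end Pool.Agent.N980.WP
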