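import Pool.Agent.N980.CB.Kop
import Pool.Agent.N980.NU.Kp3
import Pool.Agent.H459R3.NS.Main

/-!
Families of packets on the Fourier side.
-/

open MeasureTheory Set Filter Topology
open scoped ContDiff

set_option linter.unusedVariables false

namespace Pool.Agent.N980.WP

open Pool.Agent.N980.NU
open Pool.Agent.N980.CB (Rap one_le_R R_pos summ_inv)
open Pool.Agent.H356R3.NS (K C3 E3 R3 ex SN Sym RD TT SF SFam Fam cf' at' nk pw fj dS Bf dt)

/-- A family of packets: `L k` is the only `n` such that the packet `n` may have the frequency `k`. -/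
structure Fm (R : ℕ) (ℓ : ℕ → ℝ) where
  ψ : ℕ → K → C3
  L : K → ℕ
  c : ℝ
  lvn : ∀ k, L (-k) = L k
  lv : ∀ n k, ψ n k ≠ 0 → L k = n ∧ (R : ℝ) ^ n ≤ 2 * |(k 0 : ℝ)| ∧ pw k ≤ c * (R : ℝ) ^ n
  fin : ∀ n, (Function.support (ψ n)).Finite
  sym : ∀ n, Sym (ψ n)
  sup : ∀ n k, ‖ψ n k‖ ≤ c / ℓ n
  l1 : ∀ n, ∑' k, ‖ψ n k‖ ≤ c * ℓ n
  l2 : ∀ n, ∑' k, ∑ i, ‖ψ n k i‖ ^ 2 ≤ c ^ 2

/-- The conditions on the ratio and the widths. -/
structure Wd (R : ℕ) (ℓ : ℕ → ℝ) : Prop where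
  hR : 2 ≤ R
  one : ∀ n, 1 ≤ ℓ n
  le : ∀ n, ℓ n ≤ (R : ℝ) ^ n

variable {R : ℕ} {ℓ : ℕ → ℝ} (X : Fm R ℓ) (w : Wd R ℓ)

theorem Wd.pos (w : Wd R ℓ) (n : ℕ) : 0 < ℓ n := lt_of_lt_of_le one_pos (w.one n)

include w in
theorem Fm.c0 : 0 ≤ X.c := by
  have h1 := (norm_nonneg _).trans (X.sup 0 0)
  have h2 := w.pos 0
  by_contra hc
  push Not at hc
  exact absurd h1 (not_le.2 (div_neg_of_neg_of_pos hc h2))

include w in
theorem Fm.sup' (n : ℕ) (k : K) : ‖X.ψ n k‖ ≤ X.c :=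
  (X.sup n k).trans (div_le_self (X.c0 w) (w.one n))

theorem Fm.Rpw {n : ℕ} {k : K} (hk : X.ψ n k ≠ 0) : (R : ℝ) ^ n ≤ 2 * pw k := by
  refine ((X.lv n k hk).2.1).trans ?_
  have : |(k 0 : ℝ)| ≤ pw k := by
    simp only [pw, H356R3.NS.l1, Fin.sum_univ_three]
    have := abs_nonneg (k 1 : ℝ)
    have := abs_nonneg (k 2 : ℝ)
    linarith
  linarith

theorem Fm.summ {E : Type*} [NormedAddCommGroup E] (n : ℕ) (f : K → C3 → E)
    (hf : ∀ k, f k 0 = 0) : Summable fun k => f k (X.ψ n k) := by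
  refine summable_of_hasFiniteSupport ((X.fin n).subset fun k hk => ?_)
  intro h0
  exact hk (by simp [h0, hf])

theorem Fm.sn (n : ℕ) : SN (X.ψ n) := X.summ n (fun _ v => ‖v‖) (by simp)

/-! ### sums by levels -/

theorem lvl_sum {E : Type*} [NormedAddCommGroup E] [CompleteSpace E] {L : K → ℕ} {F : ℕ → K → E}
    (hF : ∀ n k, F n k ≠ 0 → L k = n) (hs : ∀ n, Summable fun k => ‖F n k‖)
    (hn : Summable fun n => ∑' k, ‖F n k‖) :
    (Summable fun k => ‖F (L k) k‖) ∧ HasSum (fun n => ∑' k, F n k) (∑' k, F (L k) k) := by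
  have hprod : Summable fun p : ℕ × K => ‖F p.1 p.2‖ := by
    rw [summable_prod_of_nonneg fun p => norm_nonneg _]
    exact ⟨hs, hn⟩
  have hsw : Summable fun p : K × ℕ => ‖F p.2 p.1‖ := hprod.prod_symm
  have hone : ∀ k, ∑' n, ‖F n k‖ = ‖F (L k) k‖ := by
    intro k
    refine tsum_eq_single (L k) fun n hn => ?_
    rw [norm_eq_zero]
    by_contra h0
    exact hn (hF n k h0).symm
  have hone' : ∀ k, ∑' n, F n k = F (L k) k := by
    intro k
    refine tsum_eq_single (L k) fun n hn => ?_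
    by_contra h0
    exact hn (hF n k h0).symm
  constructor
  · have := ((summable_prod_of_nonneg fun p => norm_nonneg _).1 hsw).2
    refine this.congr fun k => ?_
    exact hone k
  · have h1 : Summable fun p : ℕ × K => F p.1 p.2 := hprod.of_norm
    have h2 : ∑' n, ∑' k, F n k = ∑' k, ∑' n, F n k := (Summable.tsum_comm (f := F) h1).symm
    have h3 : Summable fun n => ∑' k, F n k := h1.prod
    rw [← tsum_congr hone', ← h2]
    exact h3.hasSum

/-- Sums by levels, for non-negative functions. -/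
theorem lvl_sum_nn {L : K → ℕ} {F : ℕ → K → ℝ} (h0 : ∀ n k, 0 ≤ F n k) (hF : ∀ n k, F n k ≠ 0 → L k = n)
    (hs : ∀ n, Summable fun k => F n k) {C : ℕ → ℝ} (hC : Summable C) (hb : ∀ n, ∑' k, F n k ≤ C n) :
    (Summable fun k => F (L k) k) ∧ ∑' k, F (L k) k ≤ ∑' n, C n := by
  have hs' : ∀ n, Summable fun k => ‖F n k‖ := fun n => by
    refine (hs n).congr fun k => ?_
    rw [Real.norm_of_nonneg (h0 n k)]
  have e : ∀ n, ∑' k, ‖F n k‖ = ∑' k, F n k := fun n => tsum_congr fun k => Real.norm_of_nonneg (h0 n k)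
  have hn : Summable fun n => ∑' k, ‖F n k‖ :=
    hC.of_nonneg_of_le (fun n => tsum_nonneg fun _ => norm_nonneg _) fun n => by rw [e]; exact hb n
  obtain ⟨h1, h2⟩ := lvl_sum hF hs' hn
  refine ⟨h1.congr fun k => by rw [Real.norm_of_nonneg (h0 _ k)], ?_⟩
  rw [← h2.tsum_eq]
  exact (h2.summable).tsum_le_tsum hb hC

theorem ite_le {L : K → ℕ} {g : K → ℝ} (h0 : ∀ k, 0 ≤ g k) (n : ℕ) (k : K) :
    (if L k = n then g k else 0) ≤ g k := by
  split_ifs
  · exact le_rfl
  · exact h0 k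

theorem ite_nn {L : K → ℕ} {g : K → ℝ} (h0 : ∀ k, 0 ≤ g k) (n : ℕ) (k : K) :
    0 ≤ (if L k = n then g k else 0) := by
  split_ifs
  · exact h0 k
  · exact le_rfl

theorem ite_summ {L : K → ℕ} {g : K → ℝ} (h0 : ∀ k, 0 ≤ g k) (hg : Summable g) (n : ℕ) :
    Summable fun k => (if L k = n then g k else 0) :=
  hg.of_nonneg_of_le (ite_nn h0 n) (ite_le h0 n)

/-- The part of a summable function at the level `n`. -/
theorem lvl_split {L : K → ℕ} {g : K → ℝ} (h0 : ∀ k, 0 ≤ g k) (hg : Summable g) :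
    HasSum (fun n => ∑' k, if L k = n then g k else 0) (∑' k, g k) := by
  have hF : ∀ (n : ℕ) (k : K), (if L k = n then g k else 0) ≠ 0 → L k = n := by
    intro n k h
    by_contra hc
    rw [if_neg hc] at h
    exact h rfl
  have e : ∀ (n : ℕ) (k : K), ‖(if L k = n then g k else 0 : ℝ)‖ = (if L k = n then g k else 0) := fun n k =>
    Real.norm_of_nonneg (ite_nn h0 n k)
  have hs : ∀ n, Summable fun k => ‖(if L k = n then g k else 0 : ℝ)‖ := fun n =>
    (ite_summ h0 hg n).congr fun k => (e n k).symm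
  have hn : Summable fun n => ∑' k, ‖(if L k = n then g k else 0 : ℝ)‖ := by
    refine summable_of_sum_le (c := ∑' k, g k) (fun n => tsum_nonneg fun _ => norm_nonneg _) fun S => ?_
    simp only [e]
    rw [← Summable.tsum_finsetSum fun n _ => ite_summ h0 hg n]
    refine Summable.tsum_le_tsum (fun k => ?_) (summable_sum fun n _ => ite_summ h0 hg n) hg
    rw [Finset.sum_ite_eq]
    split_ifs
    · exact le_rfl
    · exact h0 k
  have h1 := (lvl_sum (F := fun n k => if L k = n then g k else 0) hF hs hn).2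
  simpa using h1

theorem lvl_part_le {L : K → ℕ} {g : K → ℝ} (h0 : ∀ k, 0 ≤ g k) (hg : Summable g) (n : ℕ) :
    ∑' k, (if L k = n then g k else 0) ≤ ∑' k, g k :=
  Summable.tsum_le_tsum (ite_le h0 n) (ite_summ h0 hg n) hg

/-! ### fields carried by the family -/

/-- The coefficients of the field `∑ aₙ ψₙ`. -/
noncomputable def Fm.ch (a : ℕ → ℝ) (k : K) : C3 := a (X.L k) • X.ψ (X.L k) k

/-- The field with the coefficients `x`. -/
noncomputable def fd (x : K → C3) (y : V) : V := fun i => (fs (fun k => x k i) y).re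

/-- Weighted sums of a packet. -/
theorem Fm.wsum (w : Wd R ℓ) (n m : ℕ) : ∑' k, pw k ^ m * ‖X.ψ n k‖ ≤ (X.c * (R : ℝ) ^ n) ^ m * (X.c * ℓ n) := by
  have hs := X.summ n (fun k v => pw k ^ m * ‖v‖) (by simp)
  have hs2 := (X.sn n).mul_left ((X.c * (R : ℝ) ^ n) ^ m)
  have hc := X.c0 w
  have hRn := R_pos w.hR n
  refine (hs.tsum_le_tsum (fun k => ?_) hs2).trans ?_
  · by_cases hk : X.ψ n k = 0
    · rw [hk]; simp
    · have := (X.lv n k hk).2.2
      have := (H356R3.NS.pw_pos k).le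
      gcongr
  · rw [tsum_mul_left]
    have := X.l1 n
    gcongr

theorem Fm.sumw (w : Wd R ℓ) {a : ℕ → ℝ} (ha : Rap R a) (m : ℕ) :
    Summable fun n => |a n| * ((X.c * (R : ℝ) ^ n) ^ m * (X.c * ℓ n)) := by
  have hc := X.c0 w
  have h1 := (ha.summable w.hR (m + 1)).mul_left (X.c ^ m * X.c)
  refine h1.of_nonneg_of_le (fun n => ?_) fun n => ?_
  · have := (w.pos n).le
    have := R_pos w.hR n
    positivity
  · have h2 := w.le n
    have h3 := R_pos w.hR n
    calc |a n| * ((X.c * (R : ℝ) ^ n) ^ m * (X.c * ℓ n))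
        ≤ |a n| * ((X.c * (R : ℝ) ^ n) ^ m * (X.c * (R : ℝ) ^ n)) := by gcongr
      _ = X.c ^ m * X.c * (|a n| * ((R : ℝ) ^ n) ^ (m + 1)) := by rw [mul_pow, pow_succ ((R : ℝ) ^ n) m]; ring

theorem Fm.ch_summ (w : Wd R ℓ) {a : ℕ → ℝ} (ha : Rap R a) (m : ℕ) :
    Summable fun k => pw k ^ m * ‖X.ch a k‖ := by
  have h1 := (lvl_sum_nn (L := X.L) (F := fun n k => |a n| * (pw k ^ m * ‖X.ψ n k‖)) (fun n k => by
      have := (H356R3.NS.pw_pos k).le
      positivity)
    (fun n k hk => ?_) (fun n => (X.summ n (fun k v => pw k ^ m * ‖v‖) (by simp)).mul_left _)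
    (X.sumw w ha m) fun n => ?_).1
  · refine h1.congr fun k => ?_
    unfold Fm.ch
    rw [norm_smul, Real.norm_eq_abs]
    ring
  · refine (X.lv n k ?_).1
    intro h0
    apply hk
    simp [h0]
  · rw [tsum_mul_left]
    exact mul_le_mul_of_nonneg_left (X.wsum w n m) (abs_nonneg _)

theorem RD_of_summ {a : K → ℂ} (h : ∀ m : ℕ, Summable fun k => pw k ^ m * ‖a k‖) : RD (cst a) :=
  fun m => ⟨_, h m, fun k t => le_rfl⟩

theorem RD_of_vec {a : K → C3} (h : ∀ m : ℕ, Summable fun k => pw k ^ m * ‖a k‖) (i : Fin 3) :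
    RD (cst fun k => a k i) := by
  refine RD_of_summ fun m => ?_
  refine (h m).of_nonneg_of_le (fun k => ?_) fun k => ?_
  · have := (H356R3.NS.pw_pos k).le
    positivity
  · exact mul_le_mul_of_nonneg_left (norm_le_pi_norm _ i) (pow_pos (H356R3.NS.pw_pos k) m).le

theorem Fm.ch_RD (w : Wd R ℓ) {a : ℕ → ℝ} (ha : Rap R a) (i : Fin 3) : RD (cst fun k => X.ch a k i) :=
  RD_of_vec (X.ch_summ w ha) i

theorem Fm.ch_SN (w : Wd R ℓ) {a : ℕ → ℝ} (ha : Rap R a) : SN (X.ch a) :=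
  SN_of_comp fun i => RD_summ (X.ch_RD w ha i)

theorem Fm.ch_Sym (a : ℕ → ℝ) : Sym (X.ch a) := by
  intro k i
  unfold Fm.ch
  rw [X.lvn, Pi.smul_apply, Pi.smul_apply, star_smul, star_trivial, X.sym]

/-- The packets are divergence-free. -/
def Fm.Dv : Prop := ∀ n k, dt k (X.ψ n k) = 0

theorem dt_smul' (k : K) (r : ℝ) (v : C3) : dt k (r • v) = r • dt k v := by
  simp only [H356R3.NS.dt, Finset.smul_sum, Pi.smul_apply]
  exact Finset.sum_congr rfl fun i _ => by simp; ring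

theorem Fm.ch_dt (hd : X.Dv) (a : ℕ → ℝ) (k : K) : dt k (X.ch a k) = 0 := by
  unfold Fm.ch
  rw [dt_smul', hd, smul_zero]

/-- The field carried by the family. -/
noncomputable def Fm.CF (a : ℕ → ℝ) : V → V := fd (X.ch a)

theorem SPV_fd {a : K → C3} (h : ∀ i, RD (cst fun k => a k i)) : SPV (fd a) := by
  refine ⟨contDiff_pi.2 fun i => fs_smooth (h i), fun x j => ?_⟩
  funext i
  simp only [fd, fs_per]

theorem dv_fd {a : K → C3} (h : ∀ i, RD (cst fun k => a k i)) (hd : ∀ k, dt k (a k) = 0) (x : V) :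
    dv (fd a) x = 0 := by
  unfold dv fd
  simp only [pd_fs (h _)]
  rw [← Complex.re_sum, ← fs_finsum Finset.univ (a := fun j k => fj k j * a k j)
    (fun j _ => RD_summ (RD_fj (h j) j))]
  have : (fun k => ∑ j, fj k j * a k j) = fun _ => 0 := by
    funext k
    have h1 := hd k
    unfold H356R3.NS.dt at h1
    unfold fj
    calc ∑ j, 2 * Real.pi * Complex.I * (k j : ℂ) * a k j
        = 2 * Real.pi * Complex.I * ∑ j, (k j : ℂ) * a k j := by
          rw [Finset.mul_sum]; exact Finset.sum_congr rfl fun j _ => by ring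
      _ = 0 := by rw [h1, mul_zero]
  rw [this]
  simp [fs]

theorem Fm.SPV_CF (w : Wd R ℓ) {a : ℕ → ℝ} (ha : Rap R a) : SPV (X.CF a) := SPV_fd (X.ch_RD w ha)

theorem Fm.dv_CF (w : Wd R ℓ) (hd : X.Dv) {a : ℕ → ℝ} (ha : Rap R a) (x : V) : dv (X.CF a) x = 0 :=
  dv_fd (X.ch_RD w ha) (X.ch_dt hd a) x

theorem Fm.RD (n : ℕ) (i : Fin 3) : RD (cst fun k => X.ψ n k i) :=
  RD_of_summ fun m => X.summ n (fun k v => pw k ^ m * ‖v i‖) (by simp)

/-- The packets as fields. -/
noncomputable def Fm.F (n : ℕ) : V → V := fd (X.ψ n)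

theorem Fm.spv (n : ℕ) : SPV (X.F n) := SPV_fd (X.RD n)

/-- The field as a series. -/
theorem Fm.hasSum_CF (w : Wd R ℓ) {a : ℕ → ℝ} (ha : Rap R a) (x : V) :
    HasSum (fun n => a n • X.F n x) (X.CF a x) := by
  refine Pi.hasSum.2 fun i => ?_
  have h1 := (lvl_sum (L := X.L) (F := fun n k => ((a n : ℝ) : ℂ) * (X.ψ n k i * ex k x)) (fun n k hk => ?_)
    (fun n => ?_) ?_).2
  · have h2 := Complex.hasSum_re h1
    have e : (∑' k, ((a (X.L k) : ℝ) : ℂ) * (X.ψ (X.L k) k i * ex k x)).re = X.CF a x i := by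
      unfold Fm.CF fd fs
      congr 1
      refine tsum_congr fun k => ?_
      show _ = (a (X.L k) • X.ψ (X.L k) k) i * ex k x
      rw [Pi.smul_apply, Complex.real_smul]
      ring
    rw [e] at h2
    refine h2.congr_fun fun n => ?_
    rw [tsum_mul_left, Complex.re_ofReal_mul, Pi.smul_apply, smul_eq_mul]
    rfl
  · refine (X.lv n k ?_).1
    intro h0
    apply hk
    simp [h0]
  · simp only [norm_mul, H356R3.NS.norm_ex, mul_one]
    exact (X.summ n (fun k v => ‖v i‖) (by simp)).mul_left _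
  · refine (X.sumw w ha 0).of_nonneg_of_le (fun n => tsum_nonneg fun _ => norm_nonneg _) fun n => ?_
    simp only [norm_mul, H356R3.NS.norm_ex, mul_one]
    rw [tsum_mul_left, Complex.norm_real, Real.norm_eq_abs, pow_zero, one_mul]
    refine mul_le_mul_of_nonneg_left ?_ (abs_nonneg _)
    refine ((X.summ n (fun k v => ‖v i‖) (by simp)).tsum_le_tsum (fun k => norm_le_pi_norm _ i) (X.sn n)).trans
      (X.l1 n)

/-! ### the coefficients of a field -/

/-- The coefficient on the packet `n`. -/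
noncomputable def Fm.co (x : K → C3) (n : ℕ) : ℝ := (∑' k, ∑ i, x k i * star (X.ψ n k i)).re

/-- The coefficient `∫ v · ψₙ`. -/
noncomputable def Fm.cs (v : V → V) (n : ℕ) : ℝ := ip v (X.F n)

theorem Fm.cs_eq {v : V → V} (hv : Continuous v) (n : ℕ) : X.cs v n = X.co (fco v) n := by
  unfold Fm.cs Fm.co
  rw [ip_comm]
  have h1 : ip (X.F n) v = (∑' k, ∑ i, X.ψ n k i * star (fco v k i)).re := ip_fs (X.sn n) (X.sym n) hv
  rw [h1]
  have e : ∑' k, ∑ i, X.ψ n k i * star (fco v k i) = star (∑' k, ∑ i, fco v k i * star (X.ψ n k i)) := by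
    rw [tsum_star]
    refine tsum_congr fun k => ?_
    rw [star_sum]
    refine Finset.sum_congr rfl fun i _ => ?_
    rw [star_mul', star_star, mul_comm]
  rw [e]
  simp

theorem Fm.cot (x : K → C3) (n : ℕ) : Summable fun k => ∑ i, x k i * star (X.ψ n k i) :=
  X.summ n (fun k v => ∑ i, x k i * star (v i)) (by simp)

theorem norm_pair_le (v w : C3) : ‖∑ i, v i * star (w i)‖ ≤ 3 * (‖v‖ * ‖w‖) := by
  refine (norm_sum_le _ _).trans ?_
  have : ∀ i ∈ (Finset.univ : Finset (Fin 3)), ‖v i * star (w i)‖ ≤ ‖v‖ * ‖w‖ := fun i _ => by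
    rw [norm_mul, norm_star]
    exact mul_le_mul (norm_le_pi_norm _ i) (norm_le_pi_norm _ i) (norm_nonneg _) (norm_nonneg _)
  refine (Finset.sum_le_sum this).trans (le_of_eq ?_)
  simp

theorem Fm.co_abs (x : K → C3) (n : ℕ) : |X.co x n| ≤ ∑' k, 3 * (‖x k‖ * ‖X.ψ n k‖) := by
  have hs : Summable fun k => 3 * (‖x k‖ * ‖X.ψ n k‖) :=
    X.summ n (fun k v => 3 * (‖x k‖ * ‖v‖)) (by simp)
  exact (Complex.abs_re_le_norm _).trans (tsum_of_norm_bounded hs.hasSum fun k => norm_pair_le _ _)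

/-- Bound of a coefficient by a majorant. -/
theorem Fm.co_le (w : Wd R ℓ) {x : K → C3} {b : K → ℝ} (b0 : ∀ k, 0 ≤ b k) (hx : ∀ k, ‖x k‖ ≤ b k)
    (m n : ℕ) (hb : Summable fun k => pw k ^ m * b k) :
    |X.co x n| * ((R : ℝ) ^ n) ^ m
      ≤ 3 * 2 ^ m * (X.c / ℓ n) * ∑' k, (if X.L k = n then pw k ^ m * b k else 0) := by
  have hc := X.c0 w
  have hln := w.pos n
  have hA : 0 ≤ X.c / ℓ n := by positivity
  have hpw := H356R3.NS.pw_pos
  have hs : Summable fun k => 3 * (‖x k‖ * ‖X.ψ n k‖) :=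
    X.summ n (fun k v => 3 * (‖x k‖ * ‖v‖)) (by simp)
  have h0 : ∀ k, 0 ≤ pw k ^ m * b k := fun k => mul_nonneg (pow_pos (hpw k) m).le (b0 k)
  have hs2 := ite_summ (L := X.L) h0 hb n
  calc |X.co x n| * ((R : ℝ) ^ n) ^ m ≤ (∑' k, 3 * (‖x k‖ * ‖X.ψ n k‖)) * ((R : ℝ) ^ n) ^ m := by
        gcongr; exact X.co_abs x n
    _ = ∑' k, 3 * (‖x k‖ * ‖X.ψ n k‖) * ((R : ℝ) ^ n) ^ m := by rw [tsum_mul_right]
    _ ≤ ∑' k, 3 * 2 ^ m * (X.c / ℓ n) * (if X.L k = n then pw k ^ m * b k else 0) := by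
        refine (hs.mul_right _).tsum_le_tsum (fun k => ?_) (hs2.mul_left _)
        by_cases hk : X.ψ n k = 0
        · rw [hk]
          simp only [norm_zero, mul_zero, zero_mul]
          have := ite_nn (L := X.L) h0 n k
          positivity
        · obtain ⟨l1, l2, l3⟩ := X.lv n k hk
          rw [if_pos l1]
          have h1 := X.Rpw hk
          have h2 := X.sup n k
          have h3 := hx k
          have h4 : ((R : ℝ) ^ n) ^ m ≤ 2 ^ m * pw k ^ m := by
            rw [← mul_pow]; gcongr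
          have := b0 k
          calc 3 * (‖x k‖ * ‖X.ψ n k‖) * ((R : ℝ) ^ n) ^ m ≤ 3 * (b k * (X.c / ℓ n)) * (2 ^ m * pw k ^ m) := by
                gcongr
            _ = _ := by ring
    _ = _ := by rw [tsum_mul_left]

theorem spv_RV {v : V → V} (hv : SPV v) (m : ℕ) : Summable fun k => pw k ^ m * ‖fco v k‖ := by
  have h1 : ∀ i, Summable fun k => pw k ^ m * ‖fco v k i‖ := by
    intro i
    obtain ⟨b, hb, h⟩ := hv.rd i m
    exact hb.of_nonneg_of_le (fun k => mul_nonneg (pow_pos (H356R3.NS.pw_pos k) m).le (norm_nonneg _))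
      fun k => h k 0
  refine (summable_sum fun i (_ : i ∈ Finset.univ) => h1 i).of_nonneg_of_le
    (fun k => mul_nonneg (pow_pos (H356R3.NS.pw_pos k) m).le (norm_nonneg _)) fun k => ?_
  rw [← Finset.mul_sum]
  refine mul_le_mul_of_nonneg_left ?_ (pow_pos (H356R3.NS.pw_pos k) m).le
  rw [pi_norm_le_iff_of_nonneg (Finset.sum_nonneg fun _ _ => norm_nonneg _)]
  intro i
  exact Finset.single_le_sum (f := fun i => ‖fco v k i‖) (fun _ _ => norm_nonneg _) (Finset.mem_univ i)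

/-- Rapid decay of the coefficients. -/
theorem Fm.Rap_co (w : Wd R ℓ) {x : K → C3} (hx : ∀ m : ℕ, Summable fun k => pw k ^ m * ‖x k‖) :
    Rap R (X.co x) := by
  intro m
  have hpw := H356R3.NS.pw_pos
  have hs := hx m
  have h0 : ∀ k, 0 ≤ pw k ^ m * ‖x k‖ := fun k => mul_nonneg (pow_pos (hpw k) m).le (norm_nonneg _)
  refine ⟨3 * 2 ^ m * X.c * ∑' k, pw k ^ m * ‖x k‖, fun n => ?_⟩
  refine (X.co_le w (fun k => norm_nonneg _) (fun k => le_rfl) m n hs).trans ?_
  have h1 := lvl_part_le (L := X.L) h0 hs n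
  have h3 : 0 ≤ ∑' k, (if X.L k = n then pw k ^ m * ‖x k‖ else 0) := tsum_nonneg (ite_nn h0 n)
  have h5 := X.c0 w
  have h2 : X.c / ℓ n ≤ X.c := div_le_self h5 (w.one n)
  gcongr

theorem Fm.Rap_cs (w : Wd R ℓ) {v : V → V} (hv : SPV v) : Rap R (X.cs v) := by
  have : X.cs v = X.co (fco v) := funext fun n => X.cs_eq hv.cont n
  rw [this]
  exact X.Rap_co w (spv_RV hv)

theorem norm_fco_le {v : V → V} (k : K) (i : Fin 3) : ‖fco v k i‖ ≤ ∫ x in cube, |v x i| := by
  rw [fco_eq_ex]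
  refine (norm_integral_le_integral_norm _).trans (le_of_eq ?_)
  congr 1
  funext x
  rw [norm_mul, H356R3.NS.norm_ex, mul_one, Complex.norm_real, Real.norm_eq_abs]

/-- The inner product with a field carried by the family. -/
theorem Fm.ip_CF (w : Wd R ℓ) {a : ℕ → ℝ} (ha : Rap R a) {v : V → V} (hv : Continuous v) :
    HasSum (fun n => a n * X.cs v n) (ip (X.CF a) v) := by
  have h1 : ip (X.CF a) v = (∑' k, ∑ i, X.ch a k i * star (fco v k i)).re :=
    ip_fs (X.ch_SN w ha) (X.ch_Sym a) hv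
  obtain ⟨D, hD⟩ : ∃ D, ∀ k, ‖fco v k‖ ≤ D := by
    refine ⟨∑ i, ∫ x in cube, |v x i|, fun k => ?_⟩
    rw [pi_norm_le_iff_of_nonneg (Finset.sum_nonneg fun _ _ => integral_nonneg fun _ => abs_nonneg _)]
    intro i
    exact (norm_fco_le k i).trans (Finset.single_le_sum (f := fun i => ∫ x in cube, |v x i|)
      (fun _ _ => integral_nonneg fun _ => abs_nonneg _) (Finset.mem_univ i))
  have hD0 : 0 ≤ D := (norm_nonneg _).trans (hD 0)
  have h2 := (lvl_sum (L := X.L) (F := fun n k => ((a n : ℝ) : ℂ) * ∑ i, X.ψ n k i * star (fco v k i))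
    (fun n k hk => ?_) (fun n => ?_) ?_).2
  · have h3 := Complex.hasSum_re h2
    have e : (∑' k, ((a (X.L k) : ℝ) : ℂ) * ∑ i, X.ψ (X.L k) k i * star (fco v k i)).re = ip (X.CF a) v := by
      rw [h1]
      congr 1
      refine tsum_congr fun k => ?_
      rw [Finset.mul_sum]
      refine Finset.sum_congr rfl fun i _ => ?_
      show _ = (a (X.L k) • X.ψ (X.L k) k) i * _
      rw [Pi.smul_apply, Complex.real_smul]
      ring
    rw [e] at h3
    refine h3.congr_fun fun n => ?_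
    rw [tsum_mul_left, Complex.re_ofReal_mul]
    congr 1
    unfold Fm.cs
    rw [ip_comm]
    exact ip_fs (X.sn n) (X.sym n) hv
  · refine (X.lv n k ?_).1
    intro h0
    apply hk
    simp [h0]
  · exact X.summ n (fun k v' => ‖((a n : ℝ) : ℂ) * ∑ i, v' i * star (fco v k i)‖) (by simp)
  · refine ((X.sumw w ha 0).mul_left (3 * D)).of_nonneg_of_le (fun n => tsum_nonneg fun _ => norm_nonneg _)
      fun n => ?_
    have hle : ∀ k, ‖((a n : ℝ) : ℂ) * ∑ i, X.ψ n k i * star (fco v k i)‖ ≤ (3 * D * |a n|) * ‖X.ψ n k‖ := by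
      intro k
      rw [norm_mul, Complex.norm_real, Real.norm_eq_abs]
      calc |a n| * ‖∑ i, X.ψ n k i * star (fco v k i)‖ ≤ |a n| * (3 * (‖X.ψ n k‖ * ‖fco v k‖)) := by
            gcongr; exact norm_pair_le _ _
        _ ≤ |a n| * (3 * (‖X.ψ n k‖ * D)) := by
            have := hD k
            gcongr
        _ = _ := by ring
    refine (Summable.tsum_le_tsum hle (X.summ n (fun k v' => ‖((a n : ℝ) : ℂ) * ∑ i, v' i * star (fco v k i)‖)
      (by simp)) ((X.sn n).mul_left _)).trans ?_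
    rw [tsum_mul_left, pow_zero, one_mul]
    have := X.l1 n
    calc 3 * D * |a n| * ∑' k, ‖X.ψ n k‖ ≤ 3 * D * |a n| * (X.c * ℓ n) := by gcongr
      _ = _ := by ring

theorem Fm.fco_CF (w : Wd R ℓ) {a : ℕ → ℝ} (ha : Rap R a) : fco (X.CF a) = X.ch a := by
  funext k i
  exact fco_fs (X.ch_SN w ha) (X.ch_Sym a) k i

/-! ### linearity -/

theorem Fm.CF_add (w : Wd R ℓ) {a b : ℕ → ℝ} (ha : Rap R a) (hb : Rap R b) :
    X.CF (fun n => a n + b n) = X.CF a + X.CF b := by
  funext x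
  have h1 := X.hasSum_CF w (ha.add hb) x
  have h2 := (X.hasSum_CF w ha x).add (X.hasSum_CF w hb x)
  refine h1.unique (h2.congr_fun fun n => ?_)
  rw [add_smul]

theorem Fm.CF_smul (w : Wd R ℓ) {a : ℕ → ℝ} (ha : Rap R a) (r : ℝ) :
    X.CF (fun n => r * a n) = r • X.CF a := by
  funext x
  have h1 := X.hasSum_CF w (ha.mul (b := fun _ => r) (C := |r|) (r := 0) (fun n => by simp)) x
  have h2 := (X.hasSum_CF w ha x).const_smul r
  refine h1.unique (h2.congr_fun fun n => ?_)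
  rw [mul_smul]

theorem int_ip {v w : V → V} (hv : Continuous v) (hw : Continuous w) :
    IntegrableOn (fun x => ∑ i, v x i * w x i) cube :=
  int_on_cube (continuous_finsetSum _ fun i _ => ((continuous_apply i).comp hv).mul ((continuous_apply i).comp hw))

theorem ip_add {u v w : V → V} (hu : Continuous u) (hv : Continuous v) (hw : Continuous w) :
    ip (u + v) w = ip u w + ip v w := by
  unfold ip
  rw [← integral_add (int_ip hu hw) (int_ip hv hw)]
  congr 1
  funext x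
  rw [← Finset.sum_add_distrib]
  exact Finset.sum_congr rfl fun i _ => by rw [Pi.add_apply, Pi.add_apply]; ring

theorem ip_smul (r : ℝ) (u w : V → V) : ip (r • u) w = r * ip u w := by
  unfold ip
  rw [← integral_const_mul]
  congr 1
  funext x
  rw [Finset.mul_sum]
  exact Finset.sum_congr rfl fun i _ => by rw [Pi.smul_apply, Pi.smul_apply, smul_eq_mul]; ring

theorem Fm.cs_add {u v : V → V} (hu : Continuous u) (hv : Continuous v) (n : ℕ) :
    X.cs (u + v) n = X.cs u n + X.cs v n := ip_add hu hv (X.spv n).cont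

theorem Fm.cs_smul (u : V → V) (r : ℝ) (n : ℕ) : X.cs (r • u) n = r * X.cs u n := ip_smul r u _

end Pool.Agent.N980.WP
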