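import Pool.Agent.N980.WP.Der

/-!
The Fejér weights and the Fejér kernel.
-/

open MeasureTheory Set Filter Topology
open scoped ContDiff

set_option linter.unusedVariables false

namespace Pool.Agent.N980.WP

open Pool.Agent.N980.NU
open Pool.Agent.H356R3.NS (K C3 E3 R3 ex SN Sym RD TT SF SFam Fam cf' at' nk pw fj dS Bf dt)

/-- The Fejér weights. -/
noncomputable def fw (L : ℕ) (j : ℤ) : ℝ := max 0 (1 - |(j : ℝ)| / ((L : ℝ) + 1))

theorem fw_nonneg (L : ℕ) (j : ℤ) : 0 ≤ fw L j := le_max_left _ _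

theorem fw_le_one (L : ℕ) (j : ℤ) : fw L j ≤ 1 := by
  unfold fw
  refine max_le zero_le_one ?_
  have : 0 ≤ |(j : ℝ)| / ((L : ℝ) + 1) := by positivity
  linarith

theorem fw_neg (L : ℕ) (j : ℤ) : fw L (-j) = fw L j := by
  unfold fw
  push_cast
  rw [abs_neg]

theorem fw_zero (L : ℕ) : fw L 0 = 1 := by
  unfold fw
  simp

theorem fw_out {L : ℕ} {j : ℤ} (h : (L : ℤ) < |j|) : fw L j = 0 := by
  unfold fw
  refine max_eq_left ?_
  have h1 : ((L : ℝ) + 1) ≤ |(j : ℝ)| := by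
    have : (L : ℤ) + 1 ≤ |j| := h
    exact_mod_cast this
  have h2 : 0 < (L : ℝ) + 1 := by positivity
  have h3 : 1 ≤ |(j : ℝ)| / ((L : ℝ) + 1) := by rwa [le_div_iff₀ h2, one_mul]
  linarith

theorem fw_in {L : ℕ} {j : ℤ} (h : |j| ≤ (L : ℤ)) : fw L j = 1 - |(j : ℝ)| / ((L : ℝ) + 1) := by
  unfold fw
  refine max_eq_right ?_
  have h1 : |(j : ℝ)| ≤ (L : ℝ) := by exact_mod_cast h
  have h2 : 0 < (L : ℝ) + 1 := by positivity
  have h3 : |(j : ℝ)| / ((L : ℝ) + 1) ≤ 1 := by rw [div_le_one h2]; linarith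
  linarith

theorem fw_pos {L : ℕ} {j : ℤ} (h : fw L j ≠ 0) : |j| ≤ (L : ℤ) := by
  by_contra hc
  push Not at hc
  exact h (fw_out hc)

theorem fw_supp (L : ℕ) {j : ℤ} (h : j ∉ Finset.Icc (-(L : ℤ)) L) : fw L j = 0 := by
  refine fw_out ?_
  rw [Finset.mem_Icc] at h
  by_contra hc
  push Not at hc
  exact h (abs_le.1 hc)

theorem fw_fin (L : ℕ) : (Function.support (fw L)).Finite := by
  refine (Finset.finite_toSet (Finset.Icc (-(L : ℤ)) L)).subset fun j hj => ?_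
  by_contra hc
  exact hj (fw_supp L (by simpa using hc))

/-- Sums over symmetric intervals. -/
theorem sumI {E : Type*} [AddCommGroup E] (f : ℤ → E) (L : ℕ) :
    ∑ j ∈ Finset.Icc (-(L : ℤ)) L, f j = f 0 + ∑ j ∈ Finset.range L, (f (j + 1) + f (-(j + 1))) := by
  induction L with
  | zero => simp
  | succ L ih =>
    have e : Finset.Icc (-((L + 1 : ℕ) : ℤ)) ((L + 1 : ℕ) : ℤ)
        = insert (-((L : ℤ) + 1)) (insert ((L : ℤ) + 1) (Finset.Icc (-(L : ℤ)) L)) := by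
      ext j
      simp only [Finset.mem_Icc, Finset.mem_insert]
      push_cast
      omega
    have h1 : -((L : ℤ) + 1) ∉ insert ((L : ℤ) + 1) (Finset.Icc (-(L : ℤ)) L) := by
      simp only [Finset.mem_insert, Finset.mem_Icc]
      omega
    have h2 : (L : ℤ) + 1 ∉ Finset.Icc (-(L : ℤ)) L := by
      simp only [Finset.mem_Icc]
      omega
    rw [e, Finset.sum_insert h1, Finset.sum_insert h2, ih, Finset.sum_range_succ]
    abel

theorem fw_sum (L : ℕ) : ∑ j ∈ Finset.Icc (-(L : ℤ)) L, fw L j = (L : ℝ) + 1 := by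
  have h1 : ∑ j ∈ Finset.Icc (-(L : ℤ)) L, fw L j
      = ∑ j ∈ Finset.Icc (-(L : ℤ)) L, (1 - |(j : ℝ)| / ((L : ℝ) + 1)) :=
    Finset.sum_congr rfl fun j hj => fw_in (abs_le.2 (Finset.mem_Icc.1 hj))
  have h2 : ∀ M : ℕ, ∑ j ∈ Finset.Icc (-(M : ℤ)) M, |(j : ℝ)| = (M : ℝ) * (M + 1) := by
    intro M
    rw [sumI]
    induction M with
    | zero => simp
    | succ M ih =>
      rw [Finset.sum_range_succ, ← add_assoc, ih]
      push_cast
      rw [abs_neg, abs_of_nonneg (by positivity : (0 : ℝ) ≤ (M : ℝ) + 1)]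
      ring
  have h3 : (0 : ℝ) < (L : ℝ) + 1 := by positivity
  rw [h1, Finset.sum_sub_distrib, ← Finset.sum_div, h2]
  simp only [Finset.sum_const, Int.card_Icc, nsmul_eq_mul, mul_one]
  have h4 : (((L : ℤ) + 1 - -(L : ℤ)).toNat : ℝ) = 2 * L + 1 := by
    have : ((L : ℤ) + 1 - -(L : ℤ)).toNat = 2 * L + 1 := by omega
    rw [this]; push_cast; ring
  rw [h4]
  field_simp
  ring

/-- The sum of the squares of the weights. -/
noncomputable def fS (L : ℕ) : ℝ := ∑ j ∈ Finset.Icc (-(L : ℤ)) L, fw L j ^ 2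

theorem fS_ge (L : ℕ) : ((L : ℝ) + 1) / 2 ≤ fS L := by
  have h1 := Finset.sum_mul_sq_le_sq_mul_sq (Finset.Icc (-(L : ℤ)) L) (fun _ => (1 : ℝ)) (fw L)
  simp only [one_mul, fw_sum, one_pow, Finset.sum_const, Int.card_Icc, nsmul_eq_mul, mul_one] at h1
  have h4 : (((L : ℤ) + 1 - -(L : ℤ)).toNat : ℝ) = 2 * L + 1 := by
    have : ((L : ℤ) + 1 - -(L : ℤ)).toNat = 2 * L + 1 := by omega
    rw [this]; push_cast; ring
  rw [h4] at h1
  have h5 : (0 : ℝ) ≤ L := Nat.cast_nonneg L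
  unfold fS
  set S := ∑ j ∈ Finset.Icc (-(L : ℤ)) L, fw L j ^ 2
  have h6 : ((L : ℝ) + 1) * ((L : ℝ) + 1) ≤ (2 * ((L : ℝ) + 1)) * S := by
    have h7 : 0 ≤ S := Finset.sum_nonneg fun _ _ => sq_nonneg _
    nlinarith
  have h8 : (0 : ℝ) < (L : ℝ) + 1 := by positivity
  have h9 : ((L : ℝ) + 1) * ((L : ℝ) + 1) ≤ ((L : ℝ) + 1) * (2 * S) := by linarith
  have := le_of_mul_le_mul_left h9 h8
  linarith

theorem fS_pos (L : ℕ) : 0 < fS L := lt_of_lt_of_le (by positivity) (fS_ge L)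

/-- The Fejér kernel. -/
noncomputable def fej (L : ℕ) (y : ℝ) : ℝ := ∑ j ∈ Finset.Icc (-(L : ℤ)) L, fw L j * Real.cos (2 * Real.pi * j * y)

theorem fej_eq (L : ℕ) (y : ℝ) : fej L y
    = 1 + 2 * ∑ j ∈ Finset.range L, (1 - ((j : ℝ) + 1) / (L + 1)) * Real.cos (2 * Real.pi * (j + 1) * y) := by
  unfold fej
  rw [sumI, fw_zero, Finset.mul_sum]
  congr 1
  · simp
  · refine Finset.sum_congr rfl fun j hj => ?_
    rw [Finset.mem_range] at hj
    rw [fw_neg, fw_in (j := (j : ℤ) + 1) (by rw [abs_of_nonneg (by positivity)]; omega)]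
    have e1 : ((-((j : ℤ) + 1) : ℤ) : ℝ) = -((j : ℝ) + 1) := by push_cast; ring
    have e2 : (((j : ℤ) + 1 : ℤ) : ℝ) = (j : ℝ) + 1 := by push_cast; ring
    rw [e1, e2, abs_of_nonneg (by positivity : (0 : ℝ) ≤ (j : ℝ) + 1)]
    have e3 : 2 * Real.pi * -((j : ℝ) + 1) * y = -(2 * Real.pi * ((j : ℝ) + 1) * y) := by ring
    rw [e3, Real.cos_neg]
    ring

/-- The Fejér kernel as a square. -/
theorem fej_sq (L : ℕ) (θ : ℝ) :
    (∑ j ∈ Finset.range (L + 1), Real.cos (j * θ)) ^ 2 + (∑ j ∈ Finset.range (L + 1), Real.sin (j * θ)) ^ 2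
      = ((L : ℝ) + 1) + 2 * ∑ j ∈ Finset.range L, ((L : ℝ) - j) * Real.cos ((j + 1) * θ) := by
  induction L with
  | zero => simp
  | succ L ih =>
    have h1 : (∑ j ∈ Finset.range (L + 1), Real.cos (j * θ)) * Real.cos ((L + 1) * θ)
        + (∑ j ∈ Finset.range (L + 1), Real.sin (j * θ)) * Real.sin ((L + 1) * θ)
        = ∑ j ∈ Finset.range (L + 1), Real.cos ((j + 1) * θ) := by
      rw [Finset.sum_mul, Finset.sum_mul, ← Finset.sum_add_distrib, ← Finset.sum_range_reflect]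
      refine Finset.sum_congr rfl fun j hj => ?_
      rw [Finset.mem_range] at hj
      have e : ((L + 1 - 1 - j : ℕ) : ℝ) = (L : ℝ) - j := by
        rw [Nat.add_sub_cancel, Nat.cast_sub (by omega)]
      rw [e, mul_comm (Real.cos _), mul_comm (Real.sin _), ← Real.cos_sub]
      congr 1
      ring
    have h2 : ∑ j ∈ Finset.range (L + 1), (((L + 1 : ℕ) : ℝ) - j) * Real.cos ((j + 1) * θ)
        = ∑ j ∈ Finset.range L, ((L : ℝ) - j) * Real.cos ((j + 1) * θ)
          + ∑ j ∈ Finset.range (L + 1), Real.cos ((j + 1) * θ) := by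
      rw [Finset.sum_range_succ, Finset.sum_range_succ (fun j : ℕ => Real.cos (((j : ℝ) + 1) * θ)), ← add_assoc,
        ← Finset.sum_add_distrib]
      congr 1
      · refine Finset.sum_congr rfl fun j _ => ?_
        push_cast
        ring
      · push_cast
        ring
    have h3 : Real.cos ((L + 1) * θ) ^ 2 + Real.sin ((L + 1) * θ) ^ 2 = 1 := by
      rw [add_comm]; exact Real.sin_sq_add_cos_sq _
    rw [h2, Finset.sum_range_succ (fun j : ℕ => Real.cos ((j : ℝ) * θ)),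
      Finset.sum_range_succ (fun j : ℕ => Real.sin ((j : ℝ) * θ))]
    push_cast
    push_cast at ih
    linear_combination ih + 2 * h1 + h3

theorem fej_nonneg (L : ℕ) (y : ℝ) : 0 ≤ fej L y := by
  have h0 : (0 : ℝ) < (L : ℝ) + 1 := by positivity
  have h1 := fej_sq L (2 * Real.pi * y)
  have h2 : fej L y * ((L : ℝ) + 1) = ((L : ℝ) + 1)
      + 2 * ∑ j ∈ Finset.range L, ((L : ℝ) - j) * Real.cos ((j + 1) * (2 * Real.pi * y)) := by
    rw [fej_eq, add_mul, one_mul]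
    congr 1
    rw [mul_assoc, Finset.sum_mul]
    congr 1
    refine Finset.sum_congr rfl fun j _ => ?_
    have e : 2 * Real.pi * ((j : ℝ) + 1) * y = ((j : ℝ) + 1) * (2 * Real.pi * y) := by ring
    rw [e]
    field_simp
    ring
  rw [← h1] at h2
  have h3 : 0 ≤ fej L y * ((L : ℝ) + 1) := by rw [h2]; positivity
  exact nonneg_of_mul_nonneg_left h3 h0

theorem fej_le (L : ℕ) (y : ℝ) : fej L y ≤ (L : ℝ) + 1 := by
  unfold fej
  rw [← fw_sum]
  refine Finset.sum_le_sum fun j _ => ?_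
  have := fw_nonneg L j
  have := Real.cos_le_one (2 * Real.pi * j * y)
  nlinarith

/-- The Fourier series of the kernel. -/
theorem fej_fourier (L : ℕ) (y : ℝ) :
    ∑ j ∈ Finset.Icc (-(L : ℤ)) L, (fw L j : ℂ) * Complex.exp (2 * Real.pi * Complex.I * ((j : ℂ) * (y : ℂ)))
      = (fej L y : ℂ) := by
  have hs : ∑ j ∈ Finset.Icc (-(L : ℤ)) L, fw L j * Real.sin (2 * Real.pi * j * y) = 0 := by
    rw [sumI]
    have : ∀ j ∈ Finset.range L, fw L (↑j + 1) * Real.sin (2 * Real.pi * ((↑j + 1 : ℤ) : ℝ) * y)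
        + fw L (-(↑j + 1)) * Real.sin (2 * Real.pi * ((-(↑j + 1) : ℤ) : ℝ) * y) = 0 := by
      intro j _
      rw [fw_neg]
      push_cast
      have e3 : 2 * Real.pi * (-1 + -(j : ℝ)) * y = -(2 * Real.pi * ((j : ℝ) + 1) * y) := by ring
      have e4 : 2 * Real.pi * (-((j : ℝ) + 1)) * y = -(2 * Real.pi * ((j : ℝ) + 1) * y) := by ring
      simp only [e3, e4, Real.sin_neg]
      ring
    rw [Finset.sum_eq_zero this]
    simp
  have h1 : ∀ j : ℤ, (fw L j : ℂ) * Complex.exp (2 * Real.pi * Complex.I * ((j : ℂ) * (y : ℂ)))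
      = ((fw L j * Real.cos (2 * Real.pi * j * y) : ℝ) : ℂ)
        + ((fw L j * Real.sin (2 * Real.pi * j * y) : ℝ) : ℂ) * Complex.I := by
    intro j
    have e : 2 * Real.pi * Complex.I * ((j : ℂ) * (y : ℂ)) = ((2 * Real.pi * j * y : ℝ) : ℂ) * Complex.I := by
      push_cast; ring
    rw [e, Complex.exp_mul_I, ← Complex.ofReal_cos, ← Complex.ofReal_sin]
    push_cast
    ring
  simp only [h1]
  rw [Finset.sum_add_distrib, ← Finset.sum_mul, ← Complex.ofReal_sum, ← Complex.ofReal_sum, hs]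
  simp [fej]

end Pool.Agent.N980.WP
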