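import Pool.Agent.N980.WP.Dat

/-!
Blow-up for an open and dense set of data.
-/

open MeasureTheory Set Filter Topology
open scoped ContDiff

set_option linter.unusedVariables false

namespace Pool.Agent.N980.WP

open Pool.Agent.N980.NU
open Pool.Agent.N980.CB (gG Par zz qq qq_pos Rap energy_nonneg energy_bd dv_add sel)

variable {R : ℕ} {σ κ G ν : ℝ}

theorem int_e {z : V → V} (hz : Continuous z) : IntegrableOn (fun x => ∑ i, z x i ^ 2) cube :=
  int_on_cube (continuous_finsetSum _ fun i _ => ((continuous_apply i).comp hz).pow 2)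

theorem energy_add_le {a b : V → V} (ha : Continuous a) (hb : Continuous b) :
    energy (a + b) ≤ 2 * energy a + 2 * energy b := by
  unfold energy
  rw [← integral_const_mul, ← integral_const_mul, ← integral_add ((int_e ha).const_mul 2) ((int_e hb).const_mul 2)]
  refine setIntegral_mono_on (int_e (ha.add hb)) (((int_e ha).const_mul 2).add ((int_e hb).const_mul 2))
    measurableSet_Icc fun x _ => ?_
  rw [Finset.mul_sum, Finset.mul_sum, ← Finset.sum_add_distrib]
  refine Finset.sum_le_sum fun i _ => ?_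
  rw [Pi.add_apply, Pi.add_apply]
  nlinarith [sq_nonneg (a x i - b x i)]

theorem energy_smul (c : ℝ) (a : V → V) : energy (c • a) = c ^ 2 * energy a := by
  unfold energy
  rw [← integral_const_mul]
  congr 1
  funext x
  rw [Finset.mul_sum]
  refine Finset.sum_congr rfl fun i _ => ?_
  rw [Pi.smul_apply, Pi.smul_apply, smul_eq_mul]
  ring

theorem energy_ip (v : V → V) : energy v = ip v v := by
  unfold energy ip
  congr 1
  funext x
  exact Finset.sum_congr rfl fun i _ => by ring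

theorem Pm.spvF (P : Pm) (n : ℕ) : SPV (pF (P.R ^ n) (P.L n)) := by
  have := P.X.spv n
  rwa [P.F_eq] at this

theorem Pm.dvF (P : Pm) (n : ℕ) (x : V) : dv (pF (P.R ^ n) (P.L n)) x = 0 := by
  have h1 : dv (P.X.F n) x = 0 := dv_fd (P.X.RD n) (fun q => P.Dv n q) x
  rwa [P.F_eq] at h1

theorem Pm.co_pF (P : Pm) (m n : ℕ) : P.co (pF (P.R ^ m) (P.L m)) n = if m = n then 1 else 0 := by
  rw [← P.F_eq]
  exact P.co_F m n

theorem Pm.energy_pF (P : Pm) (n : ℕ) : energy (pF (P.R ^ n) (P.L n)) = 1 := by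
  have := P.co_pF n n
  rw [if_pos rfl] at this
  rw [energy_ip]
  exact this

/-- The perturbation. -/
noncomputable def Pm.pt (P : Pm) (n : ℕ) (c0 c1 : ℝ) : V → V :=
  c0 • pF (P.R ^ n) (P.L n) + c1 • pF (P.R ^ (n + 1)) (P.L (n + 1))

theorem Pm.pt_spv (P : Pm) (n : ℕ) (c0 c1 : ℝ) : SPV (P.pt n c0 c1) :=
  ((P.spvF n).smul c0).add ((P.spvF (n + 1)).smul c1)

theorem dv_smul {v : V → V} (hv : SPV v) (c : ℝ) (x : V) : dv (c • v) x = c * dv v x := by
  unfold dv
  rw [Finset.mul_sum]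
  refine Finset.sum_congr rfl fun i _ => ?_
  have h1 : HasFDerivAt (fun y => c * v y i) (c • fderiv ℝ (fun y => v y i) x) x :=
    ((hv.sp i).diff x).hasFDerivAt.const_mul c
  show fderiv ℝ (fun y => (c • v) y i) x (Pi.single i 1) = _
  have e : (fun y => (c • v) y i) = fun y => c * v y i := by
    funext y; rw [Pi.smul_apply, Pi.smul_apply, smul_eq_mul]
  rw [e, h1.fderiv]
  rfl

theorem Pm.pt_dv (P : Pm) (n : ℕ) (c0 c1 : ℝ) (x : V) : dv (P.pt n c0 c1) x = 0 := by
  unfold Pm.pt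
  rw [dv_add ((P.spvF n).smul c0) ((P.spvF (n + 1)).smul c1), dv_smul (P.spvF n), dv_smul (P.spvF (n + 1)),
    P.dvF, P.dvF]
  ring

theorem Pm.pt_energy (P : Pm) (n : ℕ) (c0 c1 : ℝ) : energy (P.pt n c0 c1) ≤ 2 * c0 ^ 2 + 2 * c1 ^ 2 := by
  refine (energy_add_le ((P.spvF n).cont.const_smul c0) ((P.spvF (n + 1)).cont.const_smul c1)).trans (le_of_eq ?_)
  rw [energy_smul, energy_smul, P.energy_pF, P.energy_pF]
  ring

theorem Pm.pt_co (P : Pm) (n : ℕ) (c0 c1 : ℝ) (m : ℕ) : P.co (P.pt n c0 c1) m = sel n c0 c1 m := by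
  have hm := (P.spvF m).cont
  have h0 := (P.spvF n).cont
  have h1 := (P.spvF (n + 1)).cont
  have e : P.co (P.pt n c0 c1) m = c0 * P.co (pF (P.R ^ n) (P.L n)) m + c1 * P.co (pF (P.R ^ (n + 1)) (P.L (n + 1))) m := by
    unfold Pm.co Pm.pt
    rw [ip_add (h0.const_smul c0) (h1.const_smul c1) hm, ip_smul, ip_smul]
  rw [e, P.co_pF, P.co_pF]
  unfold sel
  by_cases a1 : m = n
  · subst a1
    simp
  · by_cases a2 : m = n + 1
    · subst a2
      simp
    · rw [if_neg (Ne.symm a1), if_neg (Ne.symm a2), if_neg a1, if_neg a2]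
      ring

/-- Blow-up before the time `η` for an open and dense set of data. -/
theorem dense_blowup (h : PC R σ κ) (hk : κ ≤ 1 / 2) (hG : 0 < G) (hν : 0 < ν) {v : V → V} (hv : SPV v)
    (hdv : ∀ x, dv v x = 0) {η : ℝ} (hη : 0 < η) :
    ∃ w : V → V, SPV w ∧ (∀ x, dv w x = 0) ∧ energy (w - v) ≤ η ^ 2 ∧ ∃ r > 0,
      ∀ w' : V → V, SPV w' → (∀ x i, |w' x i - w x i| ≤ r) →
      ∀ (u : ℝ → V → V) (p : ℝ → V → ℝ), u 0 = w' → ¬Sol ν (KQ (h.pm hG).T) η u p := by
  have hpi := Real.pi_pos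
  have hqq := qq_pos
  have hqv : qq = 1 / 5000 := rfl
  set P := h.pm hG with hPd
  set Λ := (R : ℝ) ^ σ with hΛd
  set z := zz Λ with hzd
  have hpar : Par Λ z := h.par
  have hz := hpar.hz
  set E : ℝ := 4 * energy v + 4 * η ^ 2 + 6 with hE
  have hEv := energy_nonneg v
  set ℓ : ℝ := 4 * Real.pi ^ 2 * ν with hℓ
  have hℓ0 : 0 < ℓ := by positivity
  set β : ℝ := 3 / 2 * (120 * ν * Real.sqrt E + 189 * E) with hβ
  have hβ0 : 0 ≤ β := by positivity
  set b : ℝ := 8 * β / ℓ + 1 with hb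
  have hb1 : 1 ≤ b := by
    have : 0 ≤ 8 * β / ℓ := by positivity
    linarith
  have hβb : 8 * β ≤ ℓ * b := by
    rw [hb, mul_add, mul_div_cancel₀ _ hℓ0.ne']
    linarith
  set a : ℝ := η / 8 with ha
  have ha0 : 0 < a := by positivity
  have hrap : Rap R (P.co v) := by
    have h1 : Rap R (P.X.cs v) := P.X.Rap_cs P.wh.wd hv
    have h2 : P.X.cs v = P.co v := funext fun n => P.cs_eq v n
    rwa [h2] at h1
  obtain ⟨n, hn⟩ := (good_ev (G := G) (ℓ := ℓ) (β := β) (b := b) (a := a) (T := η) h hG hℓ0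
    (by linarith) ha0 hη hrap).exists
  set c0 : ℝ := a - P.co v n with hc0
  set c1 : ℝ := qq * a - P.co v (n + 1) with hc1
  set w : V → V := v + P.pt n c0 c1 with hw
  have hwS : SPV w := hv.add (P.pt_spv n c0 c1)
  have hcw : ∀ m, P.co w m = P.co v m + sel n c0 c1 m := by
    intro m
    rw [← P.pt_co n c0 c1 m, hw]
    exact ip_add hv.cont (P.pt_spv n c0 c1).cont (P.spvF m).cont
  have hz16 : 0 < z ^ 16 := pow_pos hz 16
  have hz16' : z ^ 16 ≤ 1 := pow_le_one₀ hz.le hpar.z1
  have hsmall : z ^ 16 * qq * a / 40 ≤ a / 40 := by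
    have h1 : z ^ 16 * qq ≤ 1 := by
      rw [hqv]; nlinarith
    have : z ^ 16 * qq * a ≤ 1 * a := by gcongr
    linarith
  have hwv : w - v = P.pt n c0 c1 := by rw [hw]; abel
  have hen0 : energy (w - v) ≤ η ^ 2 := by
    rw [hwv]
    refine (P.pt_energy n c0 c1).trans ?_
    have h1 := hn.c1 n le_rfl
    have h2 := hn.c1 (n + 1) (by omega)
    have h3 : |c0| ≤ a + |P.co v n| := by
      have := abs_sub a (P.co v n)
      rwa [abs_of_pos ha0] at this
    have h4 : |c1| ≤ qq * a + |P.co v (n + 1)| := by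
      have := abs_sub (qq * a) (P.co v (n + 1))
      rwa [abs_of_pos (by positivity : 0 < qq * a)] at this
    rw [hqv] at h4
    have h5 : |c0| ≤ 2 * a := by linarith
    have h6 : |c1| ≤ a := by linarith
    have h7 : η = 8 * a := by rw [ha]; ring
    rw [← sq_abs c0, ← sq_abs c1, h7]
    nlinarith [abs_nonneg c0, abs_nonneg c1]
  set r0 := min (1 / 2) (z ^ 16 * qq * a / 40) with hr0
  have hr00 : 0 < r0 := by positivity
  refine ⟨w, hwS, ?_, hen0, r0 / 6, by positivity, ?_⟩
  · intro x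
    rw [hw, dv_add hv (P.pt_spv n c0 c1), hdv, P.pt_dv, add_zero]
  · intro w' hw' h1 u p hu hs
    have hr1 : r0 ≤ 1 / 2 := min_le_left _ _
    have hr2 : r0 ≤ z ^ 16 * qq * a / 40 := min_le_right _ _
    have hcl : ∀ m, |P.co w' m - P.co w m| ≤ r0 / ((R : ℝ) ^ κ) ^ m := by
      intro m
      have h2 := h.close hk hw'.cont hwS.cont h1 m
      have e : 6 * (r0 / 6) = r0 := by ring
      rw [e] at h2
      exact h2
    have hQ1 : ∀ m : ℕ, 1 ≤ ((R : ℝ) ^ κ) ^ m := fun m => one_le_pow₀ (by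
      have := h.RQ
      linarith [show (1 : ℝ) ≤ 10 ^ 5 by norm_num])
    have hcl' : ∀ m, |P.co w' m - P.co w m| ≤ r0 := fun m => (hcl m).trans (div_le_self hr00.le (hQ1 m))
    have k0 : |P.co w' n - a| ≤ r0 := by
      have := hcl' n
      rw [hcw n] at this
      have e0 : sel n c0 c1 n = c0 := by unfold sel; rw [if_pos rfl]
      rw [e0, hc0] at this
      have e : P.co v n + (a - P.co v n) = a := by ring
      rwa [e] at this
    have k1 : |P.co w' (n + 1) - qq * a| ≤ r0 := by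
      have := hcl' (n + 1)
      rw [hcw (n + 1)] at this
      have e0 : sel n c0 c1 (n + 1) = c1 := by unfold sel; rw [if_neg (by omega), if_pos rfl]
      rw [e0, hc1] at this
      have e : P.co v (n + 1) + (qq * a - P.co v (n + 1)) = qq * a := by ring
      rwa [e] at this
    have k2 : ∀ m, m ≠ n → m ≠ n + 1 → |P.co w' m - P.co v m| ≤ r0 / ((R : ℝ) ^ κ) ^ m := by
      intro m m1 m2
      have := hcl m
      rw [hcw m] at this
      have e0 : sel n c0 c1 m = 0 := by unfold sel; rw [if_neg m1, if_neg m2]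
      rwa [e0, add_zero] at this
    obtain ⟨g1, g2, g3, g4⟩ := Good.st (x0 := fun m => P.co w' m) hpar h.RQ hn hG ha0 hb1 hr00 hr1 hr2 k0 k1 k2
    have hen : energy (u 0) ≤ E := by
      rw [hu, hE]
      have e1 : w' = (v + (w - v)) + (w' - w) := by abel
      have e2 : energy (w' - w) ≤ 3 * (1 : ℝ) ^ 2 := by
        refine energy_bd ?_ fun x i => ?_
        · exact (by
            have e : w' - w = w' + (-1 : ℝ) • w := by simp [sub_eq_add_neg]
            rw [e]; exact hw'.add (hwS.smul (-1)))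
        · rw [Pi.sub_apply, Pi.sub_apply]
          refine (h1 x i).trans ?_
          linarith
      have c1' : Continuous (w - v) := hwS.cont.sub hv.cont
      have c2' : Continuous (w' - w) := hw'.cont.sub hwS.cont
      have e3 := energy_add_le (hv.cont.add c1') c2'
      have e4 := energy_add_le hv.cont c1'
      rw [← e1] at e3
      linarith
    have hsys := Sol.sys h hG hs hν hen
    refine hsys.blowup (by linarith : 0 < b) hβb (n0 := n) (A0 := P.co w' n) (g2 _ fun m => ?_) g3 g4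
    show P.co (u 0) m = P.co w' m
    rw [hu]

end Pool.Agent.N980.WP
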