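import Pool.Agent.N980.WP.Lp

/-!
The bound of the trilinear form in Lebesgue spaces.
-/

open MeasureTheory Set Filter Topology
open scoped ContDiff

set_option linter.unusedVariables false

namespace Pool.Agent.N980.WP

open Pool.Agent.N980.NU
open Pool.Agent.N980.CB (gG)
open Pool.Agent.H356R3.NS (K C3 E3 R3 ex SN Sym RD TT SF SFam Fam cf' at' nk pw fj dS Bf dt)

variable {R : ℕ} {σ κ G : ℝ}

/-- The field has its frequencies in the ball of radius `M`. -/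
def BL (M : ℝ) (u : V → V) : Prop := ∀ k : K, M < nk k → fco u k = 0

theorem BL.co {R : ℕ} {L : ℕ → ℕ} (h : Wh R L) {M : ℝ} {u : V → V} (hu : Continuous u) (hb : BL M u) {n : ℕ}
    (hn : 2 * M < (R : ℝ) ^ n) : ip u (pF (R ^ n) (L n)) = 0 := by
  have h1 : (PX h).cs u n = ip u (pF (R ^ n) (L n)) := by
    unfold Fm.cs
    rw [PX_F]
  rw [← h1, (PX h).cs_eq hu]
  unfold Fm.co
  have : ∀ k : K, ∑ i, fco u k i * star ((PX h).ψ n k i) = 0 := by
    intro k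
    by_cases hk : (PX h).ψ n k = 0
    · rw [hk]; simp
    · have h2 := (h.suppR (pψ_ne hk)).1
      have h3 := k0_le_nk k
      have h4 : fco u k = 0 := hb k (by linarith)
      rw [h4]; simp
  rw [tsum_congr this]
  simp

theorem rpow_two {a b W e : ℝ} (ha : 1 ≤ a) (h1 : a ≤ b) (h2 : b ≤ W * a) (hW : 1 ≤ W) (he : e ≤ 1) :
    b ^ e ≤ W * a ^ e := by
  have ha0 : 0 < a := by linarith
  have hb0 : 0 < b := by linarith
  rcases le_or_gt 0 e with h | h
  · calc b ^ e ≤ (W * a) ^ e := Real.rpow_le_rpow hb0.le h2 h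
      _ = W ^ e * a ^ e := Real.mul_rpow (by linarith) ha0.le
      _ ≤ W ^ (1 : ℝ) * a ^ e := by
        have := Real.rpow_le_rpow_of_exponent_le hW he
        gcongr
      _ = W * a ^ e := by rw [Real.rpow_one]
  · calc b ^ e ≤ a ^ e := Real.rpow_le_rpow_of_nonpos ha0 h1 h.le
      _ ≤ W * a ^ e := le_mul_of_one_le_left (Real.rpow_nonneg ha0.le _) hW

theorem geo_le {ρ : ℝ} (h : 2 ≤ ρ) (N : ℕ) : ∑ n ∈ Finset.range (N + 1), ρ ^ n ≤ 2 * ρ ^ N := by
  induction N with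
  | zero => simp
  | succ N ih =>
    rw [Finset.sum_range_succ, pow_succ ρ N]
    have h1 : 0 ≤ ρ ^ N := by positivity
    nlinarith

/-- The bound of a coefficient. -/
theorem PC.co_le (h : PC R σ κ) {p : ℝ} (hp : 1 < p) {u : V → V} (hu : Continuous u) (n : ℕ) :
    |ip u (pF (R ^ n) (Lw R κ n))| ≤ 3 * ((R : ℝ) ^ (1 - κ) + 1) * wd (Lw R κ) n ^ (2 / p - 1) * lpn p u ∧
    |ip u (pF (R ^ (n + 1)) (Lw R κ (n + 1)))|
      ≤ 3 * ((R : ℝ) ^ (1 - κ) + 1) * wd (Lw R κ) n ^ (2 / p - 1) * lpn p u := by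
  have hW1 := h.W1
  have hw := h.wh.wd
  have h1 := hw.one n
  have h2 : wd (Lw R κ) n ≤ wd (Lw R κ) (n + 1) := by
    unfold wd
    have : (Lw R κ n : ℝ) ≤ Lw R κ (n + 1) := by exact_mod_cast h.mono n
    linarith
  have h3 := h.gr n
  have he : 2 / p - 1 ≤ 1 := by
    have : 2 / p ≤ 2 := div_le_self (by norm_num) hp.le
    linarith
  have hl := lpn_nonneg p u
  have h5 : 0 ≤ wd (Lw R κ) n ^ (2 / p - 1) := Real.rpow_nonneg (hw.pos n).le _
  constructor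
  · refine (co_lp (R ^ n) (Lw R κ n) hp hu).trans ?_
    show 3 * wd (Lw R κ) n ^ (2 / p - 1) * lpn p u ≤ _
    have h6 : 3 * wd (Lw R κ) n ^ (2 / p - 1) * lpn p u ≤ ((R : ℝ) ^ (1 - κ) + 1) * (3 * wd (Lw R κ) n ^ (2 / p - 1) * lpn p u) :=
      le_mul_of_one_le_left (by positivity) (by linarith)
    linarith
  · refine (co_lp (R ^ (n + 1)) (Lw R κ (n + 1)) hp hu).trans ?_
    show 3 * wd (Lw R κ) (n + 1) ^ (2 / p - 1) * lpn p u ≤ _
    have h6 := rpow_two h1 h2 h3 (by linarith) he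
    calc 3 * wd (Lw R κ) (n + 1) ^ (2 / p - 1) * lpn p u
        ≤ 3 * (((R : ℝ) ^ (1 - κ) + 1) * wd (Lw R κ) n ^ (2 / p - 1)) * lpn p u := by gcongr
      _ = _ := by ring

/-- The bound of the trilinear form in Lebesgue spaces. -/
theorem PC.lp_bound (h : PC R σ κ) (hG : 0 < G) : ∃ C, 0 ≤ C ∧ ∀ p₁ p₂ p₃ : ℝ, 1 < p₁ → 1 < p₂ → 1 < p₃ →
    1 / p₁ + 1 / p₂ + 1 / p₃ = 1 → ∀ M : ℝ, 1 ≤ M → ∀ u v z : V → V, SPV u → SPV v → SPV z →
    (BL M u ∨ BL M v ∨ BL M z) →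
    |ip (KQ (h.pm hG).T u v) z| ≤ C * M ^ (σ - 1 + κ) * (lpn p₁ u * lpn p₂ v * lpn p₃ z) := by
  set P := h.pm hG with hP
  set W : ℝ := (R : ℝ) ^ (1 - κ) + 1 with hW
  have hW1 := h.W1
  have hW0 : 0 ≤ W := by linarith
  set s : ℝ := σ - 1 + κ with hs
  have hs1 : 1 < s := by linarith [h.s2, h.k0]
  refine ⟨216 * W ^ 3 * G * (2 * 2 ^ s), by positivity, ?_⟩
  intro p₁ p₂ p₃ h1 h2 h3 hp M hM u v z hu hv hz hBL
  have hA := lpn_nonneg p₁ u
  have hB := lpn_nonneg p₂ v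
  have hC := lpn_nonneg p₃ z
  set A := lpn p₁ u
  set B := lpn p₂ v
  set C := lpn p₃ z
  have hform := P.form hu hv hz
  have hR4 := h.R4
  have hR1 := h.R1
  have hR0 := h.R0
  -- the last level
  set N : ℕ := Nat.log R ⌊2 * M⌋₊ with hN
  have hfl : ⌊2 * M⌋₊ ≠ 0 := by
    have : 1 ≤ ⌊2 * M⌋₊ := (Nat.one_le_floor_iff _).2 (by linarith)
    omega
  have hNle : (R : ℝ) ^ N ≤ 2 * M := by
    have h4 : R ^ N ≤ ⌊2 * M⌋₊ := Nat.pow_log_le_self R hfl
    have h5 : ((⌊2 * M⌋₊ : ℕ) : ℝ) ≤ 2 * M := Nat.floor_le (by linarith)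
    have h6 : ((R ^ N : ℕ) : ℝ) ≤ ((⌊2 * M⌋₊ : ℕ) : ℝ) := by exact_mod_cast h4
    push_cast at h6
    linarith
  have hgt : ∀ n, N < n → 2 * M < (R : ℝ) ^ n := by
    intro n hn
    have h4 : ⌊2 * M⌋₊ < R ^ n := by
      have := Nat.lt_pow_succ_log_self (by omega : 1 < R) ⌊2 * M⌋₊
      refine this.trans_le (Nat.pow_le_pow_right (by omega) hn)
    have h5 := (Nat.floor_lt (by linarith : 0 ≤ 2 * M)).1 h4
    push_cast at h5
    exact h5
  have hz0 : ∀ n, N < n → P.g n * (P.δ * P.co u n + P.co u (n + 1)) * (P.co v n * P.co z (n + 1) - P.co v (n + 1) * P.co z n) = 0 := by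
    intro n hn
    have q1 := hgt n hn
    have q2 := hgt (n + 1) (by omega)
    rcases hBL with hb | hb | hb
    · have e1 : P.co u n = 0 := hb.co h.wh hu.cont q1
      have e2 : P.co u (n + 1) = 0 := hb.co h.wh hu.cont q2
      rw [e1, e2]; ring
    · have e1 : P.co v n = 0 := hb.co h.wh hv.cont q1
      have e2 : P.co v (n + 1) = 0 := hb.co h.wh hv.cont q2
      rw [e1, e2]; ring
    · have e1 : P.co z n = 0 := hb.co h.wh hz.cont q1
      have e2 : P.co z (n + 1) = 0 := hb.co h.wh hz.cont q2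
      rw [e1, e2]; ring
  have hterm : ∀ n, |P.g n * (P.δ * P.co u n + P.co u (n + 1)) * (P.co v n * P.co z (n + 1) - P.co v (n + 1) * P.co z n)|
      ≤ 216 * W ^ 3 * G * (A * B * C) * ((R : ℝ) ^ s) ^ n := by
    intro n
    obtain ⟨a1, a2⟩ := h.co_le h1 hu.cont n
    obtain ⟨b1, b2⟩ := h.co_le h2 hv.cont n
    obtain ⟨c1, c2⟩ := h.co_le h3 hz.cont n
    have hw0 := (h.wh.wd).pos n
    set l := wd (Lw R κ) n with hl
    set e1 := l ^ (2 / p₁ - 1) with he1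
    set e2 := l ^ (2 / p₂ - 1) with he2
    set e3 := l ^ (2 / p₃ - 1) with he3
    have e10 : 0 ≤ e1 := Real.rpow_nonneg hw0.le _
    have e20 : 0 ≤ e2 := Real.rpow_nonneg hw0.le _
    have e30 : 0 ≤ e3 := Real.rpow_nonneg hw0.le _
    have hprod : e1 * e2 * e3 = 1 / l := by
      rw [he1, he2, he3, ← Real.rpow_add hw0, ← Real.rpow_add hw0]
      have : 2 / p₁ - 1 + (2 / p₂ - 1) + (2 / p₃ - 1) = -1 := by
        have e : 2 / p₁ + 2 / p₂ + 2 / p₃ = 2 * (1 / p₁ + 1 / p₂ + 1 / p₃) := by ring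
        rw [hp] at e
        linarith
      rw [this, Real.rpow_neg_one, one_div]
    have hδ0 := P.δ0
    have hδ1 := P.δ1
    have f1 : |P.δ * P.co u n + P.co u (n + 1)| ≤ 2 * (3 * W * e1 * A) := by
      refine (abs_add_le _ _).trans ?_
      rw [abs_mul, abs_of_nonneg hδ0]
      have a1' : |P.co u n| ≤ 3 * W * e1 * A := a1
      have a2' : |P.co u (n + 1)| ≤ 3 * W * e1 * A := a2
      have : P.δ * |P.co u n| ≤ 1 * |P.co u n| := by gcongr
      linarith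
    have f2 : |P.co v n * P.co z (n + 1) - P.co v (n + 1) * P.co z n| ≤ 2 * ((3 * W * e2 * B) * (3 * W * e3 * C)) := by
      have b1' : |P.co v n| ≤ 3 * W * e2 * B := b1
      have b2' : |P.co v (n + 1)| ≤ 3 * W * e2 * B := b2
      have c1' : |P.co z n| ≤ 3 * W * e3 * C := c1
      have c2' : |P.co z (n + 1)| ≤ 3 * W * e3 * C := c2
      refine (abs_sub _ _).trans ?_
      rw [abs_mul, abs_mul]
      have g1 := mul_le_mul b1' c2' (abs_nonneg _) (by positivity)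
      have g2 := mul_le_mul b2' c1' (abs_nonneg _) (by positivity)
      linarith
    have hg0 := P.g0 n
    have hgl : P.g n * (1 / l) ≤ 2 * G * ((R : ℝ) ^ s) ^ n := by
      have h5 := h.wd_ge n
      have hWp : (0 : ℝ) < ((R : ℝ) ^ (1 - κ)) ^ n := by have := h.W0 n; linarith
      have e : (R : ℝ) ^ σ = (R : ℝ) ^ s * (R : ℝ) ^ (1 - κ) := by
        rw [← Real.rpow_add hR0]; congr 1; rw [hs]; ring
      have hg : P.g n = G * ((R : ℝ) ^ σ) ^ n := rfl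
      rw [hg, e, mul_pow, mul_one_div, div_le_iff₀ hw0]
      have hq : (0 : ℝ) ≤ G * ((R : ℝ) ^ s) ^ n := by positivity
      nlinarith
    rw [abs_mul, abs_mul, abs_of_nonneg hg0]
    calc P.g n * |P.δ * P.co u n + P.co u (n + 1)| * |P.co v n * P.co z (n + 1) - P.co v (n + 1) * P.co z n|
        ≤ P.g n * (2 * (3 * W * e1 * A)) * (2 * ((3 * W * e2 * B) * (3 * W * e3 * C))) := by gcongr
      _ = 108 * W ^ 3 * (A * B * C) * (P.g n * (e1 * e2 * e3)) := by ring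
      _ = 108 * W ^ 3 * (A * B * C) * (P.g n * (1 / l)) := by rw [hprod]
      _ ≤ 108 * W ^ 3 * (A * B * C) * (2 * G * ((R : ℝ) ^ s) ^ n) := by gcongr
      _ = _ := by ring
  have hval := hform.unique (hasSum_sum_of_ne_finset_zero (s := Finset.range (N + 1)) fun n hn =>
    hz0 n (by rw [Finset.mem_range] at hn; omega))
  rw [hval]
  have hρ : 2 ≤ (R : ℝ) ^ s := by
    have h5 : (R : ℝ) ^ (1 : ℝ) ≤ (R : ℝ) ^ s := Real.rpow_le_rpow_of_exponent_le hR1.le hs1.le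
    rw [Real.rpow_one] at h5
    have : (4 : ℝ) ≤ R := by exact_mod_cast hR4
    linarith
  have hlast : ((R : ℝ) ^ s) ^ N ≤ 2 ^ s * M ^ s := by
    have e : ((R : ℝ) ^ s) ^ N = ((R : ℝ) ^ N) ^ s := (CB.rpow_swap R s N).symm
    rw [e, ← Real.mul_rpow (by norm_num) (by linarith)]
    exact Real.rpow_le_rpow (by positivity) hNle (by linarith)
  calc _ ≤ ∑ n ∈ Finset.range (N + 1), 216 * W ^ 3 * G * (A * B * C) * ((R : ℝ) ^ s) ^ n :=
        (Finset.abs_sum_le_sum_abs _ _).trans (Finset.sum_le_sum fun n _ => hterm n)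
    _ = 216 * W ^ 3 * G * (A * B * C) * ∑ n ∈ Finset.range (N + 1), ((R : ℝ) ^ s) ^ n := by rw [← Finset.mul_sum]
    _ ≤ 216 * W ^ 3 * G * (A * B * C) * (2 * ((R : ℝ) ^ s) ^ N) := by
        have := geo_le hρ N
        gcongr
    _ ≤ 216 * W ^ 3 * G * (A * B * C) * (2 * (2 ^ s * M ^ s)) := by gcongr
    _ = _ := by ring

end Pool.Agent.N980.WP
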