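import Pool.Agent.N980.WP.Pr

/-!
The Lebesgue norms of the packets.
-/

open MeasureTheory Set Filter Topology
open scoped ContDiff

set_option linter.unusedVariables false

namespace Pool.Agent.N980.WP

open Pool.Agent.N980.NU
open Pool.Agent.H356R3.NS (K C3 E3 R3 ex SN Sym RD TT SF SFam Fam cf' at' nk pw fj dS Bf dt)

/-- The coefficients of the product of two kernels. -/
noncomputable def qc (L : ℕ) (k : K) : ℝ := fw L (k 0) * fw L (k 1) * (if k 2 = 0 then 1 else 0)

theorem qc_supp {L : ℕ} {k : K} (h : qc L k ≠ 0) : |k 0| ≤ L ∧ |k 1| ≤ L ∧ k 2 = 0 := by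
  unfold qc at h
  have h2 := left_ne_zero_of_mul h
  have h3 := right_ne_zero_of_mul h
  refine ⟨fw_pos (left_ne_zero_of_mul h2), fw_pos (right_ne_zero_of_mul h2), ?_⟩
  by_contra hc
  rw [if_neg hc] at h3
  exact h3 rfl

/-- The same as a sequence of vectors. -/
noncomputable def qψ (L : ℕ) (k : K) : C3 := ![0, 0, (qc L k : ℂ)]

theorem qψ_fin (L : ℕ) : (Function.support (qψ L)).Finite := by
  classical
  refine (Finset.finite_toSet (Fintype.piFinset (fun i : Fin 3 => (![I1 L, I1 L, {0}] : Fin 3 → Finset ℤ) i))).subset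
    fun k hk => ?_
  have hk' : qc L k ≠ 0 := by
    intro h0
    apply hk
    unfold qψ
    rw [h0]
    funext i
    fin_cases i <;> simp
  obtain ⟨h1, h2, h4⟩ := qc_supp hk'
  rw [Finset.mem_coe, Fintype.mem_piFinset]
  have a1 := abs_le.1 h1
  have a2 := abs_le.1 h2
  have b0 : k 0 ∈ I1 L := Finset.mem_Icc.2 (by constructor <;> omega)
  have b1 : k 1 ∈ I1 L := Finset.mem_Icc.2 (by constructor <;> omega)
  have b2 : k 2 ∈ ({0} : Finset ℤ) := Finset.mem_singleton.2 h4
  intro i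
  fin_cases i
  · exact b0
  · exact b1
  · exact b2

theorem qψ_sym (L : ℕ) : Sym (qψ L) := by
  intro k i
  have e : qc L (-k) = qc L k := by
    unfold qc
    simp only [Pi.neg_apply, fw_neg, neg_eq_zero]
  unfold qψ
  rw [e]
  fin_cases i
  · simp
  · simp
  · show ((qc L k : ℝ) : ℂ) = star ((qc L k : ℝ) : ℂ)
    simp

/-- The factors. -/
noncomputable def qg (L : ℕ) (i : Fin 3) (j : ℤ) : ℝ :=
  (![fw L, fw L, fun j => if j = 0 then 1 else 0] : Fin 3 → ℤ → ℝ) i j

/-- The intervals. -/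
noncomputable def qI (L : ℕ) (i : Fin 3) : Finset ℤ := (![I1 L, I1 L, {0}] : Fin 3 → Finset ℤ) i

theorem qg_out (L : ℕ) (i : Fin 3) (j : ℤ) (h : j ∉ qI L i) : qg L i j = 0 := by
  fin_cases i
  · exact fw_supp L h
  · exact fw_supp L h
  · show (if j = 0 then (1 : ℝ) else 0) = 0
    rw [if_neg]
    intro h0
    exact h (Finset.mem_singleton.2 h0)

theorem qc_prod (L : ℕ) (k : K) : qc L k = ∏ i, qg L i (k i) := by
  rw [Fin.prod_univ_three]
  rfl

theorem qψ_phys (L : ℕ) (x : V) : fd (qψ L) x 2 = fej L (x 0) * fej L (x 1) := by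
  have h1 : ∑' k : K, (qc L k : ℂ) * ex k x = ((fej L (x 0) * fej L (x 1) : ℝ) : ℂ) := by
    have e : ∀ k : K, (qc L k : ℂ) * ex k x =
        ∏ i, (fun i (j : ℤ) => (qg L i j : ℂ) * Complex.exp (2 * Real.pi * Complex.I * ((j : ℂ) * (x i : ℂ)))) i (k i) := by
      intro k
      rw [qc_prod, H356R3.NS.ex_prod, Finset.prod_mul_distrib]
      push_cast
      ring
    simp only [e]
    rw [tsum_pi3 (fun i (j : ℤ) => (qg L i j : ℂ)
        * Complex.exp (2 * Real.pi * Complex.I * ((j : ℂ) * (x i : ℂ)))) (qI L) (fun i j hj => by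
      simp only [qg_out L i j hj]; norm_num), Fin.prod_univ_three]
    have e0 : ∑ j ∈ qI L 0, (qg L 0 j : ℂ) * Complex.exp (2 * Real.pi * Complex.I * ((j : ℂ) * (x 0 : ℂ)))
        = (fej L (x 0) : ℂ) := fej_fourier L (x 0)
    have e1 : ∑ j ∈ qI L 1, (qg L 1 j : ℂ) * Complex.exp (2 * Real.pi * Complex.I * ((j : ℂ) * (x 1 : ℂ)))
        = (fej L (x 1) : ℂ) := fej_fourier L (x 1)
    have e2 : ∑ j ∈ qI L 2, (qg L 2 j : ℂ) * Complex.exp (2 * Real.pi * Complex.I * ((j : ℂ) * (x 2 : ℂ))) = 1 := by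
      show ∑ j ∈ ({0} : Finset ℤ), (((if j = 0 then (1 : ℝ) else 0 : ℝ)) : ℂ)
        * Complex.exp (2 * Real.pi * Complex.I * ((j : ℂ) * (x 2 : ℂ))) = 1
      simp
    rw [e0, e1, e2]
    push_cast
    ring
  show (∑' k : K, (qc L k : ℂ) * ex k x).re = _
  rw [h1, Complex.ofReal_re]

theorem fej_int (L : ℕ) : ∫ x in cube, fej L (x 0) * fej L (x 1) = 1 := by
  have h1 : fco (fd (qψ L)) 0 2 = qψ L 0 2 := fco_fs (fin_SN (qψ_fin L)) (qψ_sym L) 0 2
  have h2 : fco (fd (qψ L)) 0 2 = ((∫ x in cube, fej L (x 0) * fej L (x 1) : ℝ) : ℂ) := by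
    unfold fco
    rw [← integral_complex_ofReal]
    congr 1
    funext x
    rw [qψ_phys]
    simp
  have h3 : qψ L 0 2 = 1 := by
    show ((qc L 0 : ℝ) : ℂ) = 1
    unfold qc
    simp [fw_zero]
  rw [h2, h3] at h1
  exact_mod_cast h1

theorem fej_cont (L : ℕ) : Continuous (fej L) := by
  unfold fej
  fun_prop

theorem fS_r (L : ℕ) : Real.sqrt 2 / fS L ≤ 3 / ((L : ℝ) + 1) := by
  have h1 := fS_ge L
  have h2 := fS_pos L
  have h3 : Real.sqrt 2 ≤ 1.5 := by
    rw [Real.sqrt_le_iff]; norm_num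
  rw [div_le_div_iff₀ h2 (by positivity)]
  have h4 : (0 : ℝ) < (L : ℝ) + 1 := by positivity
  calc Real.sqrt 2 * ((L : ℝ) + 1) ≤ 1.5 * ((L : ℝ) + 1) := by gcongr
    _ = 3 * (((L : ℝ) + 1) / 2) := by ring
    _ ≤ 3 * fS L := by gcongr

theorem pf_abs (N L : ℕ) (x : V) : |pf N L x| ≤ 3 / ((L : ℝ) + 1) * (fej L (x 0) * fej L (x 1)) := by
  have h0 := fej_nonneg L (x 0)
  have h1 := fej_nonneg L (x 1)
  have h2 := fS_pos L
  have h3 := fS_r L
  have h4 := Real.abs_cos_le_one (2 * Real.pi * (N * x 0))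
  unfold pf
  rw [abs_div, abs_mul, abs_mul, abs_mul, abs_of_nonneg h0, abs_of_nonneg h1, abs_of_pos h2,
    abs_of_nonneg (Real.sqrt_nonneg 2)]
  calc Real.sqrt 2 * |Real.cos (2 * Real.pi * (N * x 0))| * fej L (x 0) * fej L (x 1) / fS L
      ≤ Real.sqrt 2 * 1 * fej L (x 0) * fej L (x 1) / fS L := by gcongr
    _ = Real.sqrt 2 / fS L * (fej L (x 0) * fej L (x 1)) := by ring
    _ ≤ _ := by gcongr

theorem pf_sup (N L : ℕ) (x : V) : |pf N L x| ≤ 3 * ((L : ℝ) + 1) := by
  refine (pf_abs N L x).trans ?_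
  have h0 := fej_nonneg L (x 0)
  have h1 := fej_nonneg L (x 1)
  have h2 := fej_le L (x 0)
  have h3 := fej_le L (x 1)
  have h4 : (0 : ℝ) < (L : ℝ) + 1 := by positivity
  calc 3 / ((L : ℝ) + 1) * (fej L (x 0) * fej L (x 1)) ≤ 3 / ((L : ℝ) + 1) * (((L : ℝ) + 1) * ((L : ℝ) + 1)) := by gcongr
    _ = 3 * ((L : ℝ) + 1) := by field_simp

theorem pf_cont (N L : ℕ) : Continuous (pf N L) := by
  have := fej_cont L
  unfold pf
  fun_prop

theorem pF_cont (N L : ℕ) : Continuous (pF N L) := by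
  refine continuous_pi fun i => ?_
  fin_cases i
  · exact continuous_const
  · exact continuous_const
  · exact pf_cont N L

theorem norm_pF (N L : ℕ) (x : V) : ‖pF N L x‖ = |pf N L x| := by
  apply le_antisymm
  · rw [pi_norm_le_iff_of_nonneg (abs_nonneg _)]
    intro i
    fin_cases i
    · simp [pF]
    · simp [pF]
    · exact le_rfl
  · exact norm_le_pi_norm (pF N L x) 2

theorem pf_l1 (N L : ℕ) : ∫ x in cube, |pf N L x| ≤ 3 / ((L : ℝ) + 1) := by
  have hc : Continuous fun x : V => 3 / ((L : ℝ) + 1) * (fej L (x 0) * fej L (x 1)) := by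
    have := fej_cont L
    fun_prop
  calc ∫ x in cube, |pf N L x| ≤ ∫ x in cube, 3 / ((L : ℝ) + 1) * (fej L (x 0) * fej L (x 1)) :=
        setIntegral_mono_on (int_on_cube (pf_cont N L).abs) (int_on_cube hc) measurableSet_Icc
          fun x _ => pf_abs N L x
    _ = 3 / ((L : ℝ) + 1) := by rw [integral_const_mul, fej_int, mul_one]

/-- The Lebesgue norm over the period cell. -/
noncomputable def lpn (p : ℝ) (u : V → V) : ℝ := (∫ x in cube, ‖u x‖ ^ p) ^ (1 / p)

theorem lpn_nonneg (p : ℝ) (u : V → V) : 0 ≤ lpn p u :=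
  Real.rpow_nonneg (integral_nonneg fun x => Real.rpow_nonneg (norm_nonneg _) _) _

theorem memLp_cube {u : V → V} (hu : Continuous u) (p : ℝ) : MemLp u (ENNReal.ofReal p) (volume.restrict cube) := by
  obtain ⟨C, hC⟩ := (isCompact_Icc : IsCompact cube).exists_bound_of_continuousOn hu.continuousOn
  have : IsFiniteMeasure (volume.restrict cube) := ⟨by
    rw [Measure.restrict_apply_univ]
    exact (isCompact_Icc : IsCompact cube).measure_lt_top⟩
  refine MemLp.of_bound hu.aestronglyMeasurable C ?_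
  exact (ae_restrict_iff' measurableSet_Icc).2 (Eventually.of_forall fun x hx => hC x hx)

/-- The Lebesgue norms of a packet. -/
theorem pF_lq (N L : ℕ) {q : ℝ} (hq : 1 < q) :
    (∫ x in cube, ‖pF N L x‖ ^ q) ^ (1 / q) ≤ 3 * ((L : ℝ) + 1) ^ (1 - 2 / q) := by
  have hl : (0 : ℝ) < (L : ℝ) + 1 := by positivity
  have hq0 : 0 < q := by linarith
  have h1 : ∫ x in cube, ‖pF N L x‖ ^ q ≤ 3 ^ q * ((L : ℝ) + 1) ^ (q - 2) := by
    have hc : Continuous fun x : V => ‖pF N L x‖ ^ q := (pF_cont N L).norm.rpow_const fun x => Or.inr hq0.le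
    have hb : ∀ x, ‖pF N L x‖ ^ q ≤ (3 * ((L : ℝ) + 1)) ^ (q - 1) * |pf N L x| := by
      intro x
      rw [norm_pF]
      rcases eq_or_lt_of_le (abs_nonneg (pf N L x)) with h0 | h0
      · rw [← h0, Real.zero_rpow hq0.ne', mul_zero]
      · have e : |pf N L x| ^ q = |pf N L x| ^ (q - 1) * |pf N L x| := by
          have := Real.rpow_add h0 (q - 1) 1
          rw [Real.rpow_one] at this
          rw [← this]; congr 1; ring
        rw [e]
        gcongr
        exact pf_sup N L x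
    calc ∫ x in cube, ‖pF N L x‖ ^ q ≤ ∫ x in cube, (3 * ((L : ℝ) + 1)) ^ (q - 1) * |pf N L x| :=
          setIntegral_mono_on (int_on_cube hc) (int_on_cube ((pf_cont N L).abs.const_mul _)) measurableSet_Icc
            fun x _ => hb x
      _ = (3 * ((L : ℝ) + 1)) ^ (q - 1) * ∫ x in cube, |pf N L x| := integral_const_mul _ _
      _ ≤ (3 * ((L : ℝ) + 1)) ^ (q - 1) * (3 / ((L : ℝ) + 1)) := by
          have := pf_l1 N L
          gcongr
      _ = 3 ^ q * ((L : ℝ) + 1) ^ (q - 2) := by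
          rw [Real.mul_rpow (by norm_num) hl.le]
          have e1 : (3 : ℝ) ^ q = 3 ^ (q - 1) * 3 := by
            have := Real.rpow_add (by norm_num : (0 : ℝ) < 3) (q - 1) 1
            rw [Real.rpow_one] at this
            rw [← this]; congr 1; ring
          have e2 : ((L : ℝ) + 1) ^ (q - 1) = ((L : ℝ) + 1) ^ (q - 2) * ((L : ℝ) + 1) := by
            have := Real.rpow_add hl (q - 2) 1
            rw [Real.rpow_one] at this
            rw [← this]; congr 1; ring
          rw [e1, e2]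
          field_simp
  calc (∫ x in cube, ‖pF N L x‖ ^ q) ^ (1 / q) ≤ (3 ^ q * ((L : ℝ) + 1) ^ (q - 2)) ^ (1 / q) := by
        refine Real.rpow_le_rpow (integral_nonneg fun x => Real.rpow_nonneg (norm_nonneg _) _) h1 (by positivity)
    _ = 3 * ((L : ℝ) + 1) ^ (1 - 2 / q) := by
        rw [Real.mul_rpow (by positivity) (by positivity), ← Real.rpow_mul (by norm_num), ← Real.rpow_mul hl.le,
          mul_one_div_cancel hq0.ne', Real.rpow_one]
        congr 2
        field_simp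

/-- The coefficients in terms of the Lebesgue norms. -/
theorem co_lp (N L : ℕ) {p : ℝ} (hp : 1 < p) {u : V → V} (hu : Continuous u) :
    |ip u (pF N L)| ≤ 3 * ((L : ℝ) + 1) ^ (2 / p - 1) * lpn p u := by
  have hp0 : 0 < p := by linarith
  set q : ℝ := p / (p - 1) with hq
  have hpq : p.HolderConjugate q := Real.HolderConjugate.conjExponent hp
  have h1 : |ip u (pF N L)| ≤ ∫ x in cube, ‖u x‖ * ‖pF N L x‖ := by
    have hb : IntegrableOn (fun x => ‖u x‖ * ‖pF N L x‖) cube := int_on_cube (hu.norm.mul (pF_cont N L).norm)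
    show ‖∫ x in cube, ∑ i, u x i * pF N L x i‖ ≤ _
    refine norm_integral_le_of_norm_le hb (Eventually.of_forall fun x => ?_)
    have e : ∑ i, u x i * pF N L x i = u x 2 * pf N L x := by
      rw [Fin.sum_univ_three]
      show u x 0 * 0 + u x 1 * 0 + u x 2 * pf N L x = _
      ring
    rw [e, norm_mul, norm_pF]
    exact mul_le_mul_of_nonneg_right (norm_le_pi_norm (u x) 2) (abs_nonneg _)
  have h2 := integral_mul_norm_le_Lp_mul_Lq (μ := volume.restrict cube) hpq (memLp_cube hu p)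
    (memLp_cube (pF_cont N L) q)
  have hq1 : 1 < q := hpq.symm.lt
  have h3 := pF_lq N L hq1
  have e : 1 - 2 / q = 2 / p - 1 := by
    have := hpq.inv_add_inv_eq_one
    rw [div_eq_mul_inv, div_eq_mul_inv]
    linarith
  rw [e] at h3
  have h4 := lpn_nonneg p u
  calc |ip u (pF N L)| ≤ _ := h1
    _ ≤ _ := h2
    _ ≤ lpn p u * (3 * ((L : ℝ) + 1) ^ (2 / p - 1)) := mul_le_mul_of_nonneg_left h3 h4
    _ = _ := by ring

end Pool.Agent.N980.WP
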