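import Pool.Agent.N980.WP.Pf

/-!
The operator.
-/

open MeasureTheory Set Filter Topology
open scoped ContDiff

set_option linter.unusedVariables false

namespace Pool.Agent.N980.WP

open Pool.Agent.N980.NU
open Pool.Agent.N980.CB (one_le_R R_pos inn out FF)
open Pool.Agent.H356R3.NS (K C3 E3 R3 ex SN Sym RD TT SF SFam Fam cf' at' nk pw fj dS Bf dt)

/-- The shifted family. -/
noncomputable def Fm.sh {R : ℕ} {ℓ : ℕ → ℝ} (X : Fm R ℓ) (w : Wd R ℓ) {C : ℝ} (hC : ∀ n, ℓ (n + 1) ≤ C * ℓ n)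
    (hm : ∀ n, ℓ n ≤ ℓ (n + 1)) : Fm R ℓ where
  ψ := fun n => X.ψ (n + 1)
  L := fun k => X.L k - 1
  c := X.c * (R + |C|)
  lvn := fun k => by rw [X.lvn]
  lv := fun n k hk => by
    obtain ⟨h1, h2, h3⟩ := X.lv (n + 1) k hk
    have hR1 : (1 : ℝ) ≤ R := by have := w.hR; exact_mod_cast (by omega : 1 ≤ R)
    have hR0 := R_pos w.hR n
    have hc := X.c0 w
    refine ⟨by rw [h1]; rfl, le_trans ?_ h2, h3.trans ?_⟩
    · rw [pow_succ]; nlinarith
    · have := abs_nonneg C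
      calc X.c * (R : ℝ) ^ (n + 1) = X.c * R * (R : ℝ) ^ n := by rw [pow_succ]; ring
        _ ≤ X.c * (R + |C|) * (R : ℝ) ^ n := by gcongr; linarith
  fin := fun n => X.fin (n + 1)
  sym := fun n => X.sym (n + 1)
  sup := fun n k => by
    have hR1 : (1 : ℝ) ≤ R := by have := w.hR; exact_mod_cast (by omega : 1 ≤ R)
    have hc := X.c0 w
    have h1 := w.pos n
    have h2 := hm n
    have h3 := abs_nonneg C
    refine (X.sup (n + 1) k).trans ?_
    have h4 : X.c ≤ X.c * (R + |C|) := le_mul_of_one_le_right hc (by linarith)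
    calc X.c / ℓ (n + 1) ≤ X.c / ℓ n := by gcongr
      _ ≤ X.c * (R + |C|) / ℓ n := by gcongr
  l1 := fun n => by
    have hc := X.c0 w
    have h1 := w.pos n
    have h2 := le_abs_self C
    refine (X.l1 (n + 1)).trans ?_
    calc X.c * ℓ (n + 1) ≤ X.c * (|C| * ℓ n) := by
          have := hC n
          gcongr
          nlinarith
      _ ≤ X.c * ((R + |C|) * ℓ n) := by
          have : (0 : ℝ) ≤ R := Nat.cast_nonneg R
          gcongr
          linarith
      _ = _ := by ring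
  l2 := fun n => by
    have hR1 : (1 : ℝ) ≤ R := by have := w.hR; exact_mod_cast (by omega : 1 ≤ R)
    have hc := X.c0 w
    have h3 := abs_nonneg C
    refine (X.l2 (n + 1)).trans ?_
    have h4 : X.c ≤ X.c * (R + |C|) := le_mul_of_one_le_right hc (by linarith)
    gcongr

/-- The parameters of the operator. -/
structure Pm where
  R : ℕ
  L : ℕ → ℕ
  g : ℕ → ℝ
  δ : ℝ
  C : ℝ
  D : ℝ
  wh : Wh R L
  mono : ∀ n, L n ≤ L (n + 1)
  gr : ∀ n, wd L (n + 1) ≤ C * wd L n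
  g0 : ∀ n, 0 ≤ g n
  hg : ∀ n, g n ≤ D * ((R : ℝ) ^ n) ^ 3
  δ0 : 0 ≤ δ
  δ1 : δ ≤ 1

variable (P : Pm)

/-- The packets. -/
noncomputable def Pm.X : Fm P.R (wd P.L) := PX P.wh

theorem Pm.mono' (n : ℕ) : wd P.L n ≤ wd P.L (n + 1) := by
  unfold wd
  have : (P.L n : ℝ) ≤ P.L (n + 1) := by exact_mod_cast P.mono n
  linarith

/-- The shifted packets. -/
noncomputable def Pm.X' : Fm P.R (wd P.L) := P.X.sh P.wh.wd P.gr P.mono'

theorem Pm.Dv : P.X.Dv := PX_Dv P.wh

theorem Pm.Dv' : P.X'.Dv := fun n k => PX_Dv P.wh (n + 1) k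

/-- The coefficient on the packet `n`. -/
noncomputable def Pm.co (u : V → V) (n : ℕ) : ℝ := ip u (pF (P.R ^ n) (P.L n))

theorem Pm.cs_eq (u : V → V) (n : ℕ) : P.X.cs u n = P.co u n := by
  unfold Fm.cs Pm.co Pm.X
  rw [PX_F]

theorem Pm.cs_eq' (u : V → V) (n : ℕ) : P.X'.cs u n = P.co u (n + 1) := P.cs_eq u (n + 1)

theorem Pm.F_eq (n : ℕ) : P.X.F n = pF (P.R ^ n) (P.L n) := PX_F P.wh n

theorem Pm.F_eq' (n : ℕ) : P.X'.F n = pF (P.R ^ (n + 1)) (P.L (n + 1)) := PX_F P.wh (n + 1)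

theorem Pm.hδg (n : ℕ) : |P.δ * P.g n| ≤ P.D * ((P.R : ℝ) ^ n) ^ 3 := by
  have h1 := P.hg n
  have h2 := P.g0 n
  rw [abs_of_nonneg (mul_nonneg P.δ0 h2)]
  have := P.δ1
  nlinarith

theorem Pm.hgg (n : ℕ) : |P.g n| ≤ P.D * ((P.R : ℝ) ^ n) ^ 3 := by
  rw [abs_of_nonneg (P.g0 n)]
  exact P.hg n

/-- The terms of the operator. -/
noncomputable def Pm.T : Fin 4 → Tr P.R (wd P.L) :=
  ![⟨fun n => P.δ * P.g n, P.X, P.X, P.X', P.D, P.hδg, P.Dv'⟩,
    ⟨fun n => P.g n, P.X', P.X, P.X', P.D, P.hgg, P.Dv'⟩,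
    ⟨fun n => -(P.δ * P.g n), P.X, P.X', P.X, P.D, fun n => by rw [abs_neg]; exact P.hδg n, P.Dv⟩,
    ⟨fun n => -P.g n, P.X', P.X', P.X, P.D, fun n => by rw [abs_neg]; exact P.hgg n, P.Dv⟩]

theorem Pm.series {u v : V → V} (hu : SPV u) (hv : SPV v) (x : V) :
    HasSum (fun n => (P.g n * (P.δ * P.co u n + P.co u (n + 1))) •
      (P.co v n • pF (P.R ^ (n + 1)) (P.L (n + 1)) x - P.co v (n + 1) • pF (P.R ^ n) (P.L n) x)) (KQ P.T u v x) := by
  refine (KQ_series P.T P.wh.wd hu hv x).congr_fun fun n => ?_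
  rw [Fin.sum_univ_four]
  simp only [Pm.T, Matrix.cons_val_zero, Matrix.cons_val_one, Matrix.cons_val]
  rw [P.cs_eq, P.cs_eq, P.cs_eq', P.cs_eq', P.F_eq, P.F_eq']
  module

/-- The trilinear form. -/
theorem Pm.form {u v z : V → V} (hu : SPV u) (hv : SPV v) (hz : SPV z) :
    HasSum (fun n => P.g n * (P.δ * P.co u n + P.co u (n + 1)) * (P.co v n * P.co z (n + 1) - P.co v (n + 1) * P.co z n))
      (ip (KQ P.T u v) z) := by
  refine (ip_KQ P.T P.wh.wd hu hv hz).congr_fun fun n => ?_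
  rw [Fin.sum_univ_four]
  simp only [Pm.T, Matrix.cons_val_zero, Matrix.cons_val_one, Matrix.cons_val]
  rw [P.cs_eq, P.cs_eq, P.cs_eq, P.cs_eq', P.cs_eq', P.cs_eq']
  ring

theorem Pm.skew {u v z : V → V} (hu : SPV u) (hv : SPV v) (hz : SPV z) :
    ip (KQ P.T u v) z = -ip v (KQ P.T u z) := by
  rw [ip_comm v]
  refine (P.form hu hv hz).unique ((P.form hu hz hv).neg.congr_fun fun n => ?_)
  ring

theorem Pm.bil : Bil (KQ P.T) := KQ_bil P.T P.wh.wd fun u v hu hv => by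
  have h1 := P.skew hu hv hv
  rw [ip_comm v] at h1
  linarith

theorem Pm.co_F (m n : ℕ) : P.co (P.X.F m) n = if m = n then 1 else 0 := by
  rw [← P.cs_eq]
  exact PX_cs P.wh m n

/-- The coefficients of the operator. -/
theorem Pm.coef {u : ℝ → V → V} {t : ℝ} (hu : SPV (u t)) (m : ℕ) :
    ip (KQ P.T (u t) (u t)) (P.X.F m) = inn P.g P.δ (fun k s => P.co (u s) k) m t
      - out P.g P.δ (fun k s => P.co (u s) k) m t := by
  have h1 := P.form hu hu (P.X.spv m)
  simp only [P.co_F] at h1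
  cases m with
  | zero =>
    have h2 := hasSum_single (f := fun n => P.g n * (P.δ * P.co (u t) n + P.co (u t) (n + 1))
      * (P.co (u t) n * (if 0 = n + 1 then (1 : ℝ) else 0) - P.co (u t) (n + 1) * (if 0 = n then (1 : ℝ) else 0))) 0
      fun n hn => by
        rw [if_neg (by omega), if_neg (by omega)]; ring
    rw [h1.unique h2]
    simp only [inn, out, FF]
    rw [if_neg (by omega)]
    simp
  | succ m =>
    have h2 : HasSum (fun n => P.g n * (P.δ * P.co (u t) n + P.co (u t) (n + 1))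
      * (P.co (u t) n * (if m + 1 = n + 1 then (1 : ℝ) else 0) - P.co (u t) (n + 1) * (if m + 1 = n then (1 : ℝ) else 0)))
      (∑ n ∈ ({m, m + 1} : Finset ℕ), P.g n * (P.δ * P.co (u t) n + P.co (u t) (n + 1))
      * (P.co (u t) n * (if m + 1 = n + 1 then (1 : ℝ) else 0) - P.co (u t) (n + 1) * (if m + 1 = n then (1 : ℝ) else 0))) := by
      refine hasSum_sum_of_ne_finset_zero fun n hn => ?_
      have h3 : n ≠ m := fun h => hn (by simp [h])
      have h4 : n ≠ m + 1 := fun h => hn (by simp [h])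
      rw [if_neg (by omega), if_neg (by omega)]
      ring
    rw [h1.unique h2, Finset.sum_pair (by omega)]
    simp only [inn, out, FF]
    have a1 : ¬(m + 1 = m) := by omega
    have a2 : ¬(m + 1 = m + 1 + 1) := by omega
    simp only [if_true, if_neg a1, if_neg a2]
    ring

end Pool.Agent.N980.WP
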