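import Pool.Agent.N980.WP.Pk

/-!
The family of packets.
-/

open MeasureTheory Set Filter Topology
open scoped ContDiff

set_option linter.unusedVariables false

namespace Pool.Agent.N980.WP

open Pool.Agent.N980.NU
open Pool.Agent.N980.CB (energy_nonneg parseval)
open Pool.Agent.H356R3.NS (K C3 E3 R3 ex SN Sym RD TT SF SFam Fam cf' at' nk pw fj dS Bf dt)

/-- The conditions on the ratio and the widths. -/
structure Wh (R : ℕ) (L : ℕ → ℕ) : Prop where
  hR : 4 ≤ R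
  hL : ∀ n, 2 * L n ≤ R ^ n

variable {R : ℕ} {L : ℕ → ℕ}

theorem Wh.lt (h : Wh R L) (n : ℕ) : L n < R ^ n := by
  have h1 := h.hL n
  have h2 : 0 < R ^ n := Nat.pow_pos (by have := h.hR; omega)
  omega

/-- The width. -/
noncomputable def wd (L : ℕ → ℕ) (n : ℕ) : ℝ := (L n : ℝ) + 1

theorem Wh.wd (h : Wh R L) : Wd R (wd L) where
  hR := by have := h.hR; omega
  one := fun n => by unfold WP.wd; have : (0 : ℝ) ≤ L n := Nat.cast_nonneg _; linarith
  le := fun n => by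
    unfold WP.wd
    have h1 : L n + 1 ≤ R ^ n := h.lt n
    exact_mod_cast h1

/-- The level of a frequency. -/
def lev (R : ℕ) (k : K) : ℕ := Nat.log R (2 * (k 0).natAbs)

theorem lev_eq (hR : 4 ≤ R) {k : K} {n : ℕ} (h1 : R ^ n ≤ 2 * (k 0).natAbs) (h2 : 2 * (k 0).natAbs ≤ 3 * R ^ n) :
    lev R k = n := by
  unfold lev
  refine Nat.log_eq_of_pow_le_of_lt_pow h1 ?_
  rw [pow_succ]
  have h3 : 0 < R ^ n := Nat.pow_pos (by omega)
  nlinarith

theorem Wh.supp (h : Wh R L) {n : ℕ} {k : K} (hk : pc (R ^ n) (L n) k ≠ 0) :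
    R ^ n ≤ 2 * (k 0).natAbs ∧ 2 * (k 0).natAbs ≤ 3 * R ^ n ∧ 2 * (k 1).natAbs ≤ R ^ n ∧ k 2 = 0 := by
  obtain ⟨h1, h2, h3, h4⟩ := pc_supp hk
  have hL := h.hL n
  push_cast at h1 h2
  refine ⟨?_, ?_, ?_, h4⟩
  · zify at hL ⊢
    linarith
  · zify at hL ⊢
    linarith
  · zify at hL ⊢
    linarith

theorem natAbs_cast (j : ℤ) : ((j.natAbs : ℕ) : ℝ) = |(j : ℝ)| := by
  rw [← Int.cast_abs, Int.abs_eq_natAbs]
  simp

theorem Wh.suppR (h : Wh R L) {n : ℕ} {k : K} (hk : pc (R ^ n) (L n) k ≠ 0) :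
    (R : ℝ) ^ n ≤ 2 * |(k 0 : ℝ)| ∧ 2 * |(k 0 : ℝ)| ≤ 3 * (R : ℝ) ^ n ∧ 2 * |(k 1 : ℝ)| ≤ (R : ℝ) ^ n ∧ k 2 = 0 := by
  obtain ⟨h1, h2, h3, h4⟩ := h.supp hk
  refine ⟨?_, ?_, ?_, h4⟩
  · rw [← natAbs_cast]; exact_mod_cast h1
  · rw [← natAbs_cast]; exact_mod_cast h2
  · rw [← natAbs_cast]; exact_mod_cast h3

theorem norm_fj_eq (k : K) (j : Fin 3) : ‖fj k j‖ = 2 * Real.pi * |(k j : ℝ)| := by
  unfold H356R3.NS.fj
  rw [norm_mul, norm_mul, norm_mul, Complex.norm_I, mul_one, Complex.norm_real,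
    Real.norm_eq_abs, abs_of_pos Real.pi_pos, Complex.norm_ofNat, Complex.norm_intCast]

/-- The family of packets. -/
noncomputable def PX (h : Wh R L) : Fm R (wd L) where
  ψ := fun n => pψ (R ^ n) (L n)
  L := lev R
  c := 3
  lvn := fun k => by unfold lev; simp
  lv := fun n k hk => by
    have hp := pψ_ne hk
    obtain ⟨h1, h2, h3, h4⟩ := h.supp hp
    obtain ⟨r1, r2, r3, r4⟩ := h.suppR hp
    refine ⟨lev_eq h.hR h1 h2, r1, ?_⟩
    simp only [pw, H356R3.NS.l1, Fin.sum_univ_three, r4]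
    have h5 : (1 : ℝ) ≤ (R : ℝ) ^ n := one_le_pow₀ (by have := h.hR; exact_mod_cast (by omega : 1 ≤ R))
    simp only [Int.cast_zero, abs_zero]
    linarith
  fin := fun n => pψ_fin _ _
  sym := fun n => pψ_sym _ _
  sup := fun n k => by
    rw [norm_pψ]
    exact pc_le _ _ k
  l1 := fun n => by
    simp only [norm_pψ]
    exact pc_l1 _ _
  l2 := fun n => by
    have e : ∀ k : K, ∑ i, ‖pψ (R ^ n) (L n) k i‖ ^ 2 = pc (R ^ n) (L n) k ^ 2 := by
      intro k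
      rw [Fin.sum_univ_three]
      unfold pψ
      simp
    simp only [e]
    rw [pc_l2 (h.lt n)]
    norm_num

theorem PX_Dv (h : Wh R L) : (PX h).Dv := by
  intro n k
  show dt k (pψ (R ^ n) (L n) k) = 0
  unfold H356R3.NS.dt
  rw [Fin.sum_univ_three]
  by_cases hk : pc (R ^ n) (L n) k = 0
  · unfold pψ
    simp [hk]
  · have := (h.supp hk).2.2.2
    unfold pψ
    simp [this]

/-- The scalar packet. -/
noncomputable def pf (N L : ℕ) (x : V) : ℝ :=
  Real.sqrt 2 * Real.cos (2 * Real.pi * (N * x 0)) * fej L (x 0) * fej L (x 1) / fS L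

/-- The packet as a field. -/
noncomputable def pF (N L : ℕ) (x : V) : V := ![0, 0, pf N L x]

theorem PX_F (h : Wh R L) (n : ℕ) : (PX h).F n = pF (R ^ n) (L n) := by
  funext x i
  show (fs (fun k => pψ (R ^ n) (L n) k i) x).re = _
  fin_cases i
  · simp [fs, pψ, pF]
  · simp [fs, pψ, pF]
  · have h1 : fs (fun k => pψ (R ^ n) (L n) k 2) x = ((pf (R ^ n) (L n) x : ℝ) : ℂ) := pc_phys (R ^ n) (L n) x
    show (fs (fun k => pψ (R ^ n) (L n) k 2) x).re = pf (R ^ n) (L n) x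
    rw [h1, Complex.ofReal_re]

/-- Orthonormality. -/
theorem PX_on (h : Wh R L) (m n : ℕ) : (PX h).co (pψ (R ^ m) (L m)) n = if m = n then 1 else 0 := by
  unfold Fm.co
  have e : ∀ k : K, ∑ i, pψ (R ^ m) (L m) k i * star ((PX h).ψ n k i)
      = ((pc (R ^ m) (L m) k * pc (R ^ n) (L n) k : ℝ) : ℂ) := by
    intro k
    show ∑ i, pψ (R ^ m) (L m) k i * star (pψ (R ^ n) (L n) k i) = _
    rw [Fin.sum_univ_three]
    unfold pψ
    simp
  simp only [e]
  rw [← Complex.ofReal_tsum, Complex.ofReal_re]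
  by_cases hmn : m = n
  · subst hmn
    rw [if_pos rfl, ← pc_l2 (h.lt m)]
    exact tsum_congr fun k => by ring
  · rw [if_neg hmn]
    have : ∀ k : K, pc (R ^ m) (L m) k * pc (R ^ n) (L n) k = 0 := by
      intro k
      by_contra hc
      obtain ⟨a1, a2, a3, a4⟩ := h.supp (left_ne_zero_of_mul hc)
      obtain ⟨b1, b2, b3, b4⟩ := h.supp (right_ne_zero_of_mul hc)
      exact hmn ((lev_eq h.hR a1 a2).symm.trans (lev_eq h.hR b1 b2))
    simp [this]

theorem Fm.fco_F {ℓ : ℕ → ℝ} (X : Fm R ℓ) (n : ℕ) : fco (X.F n) = X.ψ n := by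
  funext k i
  exact fco_fs (X.sn n) (X.sym n) k i

theorem PX_cs (h : Wh R L) (m n : ℕ) : (PX h).cs ((PX h).F m) n = if m = n then 1 else 0 := by
  rw [(PX h).cs_eq ((PX h).spv m).cont, (PX h).fco_F]
  exact PX_on h m n

/-! ### the packets are almost eigenfunctions of the Laplacian -/

/-- The coefficients of the defect. -/
noncomputable def df (μ : ℝ) (a : K → C3) (k : K) : C3 := (μ - 4 * Real.pi ^ 2 * H356R3.NS.sq k) • a k

theorem sq_neg' (k : K) : H356R3.NS.sq (-k) = H356R3.NS.sq k := by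
  unfold H356R3.NS.sq
  simp

theorem df_sym (μ : ℝ) {a : K → C3} (ha : Sym a) : Sym (df μ a) := by
  intro k i
  unfold df
  rw [sq_neg', Pi.smul_apply, Pi.smul_apply, star_smul, star_trivial, ha]

theorem fin_RD {a : K → C3} (ha : (Function.support a).Finite) (i : Fin 3) : RD (cst fun k => a k i) := by
  refine RD_of_summ fun m => summable_of_hasFiniteSupport (ha.subset fun k hk => ?_)
  intro h0
  exact hk (by simp [h0])

theorem lap_fd {a : K → C3} (ha : (Function.support a).Finite) (μ : ℝ) (x : V) :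
    lap (fd a) x + μ • fd a x = fd (df μ a) x := by
  funext i
  have hr : ∀ i, RD (cst fun k => a k i) := fun i => fin_RD ha i
  have e1 : ∀ j, pd j (fun y => fd a y i) = fun x => (fs (fun k => fj k j * a k i) x).re := fun j =>
    funext fun x => pd_fs (hr i) j x
  have e2 : lap (fd a) x i = (fs (fun k => ∑ j, fj k j * (fj k j * a k i)) x).re := by
    unfold NU.lap
    simp only [e1]
    simp only [pd_fs (RD_fj (hr i) _)]
    rw [← Complex.re_sum, ← fs_finsum Finset.univ (a := fun j k => fj k j * (fj k j * a k i))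
      (fun j _ => RD_summ (RD_fj (RD_fj (hr i) j) j))]
  have s1 : Summable fun k => ‖∑ j, fj k j * (fj k j * a k i)‖ :=
    summable_of_hasFiniteSupport (ha.subset fun k hk => by
      intro h0
      exact hk (by simp [h0]))
  have s2 : Summable fun k => ‖(μ : ℂ) * a k i‖ :=
    summable_of_hasFiniteSupport (ha.subset fun k hk => by
      intro h0
      exact hk (by simp [h0]))
  have e3 : μ * (fs (fun k => a k i) x).re = (fs (fun k => (μ : ℂ) * a k i) x).re := by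
    rw [← Complex.re_ofReal_mul, fs_smul']
  show lap (fd a) x i + μ * (fs (fun k => a k i) x).re = (fs (fun k => df μ a k i) x).re
  rw [e2, e3, ← Complex.add_re, ← fs_add' s1 s2]
  congr 2
  funext k
  have hI : fj k 0 * fj k 0 + fj k 1 * fj k 1 + fj k 2 * fj k 2 = ((-(4 * Real.pi ^ 2 * H356R3.NS.sq k) : ℝ) : ℂ) := by
    unfold H356R3.NS.fj H356R3.NS.sq
    rw [Fin.sum_univ_three]
    push_cast
    have := Complex.I_sq
    linear_combination (4 * (Real.pi : ℂ) ^ 2 * ((k 0 : ℂ) ^ 2 + (k 1 : ℂ) ^ 2 + (k 2 : ℂ) ^ 2)) * this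
  unfold df
  rw [Pi.smul_apply, Complex.real_smul, Fin.sum_univ_three]
  have e4 : (((μ - 4 * Real.pi ^ 2 * H356R3.NS.sq k : ℝ)) : ℂ)
      = (μ : ℂ) + ((-(4 * Real.pi ^ 2 * H356R3.NS.sq k) : ℝ) : ℂ) := by push_cast; ring
  rw [e4, ← hI]
  ring

theorem df_fin {a : K → C3} (ha : (Function.support a).Finite) (μ : ℝ) : (Function.support (df μ a)).Finite := by
  refine ha.subset fun k hk => ?_
  intro h0
  exact hk (by unfold df; rw [h0, smul_zero])

theorem fin_SN {a : K → C3} (ha : (Function.support a).Finite) : SN a :=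
  summable_of_hasFiniteSupport (ha.subset fun k hk => by
    intro h0
    exact hk (by simp [h0]))

theorem df_energy {a : K → C3} (ha : (Function.support a).Finite) (hs : Sym a) {μ D : ℝ} (hD : 0 ≤ D)
    (h : ∀ k, a k ≠ 0 → |μ - 4 * Real.pi ^ 2 * H356R3.NS.sq k| ≤ D) (h2 : ∑' k, ∑ i, ‖a k i‖ ^ 2 ≤ 1) :
    energy (fd (df μ a)) ≤ D ^ 2 := by
  have hfin := df_fin ha μ
  have hspv : SPV (fd (df μ a)) := SPV_fd (fin_RD hfin)
  have hf : fco (fd (df μ a)) = df μ a := by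
    funext k i
    exact fco_fs (fin_SN hfin) (df_sym μ hs) k i
  rw [parseval hspv]
  have e : ∀ k, e2 (fd (df μ a)) k ^ 2 ≤ D ^ 2 * ∑ i, ‖a k i‖ ^ 2 := by
    intro k
    rw [e2_sq, hf, Finset.mul_sum]
    refine Finset.sum_le_sum fun i _ => ?_
    unfold df
    rw [Pi.smul_apply, norm_smul, mul_pow, Real.norm_eq_abs]
    by_cases hk : a k = 0
    · rw [hk]; simp
    · have := h k hk
      gcongr
  have s1 : Summable fun k => ∑ i, ‖a k i‖ ^ 2 := summable_of_hasFiniteSupport (ha.subset fun k hk => by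
    intro h0
    exact hk (by simp [h0]))
  calc ∑' k, e2 (fd (df μ a)) k ^ 2 ≤ ∑' k, D ^ 2 * ∑ i, ‖a k i‖ ^ 2 :=
        (CB.e2_summ hspv).tsum_le_tsum e (s1.mul_left _)
    _ = D ^ 2 * ∑' k, ∑ i, ‖a k i‖ ^ 2 := tsum_mul_left
    _ ≤ D ^ 2 * 1 := by gcongr
    _ = D ^ 2 := mul_one _

/-- The bound of the defect for the packets. -/
theorem Wh.sq_le (h : Wh R L) {n : ℕ} {k : K} (hk : pc (R ^ n) (L n) k ≠ 0) :
    |4 * Real.pi ^ 2 * ((R : ℝ) ^ n) ^ 2 - 4 * Real.pi ^ 2 * H356R3.NS.sq k| ≤ 120 * ((R : ℝ) ^ n * WP.wd L n) := by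
  obtain ⟨h1, h2, h3, h4⟩ := pc_supp hk
  have hL := h.hL n
  have h1' : ((R : ℝ) ^ n) - L n ≤ |(k 0 : ℝ)| := by
    have : (((R ^ n : ℕ) : ℤ) - (L n : ℤ) : ℤ) ≤ |k 0| := h1
    have h5 : ((((R ^ n : ℕ) : ℤ) - (L n : ℤ) : ℤ) : ℝ) ≤ ((|k 0| : ℤ) : ℝ) := by exact_mod_cast this
    push_cast at h5
    exact h5
  have h2' : |(k 0 : ℝ)| ≤ (R : ℝ) ^ n + L n := by
    have h5 : ((|k 0| : ℤ) : ℝ) ≤ ((((R ^ n : ℕ) : ℤ) + (L n : ℤ) : ℤ) : ℝ) := by exact_mod_cast h2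
    push_cast at h5
    exact h5
  have h3' : |(k 1 : ℝ)| ≤ L n := by
    have h5 : ((|k 1| : ℤ) : ℝ) ≤ ((L n : ℤ) : ℝ) := by exact_mod_cast h3
    push_cast at h5
    exact h5
  have hL' : 2 * (L n : ℝ) ≤ (R : ℝ) ^ n := by exact_mod_cast hL
  have hL0 : (0 : ℝ) ≤ L n := Nat.cast_nonneg _
  set N : ℝ := (R : ℝ) ^ n with hN
  set l : ℝ := (L n : ℝ) with hl
  have hpi : Real.pi < 3.15 := Real.pi_lt_d2
  have hpi0 := Real.pi_pos
  have e : 4 * Real.pi ^ 2 * N ^ 2 - 4 * Real.pi ^ 2 * H356R3.NS.sq k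
      = 4 * Real.pi ^ 2 * ((N ^ 2 - |(k 0 : ℝ)| ^ 2) - |(k 1 : ℝ)| ^ 2) := by
    unfold H356R3.NS.sq
    rw [Fin.sum_univ_three, h4, sq_abs, sq_abs]
    push_cast
    ring
  have hk1 := abs_nonneg (k 1 : ℝ)
  have hk0 := abs_nonneg (k 0 : ℝ)
  have b1 : |(N ^ 2 - |(k 0 : ℝ)| ^ 2) - |(k 1 : ℝ)| ^ 2| ≤ 3 * (N * l) := by
    rw [abs_le]
    constructor
    · nlinarith
    · nlinarith
  rw [e, abs_mul, abs_of_pos (by positivity)]
  unfold WP.wd
  rw [← hl]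
  have hN0 : 0 ≤ N := by linarith
  calc 4 * Real.pi ^ 2 * |(N ^ 2 - |(k 0 : ℝ)| ^ 2) - |(k 1 : ℝ)| ^ 2|
      ≤ 4 * 3.15 ^ 2 * (3 * (N * l)) := by gcongr
    _ ≤ 120 * (N * (l + 1)) := by nlinarith [mul_nonneg hN0 hL0]

/-- The Laplacian of a packet tested against a field. -/
theorem PX_lap (h : Wh R L) {v : V → V} (hv : SPV v) (n : ℕ) :
    |ip v (lap ((PX h).F n)) + 4 * Real.pi ^ 2 * ((R : ℝ) ^ n) ^ 2 * (PX h).cs v n|
      ≤ 120 * ((R : ℝ) ^ n * wd L n) * Real.sqrt (energy v) := by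
  set μ : ℝ := 4 * Real.pi ^ 2 * ((R : ℝ) ^ n) ^ 2 with hμ
  set F := (PX h).F n with hF
  have hFs : SPV F := (PX h).spv n
  have hw := h.wd
  have hR0 := CB.R_pos hw.hR n
  have hwp := hw.pos n
  have e1 : ip v (lap F) + μ * (PX h).cs v n = ip v (fd (df μ (pψ (R ^ n) (L n)))) := by
    have h1 : lap F + μ • F = fd (df μ (pψ (R ^ n) (L n))) := by
      funext x
      exact lap_fd (pψ_fin (R ^ n) (L n)) μ x
    rw [← h1, ip_comm v (lap F + μ • F), ip_add (SPV.lap hFs).cont (hFs.cont.const_smul μ) hv.cont,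
      ip_smul, ip_comm (lap F), ip_comm F]
    rfl
  rw [e1]
  have h2 : energy (fd (df μ (pψ (R ^ n) (L n)))) ≤ (120 * ((R : ℝ) ^ n * wd L n)) ^ 2 := by
    refine df_energy (pψ_fin _ _) (pψ_sym _ _) (by positivity) (fun k hk => ?_) ?_
    · exact h.sq_le (pψ_ne hk)
    · have e : ∀ k : K, ∑ i, ‖pψ (R ^ n) (L n) k i‖ ^ 2 = pc (R ^ n) (L n) k ^ 2 := by
        intro k
        rw [Fin.sum_univ_three]
        unfold pψ
        simp
      simp only [e]
      exact (pc_l2 (h.lt n)).le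
  have h3 := ip_cs hv (SPV_fd (fin_RD (df_fin (pψ_fin (R ^ n) (L n)) μ)))
  have h4 : Real.sqrt (energy (fd (df μ (pψ (R ^ n) (L n))))) ≤ 120 * ((R : ℝ) ^ n * wd L n) :=
    Real.sqrt_le_iff.2 ⟨by positivity, h2⟩
  calc _ ≤ _ := h3
    _ ≤ Real.sqrt (energy v) * (120 * ((R : ℝ) ^ n * wd L n)) := by gcongr
    _ = _ := by ring

end Pool.Agent.N980.WP
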