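import Pool.Agent.N980.WP.Fej

/-!
The packets.
-/

open MeasureTheory Set Filter Topology
open scoped ContDiff

set_option linter.unusedVariables false

namespace Pool.Agent.N980.WP

open Pool.Agent.N980.NU
open Pool.Agent.H356R3.NS (K C3 E3 R3 ex SN Sym RD TT SF SFam Fam cf' at' nk pw fj dS Bf dt)

/-! ### sums of products -/

theorem tsum_pi3 {𝕜 : Type*} [NormedField 𝕜] (g : Fin 3 → ℤ → 𝕜) (t : Fin 3 → Finset ℤ)
    (hg : ∀ i j, j ∉ t i → g i j = 0) : ∑' k : K, ∏ i, g i (k i) = ∏ i, ∑ j ∈ t i, g i j := by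
  classical
  rw [Finset.prod_univ_sum]
  refine tsum_eq_sum fun k hk => ?_
  rw [Fintype.mem_piFinset] at hk
  push Not at hk
  obtain ⟨i, hi⟩ := hk
  exact Finset.prod_eq_zero (Finset.mem_univ i) (hg i _ hi)

theorem shift_sum {E : Type*} [AddCommMonoid E] (F : ℤ → ℤ → E) {L N : ℕ} {a : ℤ} (ha : |a| ≤ N)
    (hF : ∀ m j, m ∉ Finset.Icc (-(L : ℤ)) L → F m j = 0) :
    ∑ j ∈ Finset.Icc (-((N : ℤ) + L)) (N + L), F (j - a) j = ∑ m ∈ Finset.Icc (-(L : ℤ)) L, F m (m + a) := by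
  have h1 : ∑ m ∈ Finset.Icc (-(L : ℤ)) L, F m (m + a)
      = ∑ j ∈ (Finset.Icc (-(L : ℤ)) L).map (addRightEmbedding a), F (j - a) j := by
    rw [Finset.sum_map]
    refine Finset.sum_congr rfl fun m _ => ?_
    simp
  rw [h1]
  symm
  refine Finset.sum_subset ?_ fun j hj hj' => ?_
  · intro j hj
    rw [Finset.mem_map] at hj
    obtain ⟨m, hm, rfl⟩ := hj
    rw [Finset.mem_Icc] at hm ⊢
    have := abs_le.1 ha
    simp only [addRightEmbedding_apply]
    omega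
  · refine hF _ _ fun hm => hj' ?_
    rw [Finset.mem_map]
    exact ⟨j - a, hm, by simp⟩

/-- The profile in the first direction. -/
noncomputable def hp (N L : ℕ) (j : ℤ) : ℝ := fw L (j - N) + fw L (j + N)

/-- The interval of the first frequencies. -/
noncomputable def I0 (N L : ℕ) : Finset ℤ := Finset.Icc (-((N : ℤ) + L)) (N + L)

/-- The interval of the second frequencies. -/
noncomputable def I1 (L : ℕ) : Finset ℤ := Finset.Icc (-(L : ℤ)) L

theorem hp_nonneg (N L : ℕ) (j : ℤ) : 0 ≤ hp N L j := add_nonneg (fw_nonneg _ _) (fw_nonneg _ _)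

theorem hp_neg (N L : ℕ) (j : ℤ) : hp N L (-j) = hp N L j := by
  unfold hp
  have e1 : fw L (-j - N) = fw L (j + N) := by rw [← fw_neg]; congr 1; ring
  have e2 : fw L (-j + N) = fw L (j - N) := by rw [← fw_neg]; congr 1; ring
  rw [e1, e2, add_comm]

theorem hp_abs {N L : ℕ} {j : ℤ} (h : hp N L j ≠ 0) : (N : ℤ) - L ≤ |j| ∧ |j| ≤ N + L := by
  unfold hp at h
  have h1 : fw L (j - N) ≠ 0 ∨ fw L (j + N) ≠ 0 := by
    by_contra hc
    push Not at hc
    rw [hc.1, hc.2, add_zero] at h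
    exact h rfl
  rcases h1 with h1 | h1
  · have := abs_le.1 (fw_pos h1)
    constructor
    · exact le_trans (by omega) (le_abs_self j)
    · rw [abs_le]; omega
  · have := abs_le.1 (fw_pos h1)
    constructor
    · exact le_trans (by omega) (neg_le_abs j)
    · rw [abs_le]; omega

theorem hp_out {N L : ℕ} {j : ℤ} (h : j ∉ I0 N L) : hp N L j = 0 := by
  by_contra hc
  have h1 := (hp_abs hc).2
  exact h (Finset.mem_Icc.2 (by have := abs_le.1 h1; omega))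

theorem hp_le (N L : ℕ) (j : ℤ) : hp N L j ≤ 2 := by
  unfold hp
  have := fw_le_one L (j - N)
  have := fw_le_one L (j + N)
  linarith

theorem hp_fourier (N L : ℕ) (φ : ℤ → ℂ) : ∑ j ∈ I0 N L, (hp N L j : ℂ) * φ j
    = ∑ m ∈ I1 L, (fw L m : ℂ) * φ (m + N) + ∑ m ∈ I1 L, (fw L m : ℂ) * φ (m - N) := by
  have h1 := shift_sum (fun m j => (fw L m : ℂ) * φ j) (L := L) (N := N) (a := N) (by simp)
    (fun m j hm => by simp [fw_supp L hm])
  have h2 := shift_sum (fun m j => (fw L m : ℂ) * φ j) (L := L) (N := N) (a := -N) (by simp)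
    (fun m j hm => by simp [fw_supp L hm])
  simp only [sub_neg_eq_add, ← sub_eq_add_neg] at h2
  unfold I0 I1 hp
  rw [← h1, ← h2, ← Finset.sum_add_distrib]
  refine Finset.sum_congr rfl fun j _ => ?_
  push_cast
  ring

theorem hp_sum (N L : ℕ) : ∑ j ∈ I0 N L, hp N L j = 2 * ((L : ℝ) + 1) := by
  have h := hp_fourier N L (fun _ => 1)
  simp only [mul_one] at h
  have h2 : ∑ m ∈ I1 L, (fw L m : ℂ) = ((L : ℝ) + 1 : ℝ) := by
    rw [← fw_sum, Complex.ofReal_sum]; rfl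
  rw [h2] at h
  have h3 : ((∑ j ∈ I0 N L, hp N L j : ℝ) : ℂ) = ((2 * ((L : ℝ) + 1) : ℝ) : ℂ) := by
    rw [Complex.ofReal_sum, h]
    push_cast
    ring
  exact_mod_cast h3

theorem hp_sq {N L : ℕ} (h : L < N) (j : ℤ) : hp N L j ^ 2 = fw L (j - N) ^ 2 + fw L (j + N) ^ 2 := by
  have h1 : fw L (j - N) * fw L (j + N) = 0 := by
    by_contra hc
    have h2 := abs_le.1 (fw_pos (left_ne_zero_of_mul hc))
    have h3 := abs_le.1 (fw_pos (right_ne_zero_of_mul hc))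
    omega
  unfold hp
  linear_combination 2 * h1

theorem hp_sq_sum {N L : ℕ} (h : L < N) : ∑ j ∈ I0 N L, hp N L j ^ 2 = 2 * fS L := by
  have h1 := shift_sum (fun m j => fw L m ^ 2) (L := L) (N := N) (a := N) (by simp)
    (fun m j hm => by simp [fw_supp L hm])
  have h2 := shift_sum (fun m j => fw L m ^ 2) (L := L) (N := N) (a := -N) (by simp)
    (fun m j hm => by simp [fw_supp L hm])
  simp only [sub_neg_eq_add, ← sub_eq_add_neg] at h2
  simp only [hp_sq h]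
  unfold I0
  rw [Finset.sum_add_distrib, h1, h2]
  unfold fS
  ring

/-! ### the coefficients -/

/-- The scalar coefficients of the packet. -/
noncomputable def pc (N L : ℕ) (k : K) : ℝ :=
  (Real.sqrt 2 * fS L)⁻¹ * (hp N L (k 0) * fw L (k 1) * (if k 2 = 0 then 1 else 0))

/-- The coefficients of the packet. -/
noncomputable def pψ (N L : ℕ) (k : K) : C3 := ![0, 0, (pc N L k : ℂ)]

theorem pc_nonneg (N L : ℕ) (k : K) : 0 ≤ pc N L k := by
  have h1 := fS_pos L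
  have h2 := hp_nonneg N L (k 0)
  have h3 := fw_nonneg L (k 1)
  unfold pc
  split_ifs
  · positivity
  · simp

theorem norm_v3 (z : ℂ) : ‖(![0, 0, z] : C3)‖ = ‖z‖ := by
  apply le_antisymm
  · rw [pi_norm_le_iff_of_nonneg (norm_nonneg _)]
    intro i
    fin_cases i
    · simp
    · simp
    · exact le_rfl
  · exact norm_le_pi_norm (![0, 0, z] : C3) 2

theorem norm_pψ (N L : ℕ) (k : K) : ‖pψ N L k‖ = pc N L k := by
  unfold pψ
  rw [norm_v3, Complex.norm_real, Real.norm_of_nonneg (pc_nonneg N L k)]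

theorem pψ_ne {N L : ℕ} {k : K} (h : pψ N L k ≠ 0) : pc N L k ≠ 0 := by
  intro h0
  apply h
  rw [← norm_eq_zero, norm_pψ, h0]

theorem pc_supp {N L : ℕ} {k : K} (h : pc N L k ≠ 0) :
    (N : ℤ) - L ≤ |k 0| ∧ |k 0| ≤ N + L ∧ |k 1| ≤ L ∧ k 2 = 0 := by
  unfold pc at h
  have h1 := right_ne_zero_of_mul h
  have h2 := left_ne_zero_of_mul h1
  have h3 := right_ne_zero_of_mul h1
  have h4 := hp_abs (left_ne_zero_of_mul h2)
  have h5 := fw_pos (right_ne_zero_of_mul h2)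
  refine ⟨h4.1, h4.2, h5, ?_⟩
  by_contra hc
  rw [if_neg hc] at h3
  exact h3 rfl

theorem pc_neg (N L : ℕ) (k : K) : pc N L (-k) = pc N L k := by
  unfold pc
  simp only [Pi.neg_apply, hp_neg, fw_neg, neg_eq_zero]

theorem pψ_fin (N L : ℕ) : (Function.support (pψ N L)).Finite := by
  classical
  refine (Finset.finite_toSet (Fintype.piFinset (fun i : Fin 3 => (![I0 N L, I1 L, {0}] : Fin 3 → Finset ℤ) i))).subset
    fun k hk => ?_
  obtain ⟨h1, h2, h3, h4⟩ := pc_supp (pψ_ne hk)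
  rw [Finset.mem_coe, Fintype.mem_piFinset]
  have a1 := abs_le.1 h2
  have a2 := abs_le.1 h3
  intro i
  have b0 : k 0 ∈ I0 N L := Finset.mem_Icc.2 (by constructor <;> omega)
  have b1 : k 1 ∈ I1 L := Finset.mem_Icc.2 (by constructor <;> omega)
  have b2 : k 2 ∈ ({0} : Finset ℤ) := Finset.mem_singleton.2 h4
  fin_cases i
  · exact b0
  · exact b1
  · exact b2

theorem pψ_sym (N L : ℕ) : Sym (pψ N L) := by
  intro k i
  unfold pψ
  rw [pc_neg]
  fin_cases i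
  · simp
  · simp
  · show ((pc N L k : ℝ) : ℂ) = star ((pc N L k : ℝ) : ℂ)
    simp

theorem pc_le (N L : ℕ) (k : K) : pc N L k ≤ 3 / ((L : ℝ) + 1) := by
  have h1 := fS_ge L
  have h2 := fS_pos L
  have h3 := hp_le N L (k 0)
  have h4 := fw_le_one L (k 1)
  have h5 := hp_nonneg N L (k 0)
  have h6 := fw_nonneg L (k 1)
  have h7 : (1.4 : ℝ) ≤ Real.sqrt 2 := Real.le_sqrt_of_sq_le (by norm_num)
  have h8 : (0 : ℝ) < (L : ℝ) + 1 := by positivity
  have h9 : (if k 2 = 0 then (1 : ℝ) else 0) ≤ 1 := by split_ifs <;> norm_num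
  have h10 : (0 : ℝ) ≤ (if k 2 = 0 then (1 : ℝ) else 0) := by split_ifs <;> norm_num
  unfold pc
  rw [inv_mul_eq_div, div_le_div_iff₀ (by positivity) h8]
  calc hp N L (k 0) * fw L (k 1) * (if k 2 = 0 then 1 else 0) * ((L : ℝ) + 1) ≤ 2 * 1 * 1 * ((L : ℝ) + 1) := by gcongr
    _ = 2 * ((L : ℝ) + 1) := by ring
    _ ≤ 3 * (1.4 * (((L : ℝ) + 1) / 2)) := by nlinarith
    _ ≤ 3 * (Real.sqrt 2 * fS L) := by gcongr

/-- The factors of the coefficients. -/
noncomputable def pg (N L : ℕ) (i : Fin 3) (j : ℤ) : ℝ :=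
  (![hp N L, fw L, fun j => if j = 0 then 1 else 0] : Fin 3 → ℤ → ℝ) i j

/-- The intervals of the frequencies. -/
noncomputable def pI (N L : ℕ) (i : Fin 3) : Finset ℤ := (![I0 N L, I1 L, {0}] : Fin 3 → Finset ℤ) i

theorem pg_out (N L : ℕ) (i : Fin 3) (j : ℤ) (h : j ∉ pI N L i) : pg N L i j = 0 := by
  fin_cases i
  · exact hp_out h
  · exact fw_supp L h
  · show (if j = 0 then (1 : ℝ) else 0) = 0
    rw [if_neg]
    intro h0
    exact h (Finset.mem_singleton.2 h0)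

theorem pc_prod (N L : ℕ) (k : K) : pc N L k = (Real.sqrt 2 * fS L)⁻¹ * ∏ i, pg N L i (k i) := by
  rw [Fin.prod_univ_three]
  rfl

theorem pc_l1 (N L : ℕ) : ∑' k : K, pc N L k ≤ 3 * ((L : ℝ) + 1) := by
  simp only [pc_prod]
  rw [tsum_mul_left, tsum_pi3 (pg N L) (pI N L) (pg_out N L), Fin.prod_univ_three]
  have e0 : ∑ j ∈ pI N L 0, pg N L 0 j = 2 * ((L : ℝ) + 1) := hp_sum N L
  have e1 : ∑ j ∈ pI N L 1, pg N L 1 j = (L : ℝ) + 1 := fw_sum L
  have e2 : ∑ j ∈ pI N L 2, pg N L 2 j = 1 := by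
    show ∑ j ∈ ({0} : Finset ℤ), (if j = 0 then (1 : ℝ) else 0) = 1
    simp
  rw [e0, e1, e2]
  have h1 := fS_ge L
  have h2 := fS_pos L
  have h7 : (1.4 : ℝ) ≤ Real.sqrt 2 := Real.le_sqrt_of_sq_le (by norm_num)
  have h8 : (0 : ℝ) < (L : ℝ) + 1 := by positivity
  rw [inv_mul_eq_div, div_le_iff₀ (by positivity)]
  calc 2 * ((L : ℝ) + 1) * ((L : ℝ) + 1) * 1 ≤ 3 * ((L : ℝ) + 1) * (1.4 * (((L : ℝ) + 1) / 2)) := by nlinarith [mul_pos h8 h8]
    _ ≤ 3 * ((L : ℝ) + 1) * (Real.sqrt 2 * fS L) := by gcongr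

theorem pc_l2 {N L : ℕ} (h : L < N) : ∑' k : K, pc N L k ^ 2 = 1 := by
  have e : ∀ k : K, pc N L k ^ 2 = ((Real.sqrt 2 * fS L)⁻¹) ^ 2 * ∏ i, (fun i j => pg N L i j ^ 2) i (k i) := by
    intro k
    rw [pc_prod, mul_pow, ← Finset.prod_pow]
  simp only [e]
  rw [tsum_mul_left, tsum_pi3 (fun i j => pg N L i j ^ 2) (pI N L) (fun i j hj => by
    simp only [pg_out N L i j hj]; norm_num), Fin.prod_univ_three]
  have e0 : ∑ j ∈ pI N L 0, pg N L 0 j ^ 2 = 2 * fS L := hp_sq_sum h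
  have e1 : ∑ j ∈ pI N L 1, pg N L 1 j ^ 2 = fS L := rfl
  have e2 : ∑ j ∈ pI N L 2, pg N L 2 j ^ 2 = 1 := by
    show ∑ j ∈ ({0} : Finset ℤ), (if j = 0 then (1 : ℝ) else 0) ^ 2 = 1
    simp
  rw [e0, e1, e2]
  have h2 := fS_pos L
  have h3 : Real.sqrt 2 ^ 2 = 2 := Real.sq_sqrt (by norm_num)
  rw [inv_pow, mul_pow, h3]
  field_simp

/-- The packet in the physical space. -/
theorem pc_phys (N L : ℕ) (x : V) : ∑' k : K, (pc N L k : ℂ) * ex k x
    = ((Real.sqrt 2 * Real.cos (2 * Real.pi * (N * x 0)) * fej L (x 0) * fej L (x 1) / fS L : ℝ) : ℂ) := by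
  have e : ∀ k : K, (pc N L k : ℂ) * ex k x = ((Real.sqrt 2 * fS L)⁻¹ : ℝ) *
      ∏ i, (fun i (j : ℤ) => (pg N L i j : ℂ) * Complex.exp (2 * Real.pi * Complex.I * ((j : ℂ) * (x i : ℂ)))) i (k i) := by
    intro k
    rw [pc_prod, H356R3.NS.ex_prod, Finset.prod_mul_distrib]
    push_cast
    ring
  simp only [e]
  rw [tsum_mul_left, tsum_pi3 (fun i (j : ℤ) => (pg N L i j : ℂ)
      * Complex.exp (2 * Real.pi * Complex.I * ((j : ℂ) * (x i : ℂ)))) (pI N L) (fun i j hj => by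
    simp only [pg_out N L i j hj]; norm_num), Fin.prod_univ_three]
  have e1 : ∑ j ∈ pI N L 1, (pg N L 1 j : ℂ) * Complex.exp (2 * Real.pi * Complex.I * ((j : ℂ) * (x 1 : ℂ)))
      = (fej L (x 1) : ℂ) := fej_fourier L (x 1)
  have e2 : ∑ j ∈ pI N L 2, (pg N L 2 j : ℂ) * Complex.exp (2 * Real.pi * Complex.I * ((j : ℂ) * (x 2 : ℂ))) = 1 := by
    show ∑ j ∈ ({0} : Finset ℤ), (((if j = 0 then (1 : ℝ) else 0 : ℝ)) : ℂ)
      * Complex.exp (2 * Real.pi * Complex.I * ((j : ℂ) * (x 2 : ℂ))) = 1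
    simp
  have e0 : ∑ j ∈ pI N L 0, (pg N L 0 j : ℂ) * Complex.exp (2 * Real.pi * Complex.I * ((j : ℂ) * (x 0 : ℂ)))
      = 2 * Real.cos (2 * Real.pi * (N * x 0)) * (fej L (x 0) : ℂ) := by
    have h1 := hp_fourier N L (fun j => Complex.exp (2 * Real.pi * Complex.I * ((j : ℂ) * (x 0 : ℂ))))
    have h2 : ∑ j ∈ pI N L 0, (pg N L 0 j : ℂ) * Complex.exp (2 * Real.pi * Complex.I * ((j : ℂ) * (x 0 : ℂ)))
      = ∑ j ∈ I0 N L, (hp N L j : ℂ) * Complex.exp (2 * Real.pi * Complex.I * ((j : ℂ) * (x 0 : ℂ))) := rfl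
    rw [h2, h1]
    have h3 : ∀ m : ℤ, (fw L m : ℂ) * Complex.exp (2 * Real.pi * Complex.I * (((m + N : ℤ) : ℂ) * (x 0 : ℂ)))
        = Complex.exp ((2 * Real.pi * (N * x 0) : ℝ) * Complex.I)
          * ((fw L m : ℂ) * Complex.exp (2 * Real.pi * Complex.I * ((m : ℂ) * (x 0 : ℂ)))) := by
      intro m
      rw [mul_left_comm (Complex.exp _) (fw L m : ℂ), ← Complex.exp_add]
      congr 2
      push_cast
      ring
    have h4 : ∀ m : ℤ, (fw L m : ℂ) * Complex.exp (2 * Real.pi * Complex.I * (((m - N : ℤ) : ℂ) * (x 0 : ℂ)))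
        = Complex.exp (-(2 * Real.pi * (N * x 0) : ℝ) * Complex.I)
          * ((fw L m : ℂ) * Complex.exp (2 * Real.pi * Complex.I * ((m : ℂ) * (x 0 : ℂ)))) := by
      intro m
      rw [mul_left_comm (Complex.exp _) (fw L m : ℂ), ← Complex.exp_add]
      congr 2
      push_cast
      ring
    have h5 := fej_fourier L (x 0)
    simp only [h3, h4]
    rw [← Finset.mul_sum, ← Finset.mul_sum]
    have h6 : ∑ m ∈ I1 L, (fw L m : ℂ) * Complex.exp (2 * Real.pi * Complex.I * ((m : ℂ) * (x 0 : ℂ)))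
      = (fej L (x 0) : ℂ) := h5
    rw [h6, Complex.exp_mul_I, Complex.exp_mul_I, Complex.cos_neg, Complex.sin_neg]
    push_cast
    ring
  rw [e0, e1, e2]
  have h2 := fS_pos L
  have h3 : Real.sqrt 2 * Real.sqrt 2 = 2 := Real.mul_self_sqrt (by norm_num)
  have h4 : (0 : ℝ) < Real.sqrt 2 := by positivity
  have e6 : (Real.sqrt 2 * fS L)⁻¹ * (2 * Real.cos (2 * Real.pi * (N * x 0)) * fej L (x 0) * fej L (x 1))
      = Real.sqrt 2 * Real.cos (2 * Real.pi * (N * x 0)) * fej L (x 0) * fej L (x 1) / fS L := by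
    rw [inv_mul_eq_div, div_eq_div_iff (by positivity) h2.ne']
    linear_combination (-Real.cos (2 * Real.pi * (N * x 0)) * fej L (x 0) * fej L (x 1) * fS L) * h3
  rw [← e6]
  push_cast
  ring

end Pool.Agent.N980.WP
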