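import Pool.Agent.N980.WP.Op
import Pool.Agent.N980.WP.Casc

/-!
The parameters; the chain system of a smooth solution.
-/

open MeasureTheory Set Filter Topology
open scoped ContDiff

set_option linter.unusedVariables false

namespace Pool.Agent.N980.WP

open Pool.Agent.N980.NU
open Pool.Agent.N980.CB (one_le_R R_pos inn out FF gG Par zz zz16 par_zz energy_nonneg rpow_swap)

/-- The conditions on the parameters. -/
structure PC (R : ℕ) (σ κ : ℝ) : Prop where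
  s2 : 2 < σ
  k0 : 0 < κ
  k1 : κ < 1
  sk : σ < 2 + κ
  R4 : 4 ≤ R
  RΛ : 10 ^ 4 * (R : ℝ) ^ 2 ≤ (R : ℝ) ^ σ
  RQ : 10 ^ 5 ≤ (R : ℝ) ^ κ

variable {R : ℕ} {σ κ : ℝ}

theorem PC.R0 (h : PC R σ κ) : (0 : ℝ) < R := by
  have := h.R4
  have : 0 < R := by omega
  exact_mod_cast this

theorem PC.R1 (h : PC R σ κ) : (1 : ℝ) < R := by
  have := h.R4
  have : 1 < R := by omega
  exact_mod_cast this

theorem PC.s3 (h : PC R σ κ) : σ < 3 := by linarith [h.sk, h.k1]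

theorem PC.hΛ (h : PC R σ κ) : 10 ^ 14 ≤ (R : ℝ) ^ σ := by
  have h1 : (R : ℝ) ^ κ ≤ (R : ℝ) ^ (1 : ℝ) := Real.rpow_le_rpow_of_exponent_le h.R1.le h.k1.le
  rw [Real.rpow_one] at h1
  have h2 := h.RQ.trans h1
  have h3 := h.RΛ
  nlinarith

theorem PC.par (h : PC R σ κ) : Par ((R : ℝ) ^ σ) (zz ((R : ℝ) ^ σ)) := par_zz h.hΛ

theorem PC.exists (hs : 2 < σ) (hk0 : 0 < κ) (hk : κ < 1) (hsk : σ < 2 + κ) :
    ∃ R0 : ℕ, ∀ R : ℕ, R0 ≤ R → PC R σ κ := by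
  have h1 : Tendsto (fun R : ℕ => (R : ℝ) ^ (σ - 2)) atTop atTop :=
    (tendsto_rpow_atTop (by linarith)).comp tendsto_natCast_atTop_atTop
  have h2 : Tendsto (fun R : ℕ => (R : ℝ) ^ κ) atTop atTop :=
    (tendsto_rpow_atTop hk0).comp tendsto_natCast_atTop_atTop
  obtain ⟨N, hN⟩ := (h1.eventually (eventually_ge_atTop (10 ^ 4))).exists_forall_of_atTop
  obtain ⟨M, hM⟩ := (h2.eventually (eventually_ge_atTop (10 ^ 5))).exists_forall_of_atTop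
  refine ⟨max (max N M) 4, fun R hR => ?_⟩
  have hR4 : 4 ≤ R := (le_max_right _ _).trans hR
  have hR0 : (0 : ℝ) < R := by
    have : 0 < R := by omega
    exact_mod_cast this
  refine ⟨hs, hk0, hk, hsk, hR4, ?_, hM R (((le_max_right _ _).trans (le_max_left _ _)).trans hR)⟩
  have h3 := hN R (((le_max_left _ _).trans (le_max_left _ _)).trans hR)
  calc 10 ^ 4 * (R : ℝ) ^ 2 ≤ (R : ℝ) ^ (σ - 2) * (R : ℝ) ^ 2 := by gcongr
    _ = (R : ℝ) ^ (σ - 2) * (R : ℝ) ^ (2 : ℝ) := by rw [← Real.rpow_natCast _ 2]; norm_num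
    _ = (R : ℝ) ^ σ := by rw [← Real.rpow_add hR0]; congr 1; ring

/-- The widths of the packets. -/
noncomputable def Lw (R : ℕ) (κ : ℝ) (n : ℕ) : ℕ := ⌊((R : ℝ) ^ (1 - κ)) ^ n / 2⌋₊

theorem PC.W1 (h : PC R σ κ) : 1 ≤ (R : ℝ) ^ (1 - κ) := Real.one_le_rpow h.R1.le (by linarith [h.k1])

theorem PC.W0 (h : PC R σ κ) (n : ℕ) : 1 ≤ ((R : ℝ) ^ (1 - κ)) ^ n := one_le_pow₀ h.W1

theorem PC.WR (h : PC R σ κ) : (R : ℝ) ^ (1 - κ) ≤ R := by
  have := Real.rpow_le_rpow_of_exponent_le h.R1.le (by linarith [h.k0] : 1 - κ ≤ 1)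
  rwa [Real.rpow_one] at this

theorem PC.wh (h : PC R σ κ) : Wh R (Lw R κ) where
  hR := h.R4
  hL := fun n => by
    have h1 : (Lw R κ n : ℝ) ≤ ((R : ℝ) ^ (1 - κ)) ^ n / 2 := Nat.floor_le (by positivity)
    have h2 : ((R : ℝ) ^ (1 - κ)) ^ n ≤ (R : ℝ) ^ n := pow_le_pow_left₀ (by positivity) h.WR n
    have h3 : 2 * (Lw R κ n : ℝ) ≤ (R : ℝ) ^ n := by linarith
    exact_mod_cast h3

theorem PC.mono (h : PC R σ κ) (n : ℕ) : Lw R κ n ≤ Lw R κ (n + 1) := by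
  refine Nat.floor_mono ?_
  have : ((R : ℝ) ^ (1 - κ)) ^ n ≤ ((R : ℝ) ^ (1 - κ)) ^ (n + 1) := pow_le_pow_right₀ h.W1 (Nat.le_succ n)
  linarith

theorem PC.wd_ge (h : PC R σ κ) (n : ℕ) : ((R : ℝ) ^ (1 - κ)) ^ n / 2 ≤ wd (Lw R κ) n :=
  (Nat.lt_floor_add_one _).le

theorem PC.wd_le (h : PC R σ κ) (n : ℕ) : wd (Lw R κ) n ≤ 3 / 2 * ((R : ℝ) ^ (1 - κ)) ^ n := by
  have h1 : (Lw R κ n : ℝ) ≤ ((R : ℝ) ^ (1 - κ)) ^ n / 2 := Nat.floor_le (by positivity)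
  have h2 := h.W0 n
  unfold wd
  linarith

theorem PC.gr (h : PC R σ κ) (n : ℕ) : wd (Lw R κ) (n + 1) ≤ ((R : ℝ) ^ (1 - κ) + 1) * wd (Lw R κ) n := by
  have h1 : (Lw R κ (n + 1) : ℝ) ≤ ((R : ℝ) ^ (1 - κ)) ^ (n + 1) / 2 := Nat.floor_le (by positivity)
  have h2 := h.wd_ge n
  have h3 := h.W1
  have h4 := (h.wh.wd).one n
  have h5 : ((R : ℝ) ^ (1 - κ)) ^ (n + 1) / 2 = (R : ℝ) ^ (1 - κ) * (((R : ℝ) ^ (1 - κ)) ^ n / 2) := by
    rw [pow_succ]; ring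
  have h6 : (R : ℝ) ^ (1 - κ) * (((R : ℝ) ^ (1 - κ)) ^ n / 2) ≤ (R : ℝ) ^ (1 - κ) * wd (Lw R κ) n := by gcongr
  have h7 : wd (Lw R κ) (n + 1) = (Lw R κ (n + 1) : ℝ) + 1 := rfl
  rw [h7]
  linarith

/-- The product of the frequency and the width. -/
theorem PC.RW (h : PC R σ κ) (n : ℕ) : (R : ℝ) ^ n * wd (Lw R κ) n ≤ 3 / 2 * ((R : ℝ) ^ (2 - κ)) ^ n := by
  have h1 := h.wd_le n
  have h2 : (R : ℝ) ^ (2 - κ) = R * (R : ℝ) ^ (1 - κ) := by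
    have : 2 - κ = 1 + (1 - κ) := by ring
    rw [this, Real.rpow_add h.R0, Real.rpow_one]
  have h3 : (0 : ℝ) ≤ (R : ℝ) ^ n := by positivity
  calc (R : ℝ) ^ n * wd (Lw R κ) n ≤ (R : ℝ) ^ n * (3 / 2 * ((R : ℝ) ^ (1 - κ)) ^ n) := by gcongr
    _ = 3 / 2 * ((R : ℝ) ^ (2 - κ)) ^ n := by rw [h2, mul_pow]; ring

theorem PC.Λ3 (h : PC R σ κ) : (R : ℝ) ^ σ ≤ (R : ℝ) ^ 3 := by
  rw [← Real.rpow_natCast (R : ℝ) 3]
  exact Real.rpow_le_rpow_of_exponent_le h.R1.le (by push_cast; exact h.s3.le)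

/-- The parameters. -/
noncomputable def PC.pm (h : PC R σ κ) {G : ℝ} (hG : 0 < G) : Pm where
  R := R
  L := Lw R κ
  g := gG G ((R : ℝ) ^ σ)
  δ := Real.exp (-((R : ℝ) ^ σ / 1250))
  C := (R : ℝ) ^ (1 - κ) + 1
  D := G
  wh := h.wh
  mono := h.mono
  gr := h.gr
  g0 := fun n => by unfold gG; positivity
  hg := fun n => by
    unfold gG
    have h1 : ((R : ℝ) ^ σ) ^ n ≤ ((R : ℝ) ^ n) ^ 3 := by
      calc ((R : ℝ) ^ σ) ^ n ≤ ((R : ℝ) ^ 3) ^ n := pow_le_pow_left₀ (by positivity) h.Λ3 n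
        _ = ((R : ℝ) ^ n) ^ 3 := by rw [← pow_mul, ← pow_mul, mul_comm]
    gcongr
  δ0 := (Real.exp_pos _).le
  δ1 := Real.exp_le_one_iff.2 (by
    have : 0 ≤ (R : ℝ) ^ σ := by positivity
    linarith)

variable {ν T G : ℝ} {u : ℝ → V → V} {p : ℝ → V → ℝ}

/-- The chain system of a smooth solution. -/
theorem Sol.sys (h : PC R σ κ) (hG : 0 < G) (hs : Sol ν (KQ (h.pm hG).T) T u p) (hν : 0 < ν) {E : ℝ}
    (hE : energy (u 0) ≤ E) :
    Sys R ((R : ℝ) ^ (2 - κ)) ((R : ℝ) ^ κ) ((R : ℝ) ^ σ) (zz ((R : ℝ) ^ σ)) G (4 * Real.pi ^ 2 * ν)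
      (3 / 2 * (120 * ν * Real.sqrt E + 189 * E)) T fun n t => (h.pm hG).co (u t) n := by
  set P := h.pm hG with hP
  have hE0 : 0 ≤ E := (energy_nonneg _).trans hE
  have hpi := Real.pi_pos
  have hw := h.wh.wd
  have hO := (P.bil).opr
  refine ⟨h.par, h.RQ, ?_, by have := h.R4; exact_mod_cast (by omega : 2 ≤ R), ?_, h.RΛ, hG, by positivity,
    by positivity, ?_, ?_, ?_⟩
  · have h1 : (R : ℝ) ^ (1 : ℝ) ≤ (R : ℝ) ^ (2 - κ) := Real.rpow_le_rpow_of_exponent_le h.R1.le (by linarith [h.k1])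
    rw [Real.rpow_one] at h1
    have h2 : (4 : ℝ) ≤ R := by exact_mod_cast h.R4
    linarith
  · rw [← Real.rpow_add h.R0, ← Real.rpow_natCast (R : ℝ) 2]
    congr 1
    push_cast
    ring
  · intro k
    exact hs.ip_cont (F := pF (R ^ k) (Lw R κ k)) (by have := P.X.spv k; rwa [P.F_eq] at this)
  · intro k t ht
    have hI : t ∈ Ico 0 T := ⟨ht.1.le, ht.2⟩
    have hspv := hs.spv hI
    have hFs := P.X.spv k
    have hdF : ∀ x, dv (P.X.F k) x = 0 := fun x => dv_fd (P.X.RD k) (fun q => P.Dv k q) x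
    have hd := hs.ip_deriv hO hFs hdF ht
    have hen := (hs.energy_le hO hν hI).trans hE
    have e1 := PX_lap h.wh hspv k
    have e2 := cvt_le hspv hFs (P.X.pd_le hw k)
    have e3 := h.RW k
    have hP0 : (0 : ℝ) ≤ ((R : ℝ) ^ (2 - κ)) ^ k := by positivity
    have hsq : Real.sqrt (energy (u t)) ≤ Real.sqrt E := Real.sqrt_le_sqrt hen
    have hc : P.X.c = 3 := rfl
    have hwk := (hw.pos k).le
    refine ⟨ν * (ip (u t) (lap (P.X.F k)) + 4 * Real.pi ^ 2 * ((R : ℝ) ^ k) ^ 2 * P.X.cs (u t) k)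
      + cvt (u t) (P.X.F k), ?_, ?_⟩
    · have f1 : |ν * (ip (u t) (lap (P.X.F k)) + 4 * Real.pi ^ 2 * ((R : ℝ) ^ k) ^ 2 * P.X.cs (u t) k)|
          ≤ ν * (120 * ((R : ℝ) ^ k * wd (Lw R κ) k) * Real.sqrt E) := by
        rw [abs_mul, abs_of_pos hν]
        refine mul_le_mul_of_nonneg_left (e1.trans ?_) hν.le
        gcongr
      have f2 : |cvt (u t) (P.X.F k)| ≤ 189 * E * ((R : ℝ) ^ k * wd (Lw R κ) k) := by
        refine e2.trans ?_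
        rw [hc]
        calc 3 * (7 * (3 * (R : ℝ) ^ k) * (3 * wd (Lw R κ) k)) * energy (u t)
            ≤ 3 * (7 * (3 * (R : ℝ) ^ k) * (3 * wd (Lw R κ) k)) * E := by gcongr
          _ = _ := by ring
      calc _ ≤ ν * (120 * ((R : ℝ) ^ k * wd (Lw R κ) k) * Real.sqrt E) + 189 * E * ((R : ℝ) ^ k * wd (Lw R κ) k) :=
            (abs_add_le _ _).trans (add_le_add f1 f2)
        _ = (120 * ν * Real.sqrt E + 189 * E) * ((R : ℝ) ^ k * wd (Lw R κ) k) := by ring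
        _ ≤ (120 * ν * Real.sqrt E + 189 * E) * (3 / 2 * ((R : ℝ) ^ (2 - κ)) ^ k) := by gcongr
        _ = _ := by ring
    · have e4 := P.coef (u := u) (t := t) hspv k
      have hδ : P.δ = zz ((R : ℝ) ^ σ) ^ 16 := (zz16 _).symm
      have hg : P.g = gG G ((R : ℝ) ^ σ) := rfl
      rw [hδ, hg] at e4
      have e5 : (fun s => ip (u s) (P.X.F k)) = fun s => P.co (u s) k := funext fun s => P.cs_eq (u s) k
      rw [e5] at hd
      refine hd.congr_deriv ?_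
      rw [e4, P.cs_eq]
      ring
  · intro T1 hT1
    obtain ⟨D, hD0, hD⟩ := hs.cs_dec P.X hw hT1 2
    refine ⟨D, fun k t ht => ?_⟩
    rw [le_div_iff₀ (by have := h.R0; positivity)]
    have := hD t ht k
    rw [P.cs_eq] at this
    exact this

end Pool.Agent.N980.WP
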