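import Pool.Agent.N980.WP.Fin

/-!
The operator as an explicit series; its properties; the theorem.
-/

open MeasureTheory Set Filter Topology
open scoped ContDiff

set_option linter.unusedVariables false

namespace Pool.Agent.N980.WP

open Pool.Agent.N980.NU
open Pool.Agent.N980.CB (gG rpow_swap)

/-- The packet of the scale `n`: the field `(0, 0, √2 cos(2π Rⁿ x₁) F(x₁) F(x₂) / S)`, where `F` is the
Fejér kernel of degree `⌊R^((1-κ)n)/2⌋` and `S` the sum of the squares of its coefficients. -/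
noncomputable def pk (R : ℕ) (κ : ℝ) (n : ℕ) : V → V := pF (R ^ n) (Lw R κ n)

/-- The bilinear operator: for every `n`, the rotation of the plane spanned by the packets `n` and
`n+1` with the rate `G (R^n)^σ (δ ⟨u, pk n⟩ + ⟨u, pk (n+1)⟩)`, `δ = exp (-R^σ/1250)`. -/
noncomputable def KP (G σ κ : ℝ) (R : ℕ) (u v : V → V) (x : V) : V :=
  ∑' n : ℕ, (G * ((R : ℝ) ^ n) ^ σ *
      (Real.exp (-((R : ℝ) ^ σ / 1250)) * ip u (pk R κ n) + ip u (pk R κ (n + 1)))) •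
    (ip v (pk R κ n) • pk R κ (n + 1) x - ip v (pk R κ (n + 1)) • pk R κ n x)

/-- The properties of the operator `K`. -/
structure PProps (G σ κ : ℝ) (R : ℕ) : Prop where
  spv : ∀ u v, SPV u → SPV v → SPV (KP G σ κ R u v)
  divfree : ∀ u v, SPV u → SPV v → ∀ x, dv (KP G σ κ R u v) x = 0
  add_left : ∀ u u' v, SPV u → SPV u' → SPV v → KP G σ κ R (u + u') v = KP G σ κ R u v + KP G σ κ R u' v
  add_right : ∀ u v v', SPV u → SPV v → SPV v' → KP G σ κ R u (v + v') = KP G σ κ R u v + KP G σ κ R u v'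
  smul_left : ∀ (r : ℝ) u v, SPV u → SPV v → KP G σ κ R (r • u) v = r • KP G σ κ R u v
  smul_right : ∀ (r : ℝ) u v, SPV u → SPV v → KP G σ κ R u (r • v) = r • KP G σ κ R u v
  skew : ∀ u v w, SPV u → SPV v → SPV w → ip (KP G σ κ R u v) w = -ip v (KP G σ κ R u w)
  bound : ∃ C, ∀ s₁ s₂ s₃ : ℝ, 0 ≤ s₁ → 0 ≤ s₂ → 0 ≤ s₃ → σ ≤ s₁ + s₂ + s₃ →
    ∀ u v w, SPV u → SPV v → SPV w → |ip (KP G σ κ R u v) w| ≤ C * (hs s₁ u * hs s₂ v * hs s₃ w)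
  lp : ∃ C, ∀ p₁ p₂ p₃ : ℝ, 1 < p₁ → 1 < p₂ → 1 < p₃ → 1 / p₁ + 1 / p₂ + 1 / p₃ = 1 →
    ∀ M : ℝ, 1 ≤ M → ∀ u v w, SPV u → SPV v → SPV w → (BL M u ∨ BL M v ∨ BL M w) →
      |ip (KP G σ κ R u v) w| ≤ C * M ^ (σ - 1 + κ) * (lpn p₁ u * lpn p₂ v * lpn p₃ w)

variable {R : ℕ} {σ κ G ν : ℝ}

theorem PC.KP_eq (h : PC R σ κ) (hG : 0 < G) {u v : V → V} (hu : SPV u) (hv : SPV v) :
    KP G σ κ R u v = KQ (h.pm hG).T u v := by
  funext x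
  have h1 := (h.pm hG).series hu hv x
  rw [← h1.tsum_eq]
  unfold KP
  refine tsum_congr fun n => ?_
  rw [rpow_swap]
  rfl

theorem PC.gκ (h : PC R σ κ) (hG : 0 < G) : ∀ t n, |((h.pm hG).T t).κ n| ≤ G * ((R : ℝ) ^ n) ^ σ := by
  have h0 : ∀ n, 0 ≤ G * ((R : ℝ) ^ n) ^ σ := fun n => mul_nonneg hG.le (Real.rpow_nonneg (by positivity) _)
  have hg : ∀ n, (h.pm hG).g n = G * ((R : ℝ) ^ n) ^ σ := fun n => by rw [rpow_swap]; rfl
  have hδ0 := (h.pm hG).δ0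
  have hδ1 := (h.pm hG).δ1
  have k1 : ∀ n, |(h.pm hG).δ * (h.pm hG).g n| ≤ G * ((R : ℝ) ^ n) ^ σ := fun n => by
    rw [hg, abs_of_nonneg (mul_nonneg hδ0 (h0 n))]
    have := h0 n
    nlinarith
  have k2 : ∀ n, |(h.pm hG).g n| ≤ G * ((R : ℝ) ^ n) ^ σ := fun n => by
    rw [hg, abs_of_nonneg (h0 n)]
  intro t n
  fin_cases t
  · exact k1 n
  · exact k2 n
  · show |-((h.pm hG).δ * (h.pm hG).g n)| ≤ _
    rw [abs_neg]; exact k1 n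
  · show |-(h.pm hG).g n| ≤ _
    rw [abs_neg]; exact k2 n

theorem pprops (h : PC R σ κ) (hG : 0 < G) : PProps G σ κ R := by
  have hB := (h.pm hG).bil
  refine ⟨?_, ?_, ?_, ?_, ?_, ?_, ?_, ?_, ?_⟩
  · intro u v hu hv
    rw [h.KP_eq hG hu hv]
    exact hB.spv u v hu hv
  · intro u v hu hv x
    rw [h.KP_eq hG hu hv]
    exact dv_KQ _ h.wh.wd hu hv x
  · intro u u' v hu hu' hv
    rw [h.KP_eq hG hu hv, h.KP_eq hG hu' hv, h.KP_eq hG (hu.add hu') hv]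
    exact hB.add_left u u' v hu hu' hv
  · intro u v v' hu hv hv'
    rw [h.KP_eq hG hu hv, h.KP_eq hG hu hv', h.KP_eq hG hu (hv.add hv')]
    exact hB.add_right u v v' hu hv hv'
  · intro r u v hu hv
    rw [h.KP_eq hG hu hv, h.KP_eq hG (hu.smul r) hv]
    exact hB.smul_left r u v hu hv
  · intro r u v hu hv
    rw [h.KP_eq hG hu hv, h.KP_eq hG hu (hv.smul r)]
    exact hB.smul_right r u v hu hv
  · intro u v w hu hv hw
    rw [h.KP_eq hG hu hv, h.KP_eq hG hu hw]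
    exact (h.pm hG).skew hu hv hw
  · obtain ⟨D, hD0, hD⟩ := KQ_bound (h.pm hG).T h.wh.wd hG.le (h.gκ hG)
    refine ⟨D, fun s1 s2 s3 h1 h2 h3 hs u v w hu hv hw => ?_⟩
    rw [h.KP_eq hG hu hv]
    exact hD s1 s2 s3 h1 h2 h3 hs u v w hu hv hw
  · obtain ⟨D, hD0, hD⟩ := h.lp_bound hG
    refine ⟨D, fun p1 p2 p3 h1 h2 h3 hp M hM u v w hu hv hw hb => ?_⟩
    rw [h.KP_eq hG hu hv]
    exact hD p1 p2 p3 h1 h2 h3 hp M hM u v w hu hv hw hb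

/-- Solutions of the two forms of the equation coincide. -/
theorem PC.sol (h : PC R σ κ) (hG : 0 < G) {T : ℝ} {u : ℝ → V → V} {p : ℝ → V → ℝ}
    (hs : Sol ν (KP G σ κ R) T u p) : Sol ν (KQ (h.pm hG).T) T u p :=
  hs.congr fun v hv => h.KP_eq hG hv hv

theorem PC.sol' (h : PC R σ κ) (hG : 0 < G) {T : ℝ} {u : ℝ → V → V} {p : ℝ → V → ℝ}
    (hs : Sol ν (KQ (h.pm hG).T) T u p) : Sol ν (KP G σ κ R) T u p :=
  hs.congr fun v hv => (h.KP_eq hG hv hv).symm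

/-- The theorem. -/
theorem main {ε : ℝ} (hε : 0 < ε) (hε1 : ε ≤ 3 / 4) (hG : 0 < G) :
    ∃ R₀ : ℕ, ∀ R : ℕ, R₀ ≤ R → PProps G (2 + ε / 3) (2 * ε / 3) R ∧ ∀ ν : ℝ, 0 < ν →
      (∀ v : V → V, SPV v → (∀ x, dv v x = 0) →
        ∃ T > 0, ∃ (u : ℝ → V → V) (p : ℝ → V → ℝ), u 0 = v ∧ Sol ν (KP G (2 + ε / 3) (2 * ε / 3) R) T u p) ∧
      (∀ (T : ℝ) (u : ℝ → V → V) (p : ℝ → V → ℝ), Sol ν (KP G (2 + ε / 3) (2 * ε / 3) R) T u p →
        (∀ t ∈ Ico 0 T, energy (u t) + 2 * ν * ∫ s in (0 : ℝ)..t, dissip (u s) = energy (u 0)) ∧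
        ∀ (u' : ℝ → V → V) (p' : ℝ → V → ℝ), Sol ν (KP G (2 + ε / 3) (2 * ε / 3) R) T u' p' → u 0 = u' 0 →
          ∀ t ∈ Ico 0 T, u t = u' t) ∧
      ∀ v : V → V, SPV v → (∀ x, dv v x = 0) → ∀ η > 0,
        ∃ w : V → V, SPV w ∧ (∀ x, dv w x = 0) ∧ energy (w - v) ≤ η ^ 2 ∧ ∃ r > 0,
          ∀ w' : V → V, SPV w' → (∀ x i, |w' x i - w x i| ≤ r) →
            ∀ (u : ℝ → V → V) (p : ℝ → V → ℝ), u 0 = w' → ¬Sol ν (KP G (2 + ε / 3) (2 * ε / 3) R) η u p := by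
  obtain ⟨R0, hR0⟩ := PC.exists (σ := 2 + ε / 3) (κ := 2 * ε / 3) (by linarith) (by linarith) (by linarith)
    (by linarith)
  refine ⟨R0, fun R hR => ?_⟩
  have h := hR0 R hR
  refine ⟨pprops h hG, fun ν hν => ⟨?_, ?_, ?_⟩⟩
  · intro v hv hdv
    obtain ⟨T, hT, u, p, h0, hs⟩ := local_existence (h.pm hG).T h.wh.wd hν hv hdv
    exact ⟨T, hT, u, p, h0, h.sol' hG hs⟩
  · intro T u p hs
    have hs1 := h.sol hG hs
    refine ⟨fun t ht => hs1.energy_eq (h.pm hG).bil.opr hν ht, fun u' p' hs' h0 => ?_⟩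
    exact uniqueness (h.pm hG).bil hν hs1 (h.sol hG hs') (hs1.KQ_wb _ h.wh.wd) h0
  · intro v hv hdv η hη
    obtain ⟨w, h1, h2, h3, r, hr, h4⟩ := dense_blowup h (by linarith) hG hν hv hdv hη
    exact ⟨w, h1, h2, h3, r, hr, fun w' hw' hc u p h0 hs => h4 w' hw' hc u p h0 (h.sol hG hs)⟩

end Pool.Agent.N980.WP
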