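import Pool.Agent.N980.WP.Bnd
import Pool.Agent.N980.CB.Prop

/-!
The Navier-Stokes equations with an additional bilinear term: smooth solutions, energy.
-/

open MeasureTheory Set Filter Topology
open scoped ContDiff

set_option linter.unusedVariables false

namespace Pool.Agent.N980.WP

open Pool.Agent.N980.NU

/-- `(u,p)` is a smooth periodic solution on `[0,T)` of the Navier-Stokes equations with the
additional term `K(u,u)`. -/
structure Sol (ν : ℝ) (Kf : (V → V) → (V → V) → V → V) (T : ℝ) (u : ℝ → V → V) (p : ℝ → V → ℝ) : Prop where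
  smooth_u : ContDiffOn ℝ ∞ (fun z : ℝ × V => u z.1 z.2) (Ico 0 T ×ˢ univ)
  smooth_p : ContDiffOn ℝ ∞ (fun z : ℝ × V => p z.1 z.2) (Ico 0 T ×ˢ univ)
  per_u : ∀ t ∈ Ico 0 T, ∀ x (j : Fin 3), u t (x + Pi.single j 1) = u t x
  per_p : ∀ t ∈ Ico 0 T, ∀ x (j : Fin 3), p t (x + Pi.single j 1) = p t x
  divfree : ∀ t ∈ Ico 0 T, ∀ x, dv (u t) x = 0
  momentum : ∀ t ∈ Ioo 0 T, ∀ x i,
    deriv (fun s => u s x i) t + ∑ j, u t x j * pd j (fun y => u t y i) x
      = ν * lap (u t) x i - pd i (p t) x + Kf (u t) (u t) x i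

/-- The properties of the operator used in the energy estimate. -/
structure Opr (Kf : (V → V) → (V → V) → V → V) : Prop where
  spv : ∀ u v, SPV u → SPV v → SPV (Kf u v)
  self : ∀ u, SPV u → ip (Kf u u) u = 0

variable {ν T : ℝ} {Kf : (V → V) → (V → V) → V → V} {u : ℝ → V → V} {p : ℝ → V → ℝ}

theorem Sol.congr {Kg : (V → V) → (V → V) → V → V} (h : Sol ν Kf T u p) (he : ∀ v, SPV v → Kf v v = Kg v v) :
    Sol ν Kg T u p := by
  refine ⟨h.smooth_u, h.smooth_p, h.per_u, h.per_p, h.divfree, fun t ht x i => ?_⟩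
  have hspv : SPV (u t) := ⟨contDiff_pi.2 fun i => H459R3.NS.contDiff_slice (f := fun s y => u s y i)
    ((contDiffOn_pi.1 h.smooth_u) i) ⟨ht.1.le, ht.2⟩, h.per_u t ⟨ht.1.le, ht.2⟩⟩
  rw [h.momentum t ht x i, he _ hspv]

theorem Sol.sm (h : Sol ν Kf T u p) (i : Fin 3) :
    ContDiffOn ℝ ∞ (fun z : ℝ × V => u z.1 z.2 i) (Ico 0 T ×ˢ univ) :=
  (contDiffOn_pi.1 h.smooth_u) i

theorem Sol.spv (h : Sol ν Kf T u p) {t : ℝ} (ht : t ∈ Ico 0 T) : SPV (u t) :=
  ⟨contDiff_pi.2 fun i => H459R3.NS.contDiff_slice (f := fun s y => u s y i) (h.sm i) ht, h.per_u t ht⟩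

theorem Sol.spp (h : Sol ν Kf T u p) {t : ℝ} (ht : t ∈ Ico 0 T) : H459R3.NS.SP (p t) :=
  ⟨H459R3.NS.contDiff_slice h.smooth_p ht, fun j x => h.per_p t ht x j⟩

theorem Sol.hd (h : Sol ν Kf T u p) {t : ℝ} (ht : t ∈ Ioo 0 T) (x : V) (i : Fin 3) :
    HasDerivAt (fun s => u s x i) (ν * H459R3.NS.lap (fun y => u t y i) x
      - H459R3.NS.conv (fun i y => u t y i) i x - H459R3.NS.pd i (p t) x + Kf (u t) (u t) x i) t := by
  have h1 := H459R3.NS.hasDerivAt_slice (F := fun s y => u s y i)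
    (H459R3.NS.mono_Ioo (f := fun s y => u s y i) (n := 1) (h.sm i) (by norm_cast)) ht x
  have h2 := h.momentum t ht x i
  have e1 : lap (u t) x i = H459R3.NS.lap (fun y => u t y i) x := rfl
  have e2 : ∑ j, u t x j * pd j (fun y => u t y i) x = H459R3.NS.conv (fun i y => u t y i) i x := rfl
  have e3 : pd i (p t) x = H459R3.NS.pd i (p t) x := rfl
  rw [e1, e2, e3] at h2
  have h3 := h1.deriv
  rw [h3] at h2
  refine h1.congr_deriv ?_
  linarith

theorem Sol.energy_deriv (h : Sol ν Kf T u p) (hO : Opr Kf) {t : ℝ} (ht : t ∈ Ioo 0 T) :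
    HasDerivAt (fun s => energy (u s)) (-(2 * ν * dissip (u t))) t := by
  have hI : t ∈ Ico 0 T := ⟨ht.1.le, ht.2⟩
  have hspv := h.spv hI
  set v : Fin 3 → V → ℝ := fun i y => u t y i with hv
  have hsp : ∀ i, H459R3.NS.SP (v i) := fun i => hspv.sp i
  have hdiv : ∀ x, ∑ i, H459R3.NS.pd i (v i) x = 0 := fun x => h.divfree t hI x
  have hP := h.spp hI
  have hK : SPV (Kf (u t) (u t)) := hO.spv _ _ hspv hspv
  have hF : ContDiffOn ℝ 1 (fun z : ℝ × V => ∑ i, u z.1 z.2 i ^ 2) (Ioo 0 T ×ˢ univ) :=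
    ContDiffOn.sum fun i _ => (H459R3.NS.mono_Ioo (f := fun s y => u s y i) (n := 1) (h.sm i) (by norm_cast)).pow 2
  have key := H459R3.NS.hasDerivAt_int (F := fun s x => ∑ i, u s x i ^ 2) hF ht
  refine key.congr_deriv ?_
  have h3 : ∀ x, deriv (fun s => ∑ i, u s x i ^ 2) t
      = 2 * ν * (∑ i, H459R3.NS.lap (v i) x * v i x) - 2 * (∑ i, v i x * H459R3.NS.conv v i x)
        - 2 * (∑ i, v i x * H459R3.NS.pd i (p t) x)
        + 2 * ∑ i, Kf (u t) (u t) x i * v i x := by
    intro x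
    have h4 : HasDerivAt (fun s => ∑ i, u s x i ^ 2)
        (∑ i, 2 * v i x * (ν * H459R3.NS.lap (v i) x
      - H459R3.NS.conv v i x - H459R3.NS.pd i (p t) x + Kf (u t) (u t) x i)) t := by
      refine HasDerivAt.fun_sum fun i _ => ?_
      have h5 := (h.hd ht x i).pow 2
      refine h5.congr_deriv ?_
      simp only [hv]
      push_cast
      ring
    rw [h4.deriv]
    simp only [Finset.mul_sum]
    rw [← Finset.sum_sub_distrib, ← Finset.sum_sub_distrib, ← Finset.sum_add_distrib]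
    exact Finset.sum_congr rfl fun i _ => by ring
  simp_rw [h3]
  have i1 : ∀ i, IntegrableOn (fun x => H459R3.NS.lap (v i) x * v i x) H459R3.NS.cube := fun i =>
    ((hsp i).lap.mul (hsp i)).int
  have i2 : ∀ i, IntegrableOn (fun x => v i x * H459R3.NS.conv v i x) H459R3.NS.cube := fun i =>
    ((hsp i).mul (H459R3.NS.sp_conv hsp i)).int
  have i3 : ∀ i, IntegrableOn (fun x => v i x * H459R3.NS.pd i (p t) x) H459R3.NS.cube := fun i =>
    ((hsp i).mul (hP.pd i)).int
  have i4 : ∀ i, IntegrableOn (fun x => Kf (u t) (u t) x i * v i x) H459R3.NS.cube := fun i =>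
    ((hK.sp i).mul (hsp i)).int
  have s1 := (integrable_finsetSum Finset.univ fun i _ => i1 i).const_mul (2 * ν)
  have s2 := (integrable_finsetSum Finset.univ fun i _ => i2 i).const_mul 2
  have s3 := (integrable_finsetSum Finset.univ fun i _ => i3 i).const_mul 2
  have s4 := (integrable_finsetSum Finset.univ fun i _ => i4 i).const_mul 2
  have s12 : Integrable (fun x => 2 * ν * (∑ i, H459R3.NS.lap (v i) x * v i x)
      - 2 * (∑ i, v i x * H459R3.NS.conv v i x)) (volume.restrict H459R3.NS.cube) := s1.sub s2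
  have s123 : Integrable (fun x => 2 * ν * (∑ i, H459R3.NS.lap (v i) x * v i x)
      - 2 * (∑ i, v i x * H459R3.NS.conv v i x) - 2 * (∑ i, v i x * H459R3.NS.pd i (p t) x))
      (volume.restrict H459R3.NS.cube) := s12.sub s3
  rw [integral_add s123 s4, integral_sub s12 s3, integral_sub s1 s2,
    integral_const_mul, integral_const_mul, integral_const_mul, integral_const_mul,
    integral_finsetSum _ fun i _ => i1 i, integral_finsetSum _ fun i _ => i2 i,
    integral_finsetSum _ fun i _ => i3 i, H459R3.NS.int_conv hsp hdiv, H459R3.NS.int_press hsp hdiv hP]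
  have e4 : ∫ x in H459R3.NS.cube, ∑ i, Kf (u t) (u t) x i * v i x = 0 := hO.self _ hspv
  rw [e4]
  have e2 : ∑ i, ∫ x in H459R3.NS.cube, H459R3.NS.lap (v i) x * v i x = -dissip (u t) := by
    unfold dissip
    have h5 : ∀ i j, IntegrableOn (fun x => H459R3.NS.pd j (v i) x ^ 2) H459R3.NS.cube := by
      intro i j
      have := (((hsp i).pd j).mul ((hsp i).pd j)).int
      simpa [sq] using this
    have h6 : ∫ x in cube, ∑ i, ∑ j, pd j (fun y => u t y i) x ^ 2
        = ∑ i, ∑ j, ∫ x in H459R3.NS.cube, H459R3.NS.pd j (v i) x ^ 2 := by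
      show ∫ x in H459R3.NS.cube, ∑ i, ∑ j, H459R3.NS.pd j (v i) x ^ 2 = _
      rw [integral_finsetSum _ fun i _ => integrable_finsetSum _ fun j _ => h5 i j]
      refine Finset.sum_congr rfl fun i _ => ?_
      rw [integral_finsetSum _ fun j _ => h5 i j]
    rw [h6, ← Finset.sum_neg_distrib]
    refine Finset.sum_congr rfl fun i _ => ?_
    rw [H459R3.NS.int_lap_mul (hsp i) (hsp i)]
    congr 1
    refine Finset.sum_congr rfl fun j _ => ?_
    congr 1
    funext x
    rw [sq]
  rw [e2]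
  ring

theorem Sol.energy_cont (h : Sol ν Kf T u p) : ContinuousOn (fun s => energy (u s)) (Ico 0 T) := by
  have h1 : ContinuousOn (fun z : ℝ × V => ∑ i, u z.1 z.2 i ^ 2) (Ico 0 T ×ˢ univ) :=
    continuousOn_finsetSum _ fun i _ => (h.sm i).continuousOn.pow 2
  exact H459R3.NS.continuousOn_int (F := fun s x => ∑ i, u s x i ^ 2) h1

/-- The energy does not increase. -/
theorem Sol.energy_le (h : Sol ν Kf T u p) (hO : Opr Kf) (hν : 0 < ν) {t : ℝ} (ht : t ∈ Ico 0 T) :
    energy (u t) ≤ energy (u 0) := by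
  have hT : 0 < T := ht.1.trans_lt ht.2
  have h1 : AntitoneOn (fun s => energy (u s)) (Ico 0 T) := by
    refine antitoneOn_of_deriv_nonpos (convex_Ico 0 T) h.energy_cont ?_ ?_
    · rw [interior_Ico]
      intro s hs
      exact (h.energy_deriv hO hs).differentiableAt.differentiableWithinAt
    · rw [interior_Ico]
      intro s hs
      rw [(h.energy_deriv hO hs).deriv]
      have := CB.dissip_nonneg' (u s)
      have : 0 ≤ 2 * ν * dissip (u s) := by positivity
      linarith
  exact h1 ⟨le_rfl, hT⟩ ht ht.1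

/-- The energy equality. -/
theorem Sol.energy_eq (h : Sol ν Kf T u p) (hO : Opr Kf) (hν : 0 < ν) {t : ℝ} (ht : t ∈ Ico 0 T) :
    energy (u t) + 2 * ν * ∫ s in (0 : ℝ)..t, dissip (u s) = energy (u 0) := by
  have hc' : ContinuousOn (fun s => -energy (u s)) (Icc 0 t) :=
    (h.energy_cont.mono fun s hs => ⟨hs.1, hs.2.trans_lt ht.2⟩).neg
  have hd : ∀ s ∈ Ioo 0 t, HasDerivAt (fun s => -energy (u s)) (2 * ν * dissip (u s)) s := by
    intro s hs
    have := (h.energy_deriv hO ⟨hs.1, hs.2.trans ht.2⟩).neg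
    rwa [neg_neg] at this
  have hi : IntervalIntegrable (fun s => 2 * ν * dissip (u s)) volume 0 t := by
    refine intervalIntegral.intervalIntegrable_deriv_of_nonneg (g := fun s => -energy (u s)) ?_ ?_ ?_
    · rwa [uIcc_of_le ht.1]
    · rw [min_eq_left ht.1, max_eq_right ht.1]; exact hd
    · intro s _
      have := CB.dissip_nonneg' (u s)
      positivity
  have := intervalIntegral.integral_eq_sub_of_hasDerivAt_of_le ht.1 hc' hd hi
  rw [intervalIntegral.integral_const_mul] at this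
  linarith

end Pool.Agent.N980.WP
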