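import Pool.Agent.N980.WP.Fam

/-!
Bilinear operators built from families of packets.
-/

open MeasureTheory Set Filter Topology
open scoped ContDiff

set_option linter.unusedVariables false

namespace Pool.Agent.N980.WP

open Pool.Agent.N980.NU
open Pool.Agent.N980.CB (Rap one_le_R R_pos summ_inv)
open Pool.Agent.H356R3.NS (K C3 E3 R3 ex SN Sym RD TT SF SFam Fam cf' at' nk pw fj dS Bf dt)

/-- The term `(u,v) ↦ ∑ₙ κₙ ⟨u,Xₙ⟩ ⟨v,Yₙ⟩ Zₙ`. -/
structure Tr (R : ℕ) (ℓ : ℕ → ℝ) where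
  κ : ℕ → ℝ
  X : Fm R ℓ
  Y : Fm R ℓ
  Z : Fm R ℓ
  C : ℝ
  hκ : ∀ n, |κ n| ≤ C * ((R : ℝ) ^ n) ^ 3
  hZ : Z.Dv

variable {R : ℕ} {ℓ : ℕ → ℝ} (t : Tr R ℓ) (w : Wd R ℓ)

theorem Tr.C0 : 0 ≤ t.C := by
  have := (abs_nonneg _).trans (t.hκ 0)
  simpa using this

/-- The coefficients of the term. -/
noncomputable def Tr.sq (u v : V → V) (n : ℕ) : ℝ := t.κ n * t.X.cs u n * t.Y.cs v n

/-- The coefficients of the term on the Fourier side. -/
noncomputable def Tr.sf (x y : K → C3) (n : ℕ) : ℝ := t.κ n * t.X.co x n * t.Y.co y n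

theorem Rap.mulR {a b : ℕ → ℝ} (ha : Rap R a) (hb : Rap R b) : Rap R fun n => a n * b n := by
  obtain ⟨D, hD⟩ := ha 0
  exact hb.mul (b := a) (C := D) (r := 0) fun n => by
    have := hD n
    rw [pow_zero, mul_one] at this ⊢
    exact this

theorem Tr.Rap_sf {x y : K → C3} (hx : ∀ m : ℕ, Summable fun k => pw k ^ m * ‖x k‖)
    (hy : ∀ m : ℕ, Summable fun k => pw k ^ m * ‖y k‖) (w : Wd R ℓ) : Rap R (t.sf x y) :=
  Rap.mulR ((t.X.Rap_co w hx).mul t.hκ) (t.Y.Rap_co w hy)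

theorem Tr.sq_eq {u v : V → V} (hu : Continuous u) (hv : Continuous v) : t.sq u v = t.sf (fco u) (fco v) := by
  funext n
  unfold Tr.sq Tr.sf
  rw [t.X.cs_eq hu, t.Y.cs_eq hv]

theorem Tr.Rap_sq (w : Wd R ℓ) {u v : V → V} (hu : SPV u) (hv : SPV v) : Rap R (t.sq u v) := by
  rw [t.sq_eq hu.cont hv.cont]
  exact t.Rap_sf (spv_RV hu) (spv_RV hv) w

/-- The term as an operator. -/
noncomputable def Tr.E (u v : V → V) : V → V := t.Z.CF (t.sq u v)

/-- The term on the Fourier side. -/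
noncomputable def Tr.ET (x y : K → C3) : K → C3 := t.Z.ch (t.sf x y)

theorem Tr.SPV_E (w : Wd R ℓ) {u v : V → V} (hu : SPV u) (hv : SPV v) : SPV (t.E u v) :=
  t.Z.SPV_CF w (t.Rap_sq w hu hv)

theorem Tr.dv_E (w : Wd R ℓ) {u v : V → V} (hu : SPV u) (hv : SPV v) (x : V) : dv (t.E u v) x = 0 :=
  t.Z.dv_CF w t.hZ (t.Rap_sq w hu hv) x

/-- The term as a series. -/
theorem Tr.series (w : Wd R ℓ) {u v : V → V} (hu : SPV u) (hv : SPV v) (x : V) :
    HasSum (fun n => (t.κ n * t.X.cs u n * t.Y.cs v n) • t.Z.F n x) (t.E u v x) :=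
  t.Z.hasSum_CF w (t.Rap_sq w hu hv) x

/-- The trilinear form of the term. -/
theorem Tr.ip_E (w : Wd R ℓ) {u v z : V → V} (hu : SPV u) (hv : SPV v) (hz : SPV z) :
    HasSum (fun n => t.κ n * t.X.cs u n * t.Y.cs v n * t.Z.cs z n) (ip (t.E u v) z) :=
  t.Z.ip_CF w (t.Rap_sq w hu hv) hz.cont

theorem Tr.E_eq {u v : V → V} (hu : Continuous u) (hv : Continuous v) : t.E u v = fd (t.ET (fco u) (fco v)) := by
  unfold Tr.E Tr.ET Fm.CF
  rw [t.sq_eq hu hv]

theorem Tr.E_add_left (w : Wd R ℓ) {u u' v : V → V} (hu : SPV u) (hu' : SPV u') (hv : SPV v) :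
    t.E (u + u') v = t.E u v + t.E u' v := by
  unfold Tr.E
  rw [← t.Z.CF_add w (t.Rap_sq w hu hv) (t.Rap_sq w hu' hv)]
  congr 1
  funext n
  unfold Tr.sq
  rw [t.X.cs_add hu.cont hu'.cont]
  ring

theorem Tr.E_add_right (w : Wd R ℓ) {u v v' : V → V} (hu : SPV u) (hv : SPV v) (hv' : SPV v') :
    t.E u (v + v') = t.E u v + t.E u v' := by
  unfold Tr.E
  rw [← t.Z.CF_add w (t.Rap_sq w hu hv) (t.Rap_sq w hu hv')]
  congr 1
  funext n
  unfold Tr.sq
  rw [t.Y.cs_add hv.cont hv'.cont]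
  ring

theorem Tr.E_smul_left (w : Wd R ℓ) (r : ℝ) {u v : V → V} (hu : SPV u) (hv : SPV v) :
    t.E (r • u) v = r • t.E u v := by
  unfold Tr.E
  rw [← t.Z.CF_smul w (t.Rap_sq w hu hv) r]
  congr 1
  funext n
  unfold Tr.sq
  rw [t.X.cs_smul]
  ring

theorem Tr.E_smul_right (w : Wd R ℓ) (r : ℝ) {u v : V → V} (hu : SPV u) (hv : SPV v) :
    t.E u (r • v) = r • t.E u v := by
  unfold Tr.E
  rw [← t.Z.CF_smul w (t.Rap_sq w hu hv) r]
  congr 1
  funext n
  unfold Tr.sq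
  rw [t.Y.cs_smul]
  ring

/-! ### sums of terms -/

variable {ι : Type} [Fintype ι] (T : ι → Tr R ℓ)

/-- The operator. -/
noncomputable def KQ (u v : V → V) : V → V := ∑ t, (T t).E u v

/-- The operator on the Fourier side. -/
noncomputable def KT (x y : K → C3) : K → C3 := ∑ t, (T t).ET x y

theorem SPV_zero : SPV (0 : V → V) := ⟨contDiff_const, fun _ _ => rfl⟩

theorem SPV_sum {s : Finset ι} {f : ι → V → V} (h : ∀ i ∈ s, SPV (f i)) : SPV (∑ i ∈ s, f i) := by
  classical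
  induction s using Finset.induction_on with
  | empty => simpa using SPV_zero
  | insert a s ha ih =>
    rw [Finset.sum_insert ha]
    exact (h a (Finset.mem_insert_self a s)).add (ih fun i hi => h i (Finset.mem_insert_of_mem hi))

theorem SPV_KQ (w : Wd R ℓ) {u v : V → V} (hu : SPV u) (hv : SPV v) : SPV (KQ T u v) :=
  SPV_sum fun t _ => (T t).SPV_E w hu hv

theorem KT_apply (x y : K → C3) (k : K) : KT T x y k = ∑ t, (T t).ET x y k := by
  unfold KT
  rw [Finset.sum_apply]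

theorem fd_add {x y : K → C3} (hx : ∀ i, Summable fun k => ‖x k i‖) (hy : ∀ i, Summable fun k => ‖y k i‖) :
    fd (x + y) = fd x + fd y := by
  funext z i
  show (fs (fun k => x k i + y k i) z).re = _
  rw [fs_add' (hx i) (hy i), Complex.add_re]
  rfl

theorem comp_of_vec {x : K → C3} (h : Summable fun k => ‖x k‖) (i : Fin 3) : Summable fun k => ‖x k i‖ :=
  h.of_nonneg_of_le (fun _ => norm_nonneg _) fun k => norm_le_pi_norm _ i

theorem vec_of_pw {x : K → C3} (h : ∀ m : ℕ, Summable fun k => pw k ^ m * ‖x k‖) : Summable fun k => ‖x k‖ := by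
  have := h 0
  simpa using this

theorem pw_sum {s : Finset ι} {f : ι → K → C3} (h : ∀ i ∈ s, ∀ m : ℕ, Summable fun k => pw k ^ m * ‖f i k‖)
    (m : ℕ) : Summable fun k => pw k ^ m * ‖(∑ i ∈ s, f i) k‖ := by
  have h1 := summable_sum fun i hi => h i hi m
  refine h1.of_nonneg_of_le (fun k => mul_nonneg (pow_pos (H356R3.NS.pw_pos k) m).le (norm_nonneg _)) fun k => ?_
  rw [Finset.sum_apply, ← Finset.mul_sum]
  exact mul_le_mul_of_nonneg_left (norm_sum_le _ _) (pow_pos (H356R3.NS.pw_pos k) m).le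

theorem fd_sum {s : Finset ι} {f : ι → K → C3} (h : ∀ i ∈ s, ∀ m : ℕ, Summable fun k => pw k ^ m * ‖f i k‖) :
    fd (∑ i ∈ s, f i) = ∑ i ∈ s, fd (f i) := by
  classical
  induction s using Finset.induction_on with
  | empty =>
    simp only [Finset.sum_empty]
    funext z i
    simp [fd, fs]
  | insert a s ha ih =>
    have h2 : ∀ i ∈ s, ∀ m : ℕ, Summable fun k => pw k ^ m * ‖f i k‖ := fun i hi => h i (Finset.mem_insert_of_mem hi)
    rw [Finset.sum_insert ha, Finset.sum_insert ha, fd_add (comp_of_vec (vec_of_pw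
      (h a (Finset.mem_insert_self a s)))) (comp_of_vec (vec_of_pw (pw_sum h2))), ih h2]

theorem Tr.ET_pw (w : Wd R ℓ) {x y : K → C3} (hx : ∀ m : ℕ, Summable fun k => pw k ^ m * ‖x k‖)
    (hy : ∀ m : ℕ, Summable fun k => pw k ^ m * ‖y k‖) (m : ℕ) : Summable fun k => pw k ^ m * ‖t.ET x y k‖ :=
  t.Z.ch_summ w (t.Rap_sf hx hy w) m

theorem KT_pw (w : Wd R ℓ) {x y : K → C3} (hx : ∀ m : ℕ, Summable fun k => pw k ^ m * ‖x k‖)
    (hy : ∀ m : ℕ, Summable fun k => pw k ^ m * ‖y k‖) (m : ℕ) : Summable fun k => pw k ^ m * ‖KT T x y k‖ :=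
  pw_sum (fun t _ => (T t).ET_pw w hx hy) m

theorem KQ_fd (w : Wd R ℓ) {u v : V → V} (hu : SPV u) (hv : SPV v) : KQ T u v = fd (KT T (fco u) (fco v)) := by
  unfold KQ KT
  rw [fd_sum fun t _ => (T t).ET_pw w (spv_RV hu) (spv_RV hv)]
  exact Finset.sum_congr rfl fun t _ => (T t).E_eq hu.cont hv.cont

theorem dt_sum (k : K) {s : Finset ι} (f : ι → C3) (h : ∀ i ∈ s, dt k (f i) = 0) : dt k (∑ i ∈ s, f i) = 0 := by
  classical
  induction s using Finset.induction_on with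
  | empty => simp [H356R3.NS.dt]
  | insert a s ha ih =>
    rw [Finset.sum_insert ha]
    have e : ∀ a b : C3, dt k (a + b) = dt k a + dt k b := fun a b => by
      simp only [H356R3.NS.dt, Pi.add_apply, mul_add, Finset.sum_add_distrib]
    rw [e, h a (Finset.mem_insert_self a s), ih fun i hi => h i (Finset.mem_insert_of_mem hi), add_zero]

theorem KT_dt (x y : K → C3) (k : K) : dt k (KT T x y k) = 0 := by
  rw [KT_apply]
  exact dt_sum k _ fun t _ => (T t).Z.ch_dt (T t).hZ _ k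

theorem KT_Sym (x y : K → C3) : Sym (KT T x y) := by
  intro k i
  rw [KT_apply, KT_apply, Finset.sum_apply, Finset.sum_apply, star_sum]
  exact Finset.sum_congr rfl fun t _ => (T t).Z.ch_Sym _ k i

theorem dv_KQ (w : Wd R ℓ) {u v : V → V} (hu : SPV u) (hv : SPV v) (x : V) : dv (KQ T u v) x = 0 := by
  rw [KQ_fd T w hu hv]
  exact dv_fd (RD_of_vec (KT_pw T w (spv_RV hu) (spv_RV hv))) (KT_dt T _ _) x

theorem KQ_add_left (w : Wd R ℓ) {u u' v : V → V} (hu : SPV u) (hu' : SPV u') (hv : SPV v) :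
    KQ T (u + u') v = KQ T u v + KQ T u' v := by
  unfold KQ
  rw [← Finset.sum_add_distrib]
  exact Finset.sum_congr rfl fun t _ => (T t).E_add_left w hu hu' hv

theorem KQ_add_right (w : Wd R ℓ) {u v v' : V → V} (hu : SPV u) (hv : SPV v) (hv' : SPV v') :
    KQ T u (v + v') = KQ T u v + KQ T u v' := by
  unfold KQ
  rw [← Finset.sum_add_distrib]
  exact Finset.sum_congr rfl fun t _ => (T t).E_add_right w hu hv hv'

theorem KQ_smul_left (w : Wd R ℓ) (r : ℝ) {u v : V → V} (hu : SPV u) (hv : SPV v) :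
    KQ T (r • u) v = r • KQ T u v := by
  unfold KQ
  rw [Finset.smul_sum]
  exact Finset.sum_congr rfl fun t _ => (T t).E_smul_left w r hu hv

theorem KQ_smul_right (w : Wd R ℓ) (r : ℝ) {u v : V → V} (hu : SPV u) (hv : SPV v) :
    KQ T u (r • v) = r • KQ T u v := by
  unfold KQ
  rw [Finset.smul_sum]
  exact Finset.sum_congr rfl fun t _ => (T t).E_smul_right w r hu hv

theorem ip_sum {s : Finset ι} {f : ι → V → V} (h : ∀ i ∈ s, SPV (f i)) {z : V → V} (hz : Continuous z) :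
    ip (∑ i ∈ s, f i) z = ∑ i ∈ s, ip (f i) z := by
  classical
  induction s using Finset.induction_on with
  | empty => simp [ip]
  | insert a s ha ih =>
    have h2 : ∀ i ∈ s, SPV (f i) := fun i hi => h i (Finset.mem_insert_of_mem hi)
    rw [Finset.sum_insert ha, Finset.sum_insert ha, ip_add (h a (Finset.mem_insert_self a s)).cont
      (SPV_sum h2).cont hz, ih h2]

/-- The trilinear form of the operator. -/
theorem ip_KQ (w : Wd R ℓ) {u v z : V → V} (hu : SPV u) (hv : SPV v) (hz : SPV z) :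
    HasSum (fun n => ∑ t, (T t).κ n * (T t).X.cs u n * (T t).Y.cs v n * (T t).Z.cs z n) (ip (KQ T u v) z) := by
  have h1 : ip (KQ T u v) z = ∑ t, ip ((T t).E u v) z := ip_sum (fun t _ => (T t).SPV_E w hu hv) hz.cont
  rw [h1]
  exact hasSum_sum fun t _ => (T t).ip_E w hu hv hz

/-- The operator as a series. -/
theorem KQ_series (w : Wd R ℓ) {u v : V → V} (hu : SPV u) (hv : SPV v) (x : V) :
    HasSum (fun n => ∑ t, ((T t).κ n * (T t).X.cs u n * (T t).Y.cs v n) • (T t).Z.F n x) (KQ T u v x) := by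
  have h1 : KQ T u v x = ∑ t, (T t).E u v x := by
    unfold KQ
    rw [Finset.sum_apply]
  rw [h1]
  exact hasSum_sum fun t _ => (T t).series w hu hv x

end Pool.Agent.N980.WP
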