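import Pool.Agent.N980.WP.Sol

/-!
Uniqueness of smooth solutions.
-/

open MeasureTheory Set Filter Topology
open scoped ContDiff

set_option linter.unusedVariables false

namespace Pool.Agent.N980.WP

open Pool.Agent.N980.NU
open Pool.Agent.N980.CB (pd_sub' lap_sub' energy_nonneg eq_zero_of_energy)
open Pool.Agent.H356R3.NS (K C3 SN Sym nk pw)

variable {ν T : ℝ} {Kf : (V → V) → (V → V) → V → V}
variable {u u' : ℝ → V → V} {p p' : ℝ → V → ℝ}

/-- The algebraic properties of the operator. -/
structure Bil (Kf : (V → V) → (V → V) → V → V) : Prop where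
  spv : ∀ u v, SPV u → SPV v → SPV (Kf u v)
  add_left : ∀ u u' v, SPV u → SPV u' → SPV v → Kf (u + u') v = Kf u v + Kf u' v
  add_right : ∀ u v v', SPV u → SPV v → SPV v' → Kf u (v + v') = Kf u v + Kf u v'
  smul_left : ∀ (r : ℝ) u v, SPV u → SPV v → Kf (r • u) v = r • Kf u v
  smul_right : ∀ (r : ℝ) u v, SPV u → SPV v → Kf u (r • v) = r • Kf u v
  skew : ∀ u v, SPV u → SPV v → ip (Kf u v) v = 0

theorem Bil.opr (h : Bil Kf) : Opr Kf := ⟨h.spv, fun u hu => h.skew u u hu hu⟩

theorem Bil.uu_diff (h : Bil Kf) {u u' : V → V} (hu : SPV u) (hu' : SPV u') :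
    Kf u u - Kf u' u' = Kf (u + (-1 : ℝ) • u') u + Kf u' (u + (-1 : ℝ) • u') := by
  have hm := hu'.smul (-1)
  rw [h.add_left _ _ _ hu hm hu, h.smul_left (-1) _ _ hu' hu, h.add_right _ _ _ hu' hu hm,
    h.smul_right (-1) _ _ hu' hu']
  simp only [neg_smul, one_smul]
  abel

/-- Uniform bounds on compact time intervals. -/
theorem Sol.bounds (h : Sol ν Kf T u p) {T1 : ℝ} (hT1 : T1 < T) :
    ∃ C, 0 ≤ C ∧ ∀ t ∈ Icc 0 T1, ∀ x ∈ H459R3.NS.cube, ∀ i j, |H459R3.NS.pd j (fun y => u t y i) x| ≤ C := by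
  have hK : IsCompact (Icc 0 T1 ×ˢ H459R3.NS.cube) := isCompact_Icc.prod isCompact_Icc
  have hsub : Icc 0 T1 ×ˢ H459R3.NS.cube ⊆ Ico 0 T ×ˢ (univ : Set V) :=
    prod_mono (fun s hs => ⟨hs.1, hs.2.trans_lt hT1⟩) (subset_univ _)
  have h1 : ∀ i j, ∃ C, ∀ z ∈ Icc 0 T1 ×ˢ H459R3.NS.cube, ‖H459R3.NS.pd j (fun y => u z.1 y i) z.2‖ ≤ C := by
    intro i j
    have hc := (H459R3.NS.contDiffOn_pd (f := fun s y => u s y i) (h.sm i) j).continuousOn
    exact hK.exists_bound_of_continuousOn (hc.mono hsub)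
  choose C hC using h1
  have hle : ∀ i j, |C i j| ≤ ∑ i, ∑ j, |C i j| := by
    intro i j
    refine (Finset.single_le_sum (f := fun j => |C i j|) (fun _ _ => abs_nonneg _) (Finset.mem_univ j)).trans ?_
    exact Finset.single_le_sum (f := fun i => ∑ j, |C i j|)
      (fun _ _ => Finset.sum_nonneg fun _ _ => abs_nonneg _) (Finset.mem_univ i)
  have hs0 : 0 ≤ ∑ i, ∑ j, |C i j| := Finset.sum_nonneg fun _ _ => Finset.sum_nonneg fun _ _ => abs_nonneg _
  refine ⟨∑ i, ∑ j, |C i j|, hs0, fun t ht x hx i j => ?_⟩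
  have h2 := hC i j (t, x) ⟨ht, hx⟩
  rw [Real.norm_eq_abs] at h2
  have h3 := le_abs_self (C i j)
  have h4 := hle i j
  linarith

/-- Uniqueness. -/
theorem uniqueness (hB : Bil Kf) (hν : 0 < ν) (h : Sol ν Kf T u p) (h' : Sol ν Kf T u' p')
    (hb : ∀ T1 < T, ∃ D, 0 ≤ D ∧ ∀ t ∈ Icc 0 T1, ∀ w, SPV w → |ip (Kf w (u t)) w| ≤ D * energy w)
    (h0 : u 0 = u' 0) : ∀ t ∈ Ico 0 T, u t = u' t := by
  intro T1 hT1
  obtain ⟨C, hC0, hC1⟩ := h'.bounds hT1.2
  obtain ⟨D, hD0, hD2⟩ := hb T1 hT1.2
  set w : ℝ → V → V := fun t => u t + (-1 : ℝ) • u' t with hw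
  have hwe : ∀ t x i, w t x i = u t x i - u' t x i := by
    intro t x i
    simp only [hw, Pi.add_apply, Pi.smul_apply, smul_eq_mul]
    ring
  have hwS : ∀ t ∈ Ico 0 T, SPV (w t) := fun t ht => (h.spv ht).add ((h'.spv ht).smul (-1))
  set E : ℝ → ℝ := fun t => energy (w t) with hE
  set L : ℝ := 2 * (3 * C + D) with hL
  have hcont : ContinuousOn E (Icc 0 T1) := by
    have h1 : ContinuousOn (fun z : ℝ × V => ∑ i, (u z.1 z.2 i - u' z.1 z.2 i) ^ 2) (Ico 0 T ×ˢ univ) :=
      continuousOn_finsetSum _ fun i _ => ((h.sm i).continuousOn.sub (h'.sm i).continuousOn).pow 2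
    have h2 := H459R3.NS.continuousOn_int (F := fun s x => ∑ i, (u s x i - u' s x i) ^ 2) h1
    have h3 : E = fun s => ∫ x in H459R3.NS.cube, ∑ i, (u s x i - u' s x i) ^ 2 := by
      funext s
      show ∫ x in cube, ∑ i, w s x i ^ 2 = _
      simp only [hwe]
      rfl
    rw [h3]
    exact h2.mono fun s hs => ⟨hs.1, hs.2.trans_lt hT1.2⟩
  have hder : ∀ t ∈ Ioo 0 T1, ∃ E', HasDerivAt E E' t ∧ E' ≤ L * E t := by
    intro t ht
    have htT : t ∈ Ioo 0 T := ⟨ht.1, ht.2.trans hT1.2⟩
    have hI : t ∈ Ico 0 T := ⟨ht.1.le, htT.2⟩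
    have htc : t ∈ Icc 0 T1 := ⟨ht.1.le, ht.2.le⟩
    set v : Fin 3 → V → ℝ := fun i y => u t y i with hv
    set v' : Fin 3 → V → ℝ := fun i y => u' t y i with hv'
    set g : Fin 3 → V → ℝ := fun i y => v i y - v' i y with hg
    have hsp : ∀ i, H459R3.NS.SP (v i) := fun i => (h.spv hI).sp i
    have hsp' : ∀ i, H459R3.NS.SP (v' i) := fun i => (h'.spv hI).sp i
    have hsg : ∀ i, H459R3.NS.SP (g i) := fun i => SP_sub (hsp i) (hsp' i)
    have hdiv : ∀ x, ∑ i, H459R3.NS.pd i (v i) x = 0 := fun x => h.divfree t hI x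
    have hdiv' : ∀ x, ∑ i, H459R3.NS.pd i (v' i) x = 0 := fun x => h'.divfree t hI x
    have hdg : ∀ x, ∑ i, H459R3.NS.pd i (g i) x = 0 := by
      intro x
      have e : ∀ i, H459R3.NS.pd i (g i) x = H459R3.NS.pd i (v i) x - H459R3.NS.pd i (v' i) x := fun i =>
        pd_sub' (hsp i) (hsp' i) i x
      simp only [e]
      rw [Finset.sum_sub_distrib, hdiv, hdiv', sub_zero]
    have hq : H459R3.NS.SP fun x => p t x - p' t x := SP_sub (h.spp hI) (h'.spp hI)
    have hKs := (hB.spv _ _ (hwS t hI) (h.spv hI)).add (hB.spv _ _ (h'.spv hI) (hwS t hI))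
    set KW : V → V := Kf (w t) (u t) + Kf (u' t) (w t) with hKW
    have hF : ContDiffOn ℝ 1 (fun z : ℝ × V => ∑ i, (u z.1 z.2 i - u' z.1 z.2 i) ^ 2) (Ioo 0 T ×ˢ univ) :=
      ContDiffOn.sum fun i _ =>
        ((H459R3.NS.mono_Ioo (f := fun s y => u s y i) (n := 1) (h.sm i) (by norm_cast)).sub
        (H459R3.NS.mono_Ioo (f := fun s y => u' s y i) (n := 1) (h'.sm i) (by norm_cast))).pow 2
    have key := H459R3.NS.hasDerivAt_int (F := fun s x => ∑ i, (u s x i - u' s x i) ^ 2) hF htT
    have hEe : E = fun s => ∫ x in H459R3.NS.cube, ∑ i, (u s x i - u' s x i) ^ 2 := by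
      funext s
      show ∫ x in cube, ∑ i, w s x i ^ 2 = _
      simp only [hwe]
      rfl
    rw [hEe]
    refine ⟨_, key, ?_⟩
    have h3 : ∀ x, deriv (fun s => ∑ i, (u s x i - u' s x i) ^ 2) t
        = 2 * ν * (∑ i, H459R3.NS.lap (g i) x * g i x) - 2 * (∑ i, ∑ j, v j x * (g i x * H459R3.NS.pd j (g i) x))
          - 2 * (∑ i, g i x * H459R3.NS.pd i (fun x => p t x - p' t x) x)
          + 2 * (∑ i, KW x i * g i x) - 2 * (∑ i, ∑ j, g i x * g j x * H459R3.NS.pd j (v' i) x) := by
      intro x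
      have h4 : HasDerivAt (fun s => ∑ i, (u s x i - u' s x i) ^ 2)
          (∑ i, 2 * g i x * ((ν * H459R3.NS.lap (v i) x - H459R3.NS.conv v i x - H459R3.NS.pd i (p t) x
            + Kf (u t) (u t) x i) - (ν * H459R3.NS.lap (v' i) x - H459R3.NS.conv v' i x
            - H459R3.NS.pd i (p' t) x + Kf (u' t) (u' t) x i))) t := by
        refine HasDerivAt.fun_sum fun i _ => ?_
        have h5 := ((h.hd htT x i).sub (h'.hd htT x i)).pow 2
        refine h5.congr_deriv ?_
        simp only [hg, hv, hv', Pi.sub_apply]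
        push_cast
        ring
      rw [h4.deriv]
      have c1 : ∀ i, H459R3.NS.conv v i x - H459R3.NS.conv v' i x
          = ∑ j, (v j x * H459R3.NS.pd j (g i) x + g j x * H459R3.NS.pd j (v' i) x) := by
        intro i
        unfold H459R3.NS.conv
        rw [← Finset.sum_sub_distrib]
        refine Finset.sum_congr rfl fun j _ => ?_
        have e : H459R3.NS.pd j (g i) x = H459R3.NS.pd j (v i) x - H459R3.NS.pd j (v' i) x :=
          pd_sub' (hsp i) (hsp' i) j x
        rw [e]
        simp only [hg]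
        ring
      have c2 : ∀ i, Kf (u t) (u t) x i - Kf (u' t) (u' t) x i = KW x i := by
        intro i
        have := congrFun (congrFun (hB.uu_diff (h.spv hI) (h'.spv hI)) x) i
        exact this
      have c3 : ∀ i, H459R3.NS.lap (v i) x - H459R3.NS.lap (v' i) x = H459R3.NS.lap (g i) x := fun i =>
        (lap_sub' (hsp i) (hsp' i) x).symm
      have c4 : ∀ i, H459R3.NS.pd i (p t) x - H459R3.NS.pd i (p' t) x
          = H459R3.NS.pd i (fun x => p t x - p' t x) x := fun i => (pd_sub' (h.spp hI) (h'.spp hI) i x).symm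
      have c5 : ∀ i, 2 * g i x * ((ν * H459R3.NS.lap (v i) x - H459R3.NS.conv v i x - H459R3.NS.pd i (p t) x
            + Kf (u t) (u t) x i) - (ν * H459R3.NS.lap (v' i) x - H459R3.NS.conv v' i x
            - H459R3.NS.pd i (p' t) x + Kf (u' t) (u' t) x i))
          = 2 * ν * (H459R3.NS.lap (g i) x * g i x) - 2 * (∑ j, v j x * (g i x * H459R3.NS.pd j (g i) x))
            - 2 * (g i x * H459R3.NS.pd i (fun x => p t x - p' t x) x)
            + 2 * (KW x i * g i x) - 2 * (∑ j, g i x * g j x * H459R3.NS.pd j (v' i) x) := by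
        intro i
        rw [← c4, ← c3, ← c2]
        have e1 : ∑ j, v j x * (g i x * H459R3.NS.pd j (g i) x) + ∑ j, g i x * g j x * H459R3.NS.pd j (v' i) x
            = g i x * (H459R3.NS.conv v i x - H459R3.NS.conv v' i x) := by
          rw [c1, Finset.mul_sum, ← Finset.sum_add_distrib]
          exact Finset.sum_congr rfl fun j _ => by ring
        linear_combination 2 * e1
      simp only [c5]
      rw [Finset.sum_sub_distrib, Finset.sum_add_distrib, Finset.sum_sub_distrib, Finset.sum_sub_distrib,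
        ← Finset.mul_sum, ← Finset.mul_sum, ← Finset.mul_sum, ← Finset.mul_sum, ← Finset.mul_sum]
    simp_rw [h3]
    have i1 : ∀ i, IntegrableOn (fun x => H459R3.NS.lap (g i) x * g i x) H459R3.NS.cube := fun i =>
      ((hsg i).lap.mul (hsg i)).int
    have i2 : ∀ i j, IntegrableOn (fun x => v j x * (g i x * H459R3.NS.pd j (g i) x)) H459R3.NS.cube := fun i j =>
      ((hsp j).mul ((hsg i).mul ((hsg i).pd j))).int
    have i3 : ∀ i, IntegrableOn (fun x => g i x * H459R3.NS.pd i (fun x => p t x - p' t x) x) H459R3.NS.cube :=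
      fun i => ((hsg i).mul (hq.pd i)).int
    have i4 : ∀ i, IntegrableOn (fun x => KW x i * g i x) H459R3.NS.cube := fun i =>
      ((hKs.sp i).mul (hsg i)).int
    have i5 : ∀ i j, IntegrableOn (fun x => g i x * g j x * H459R3.NS.pd j (v' i) x) H459R3.NS.cube := fun i j =>
      (((hsg i).mul (hsg j)).mul ((hsp' i).pd j)).int
    have s1 := (integrable_finsetSum Finset.univ fun i _ => i1 i).const_mul (2 * ν)
    have s2 := (integrable_finsetSum Finset.univ fun i _ => integrable_finsetSum Finset.univ fun j _ => i2 i j).const_mul 2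
    have s3 := (integrable_finsetSum Finset.univ fun i _ => i3 i).const_mul 2
    have s4 := (integrable_finsetSum Finset.univ fun i _ => i4 i).const_mul 2
    have s5 := (integrable_finsetSum Finset.univ fun i _ => integrable_finsetSum Finset.univ fun j _ => i5 i j).const_mul 2
    have s12 := s1.sub s2
    have s123 := s12.sub s3
    have s1234 := s123.add s4
    have e0 : ∫ x in H459R3.NS.cube, (2 * ν * (∑ i, H459R3.NS.lap (g i) x * g i x)
          - 2 * (∑ i, ∑ j, v j x * (g i x * H459R3.NS.pd j (g i) x))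
          - 2 * (∑ i, g i x * H459R3.NS.pd i (fun x => p t x - p' t x) x)
          + 2 * (∑ i, KW x i * g i x) - 2 * (∑ i, ∑ j, g i x * g j x * H459R3.NS.pd j (v' i) x))
        = 2 * ν * (∑ i, ∫ x in H459R3.NS.cube, H459R3.NS.lap (g i) x * g i x)
          - 2 * (∑ i, ∑ j, ∫ x in H459R3.NS.cube, v j x * (g i x * H459R3.NS.pd j (g i) x))
          - 2 * (∑ i, ∫ x in H459R3.NS.cube, g i x * H459R3.NS.pd i (fun x => p t x - p' t x) x)
          + 2 * (∫ x in H459R3.NS.cube, ∑ i, KW x i * g i x)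
          - 2 * ∫ x in H459R3.NS.cube, ∑ i, ∑ j, g i x * g j x * H459R3.NS.pd j (v' i) x := by
      have q1 := integral_sub s1234 s5
      have q2 := integral_add s123 s4
      have q3 := integral_sub s12 s3
      have q4 := integral_sub s1 s2
      simp only [Pi.sub_apply, Pi.add_apply] at q1 q2 q3 q4
      rw [q1, q2, q3, q4, integral_const_mul, integral_const_mul, integral_const_mul, integral_const_mul,
        integral_const_mul, integral_finsetSum _ fun i _ => i1 i, integral_finsetSum _ fun i _ => i3 i,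
        integral_finsetSum _ fun i _ => integrable_finsetSum _ fun j _ => i2 i j]
      congr 5
      exact Finset.sum_congr rfl fun i _ => integral_finsetSum _ fun j _ => i2 i j
    rw [e0]
    have z2 : ∑ i, ∑ j, ∫ x in H459R3.NS.cube, v j x * (g i x * H459R3.NS.pd j (g i) x) = 0 :=
      Finset.sum_eq_zero fun i _ => H459R3.NS.transport_zero hsp hdiv (hsg i)
    have z3 : ∑ i, ∫ x in H459R3.NS.cube, g i x * H459R3.NS.pd i (fun x => p t x - p' t x) x = 0 :=
      H459R3.NS.int_press hsg hdg hq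
    have z1 : ∑ i, ∫ x in H459R3.NS.cube, H459R3.NS.lap (g i) x * g i x ≤ 0 := by
      refine Finset.sum_nonpos fun i _ => ?_
      rw [H459R3.NS.int_lap_mul (hsg i) (hsg i)]
      have : 0 ≤ ∑ j, ∫ x in H459R3.NS.cube, H459R3.NS.pd j (g i) x * H459R3.NS.pd j (g i) x :=
        Finset.sum_nonneg fun j _ => integral_nonneg fun x => mul_self_nonneg _
      linarith
    have hgw : ∀ x i, g i x = w t x i := fun x i => (hwe t x i).symm
    have hEt : ∫ x in H459R3.NS.cube, ∑ i, (u t x i - u' t x i) ^ 2 = energy (w t) := by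
      show _ = ∫ x in cube, ∑ i, w t x i ^ 2
      simp only [hwe]
      rfl
    have z4 : ∫ x in H459R3.NS.cube, ∑ i, KW x i * g i x ≤ D * energy (w t) := by
      have e1 : ∫ x in H459R3.NS.cube, ∑ i, KW x i * g i x = ip KW (w t) := by
        simp only [hgw]
        rfl
      have e2 : ip KW (w t) = ip (Kf (w t) (u t)) (w t) + ip (Kf (u' t) (w t)) (w t) := by
        unfold ip
        rw [← integral_add]
        · congr 1
          funext x
          rw [← Finset.sum_add_distrib]
          refine Finset.sum_congr rfl fun i _ => ?_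
          simp only [hKW, Pi.add_apply]
          ring
        · exact integrable_finsetSum _ fun i _ =>
            (((hB.spv _ _ (hwS t hI) (h.spv hI)).sp i).mul ((hwS t hI).sp i)).int
        · exact integrable_finsetSum _ fun i _ =>
            (((hB.spv _ _ (h'.spv hI) (hwS t hI)).sp i).mul ((hwS t hI).sp i)).int
      have e3 : ip (Kf (u' t) (w t)) (w t) = 0 := hB.skew _ _ (h'.spv hI) (hwS t hI)
      have e5 := hD2 t htc (w t) (hwS t hI)
      rw [e1, e2, e3, add_zero]
      exact (le_abs_self _).trans e5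
    have z5 : -∫ x in H459R3.NS.cube, ∑ i, ∑ j, g i x * g j x * H459R3.NS.pd j (v' i) x ≤ 3 * C * energy (w t) := by
      have i6 : IntegrableOn (fun x => ∑ i, g i x ^ 2) H459R3.NS.cube :=
        integrable_finsetSum _ fun i _ => by
          have := ((hsg i).mul (hsg i)).int
          simp only [sq]
          exact this
      have e1 : 3 * C * energy (w t) = ∫ x in H459R3.NS.cube, 3 * C * ∑ i, g i x ^ 2 := by
        rw [integral_const_mul]
        simp only [hgw]
        rfl
      rw [e1, ← integral_neg]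
      refine setIntegral_mono_on ?_ (i6.const_mul _) measurableSet_Icc fun x hx => ?_
      · exact (integrable_finsetSum _ fun i _ => integrable_finsetSum _ fun j _ => i5 i j).neg
      · have h6 : ∀ i j, -(g i x * g j x * H459R3.NS.pd j (v' i) x) ≤ C * (|g i x| * |g j x|) := by
          intro i j
          have h7 := hC1 t htc x hx i j
          calc -(g i x * g j x * H459R3.NS.pd j (v' i) x) ≤ |g i x * g j x * H459R3.NS.pd j (v' i) x| := neg_le_abs _
            _ = |g i x| * |g j x| * |H459R3.NS.pd j (v' i) x| := by rw [abs_mul, abs_mul]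
            _ ≤ |g i x| * |g j x| * C := by gcongr
            _ = _ := by ring
        rw [← Finset.sum_neg_distrib]
        calc ∑ i, -∑ j, g i x * g j x * H459R3.NS.pd j (v' i) x
            = ∑ i, ∑ j, -(g i x * g j x * H459R3.NS.pd j (v' i) x) := by
              simp only [Finset.sum_neg_distrib]
          _ ≤ ∑ i, ∑ j, C * (|g i x| * |g j x|) :=
              Finset.sum_le_sum fun i _ => Finset.sum_le_sum fun j _ => h6 i j
          _ = C * (∑ i, |g i x|) ^ 2 := by
              rw [sq, Finset.sum_mul_sum, Finset.mul_sum]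
              exact Finset.sum_congr rfl fun i _ => by rw [Finset.mul_sum]
          _ ≤ C * (3 * ∑ i, g i x ^ 2) := by
              refine mul_le_mul_of_nonneg_left ?_ hC0
              simp only [Fin.sum_univ_three]
              rw [← sq_abs (g 0 x), ← sq_abs (g 1 x), ← sq_abs (g 2 x)]
              nlinarith [sq_nonneg (|g 0 x| - |g 1 x|), sq_nonneg (|g 1 x| - |g 2 x|), sq_nonneg (|g 0 x| - |g 2 x|)]
          _ = _ := by ring
    have z1' : 2 * ν * (∑ i, ∫ x in H459R3.NS.cube, H459R3.NS.lap (g i) x * g i x) ≤ 0 :=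
      mul_nonpos_of_nonneg_of_nonpos (by positivity) z1
    rw [z2, z3]
    have e9 : L * (fun s => ∫ x in H459R3.NS.cube, ∑ i, (u s x i - u' s x i) ^ 2) t = L * energy (w t) := by
      simp only [hEt]
    rw [e9, hL]
    linarith
  -- Gronwall
  have hanti : AntitoneOn (fun t => Real.exp (-(L * t)) * E t) (Icc 0 T1) := by
    refine antitoneOn_of_deriv_nonpos (convex_Icc 0 T1) ?_ ?_ ?_
    · exact (by fun_prop : Continuous fun t : ℝ => Real.exp (-(L * t))).continuousOn.mul hcont
    · rw [interior_Icc]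
      intro t ht
      obtain ⟨E', h1, h2⟩ := hder t ht
      have h3 : HasDerivAt (fun t : ℝ => Real.exp (-(L * t))) (Real.exp (-(L * t)) * -L) t := by
        have : HasDerivAt (fun t : ℝ => -(L * t)) (-L) t := by
          simpa using ((hasDerivAt_id' t).const_mul L).fun_neg
        exact this.exp
      exact (h3.mul h1).differentiableAt.differentiableWithinAt
    · rw [interior_Icc]
      intro t ht
      obtain ⟨E', h1, h2⟩ := hder t ht
      have h3 : HasDerivAt (fun t : ℝ => Real.exp (-(L * t))) (Real.exp (-(L * t)) * -L) t := by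
        have : HasDerivAt (fun t : ℝ => -(L * t)) (-L) t := by
          simpa using ((hasDerivAt_id' t).const_mul L).fun_neg
        exact this.exp
      have h4 := (h3.mul h1).deriv
      have h5 : deriv (fun t => Real.exp (-(L * t)) * E t) t = Real.exp (-(L * t)) * -L * E t + Real.exp (-(L * t)) * E' := h4
      rw [h5]
      have h6 := Real.exp_pos (-(L * t))
      nlinarith
  have hle := hanti ⟨le_rfl, hT1.1⟩ ⟨hT1.1, le_rfl⟩ hT1.1
  have hE0 : E 0 = 0 := by
    have : w 0 = 0 := by
      funext x i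
      rw [hwe, h0, sub_self]
      rfl
    show energy (w 0) = 0
    rw [this]
    unfold energy
    simp
  simp only [hE0, mul_zero] at hle
  have h7 : E T1 ≤ 0 := by
    have h6 := Real.exp_pos (-(L * T1))
    by_contra h8
    push Not at h8
    have := mul_pos h6 h8
    linarith
  have h8 : energy (w T1) = 0 := le_antisymm h7 (energy_nonneg _)
  have h9 := eq_zero_of_energy (hwS T1 hT1) h8
  funext x i
  have h10 := hwe T1 x i
  rw [h9] at h10
  have : (0 : V → V) x i = 0 := rfl
  rw [this] at h10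
  linarith

end Pool.Agent.N980.WP
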